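import Mathlib

set_option autoImplicit false

/-! Polynomial maps into a filtered group (Lazard-Leibman), lower central filtration. -/

namespace Pool.Agent.Lib.MP_35c333_an

section Poly

variable {Lam H : Type*} [AddCommGroup Lam] [Group H]

/-- (left) difference derivative of a map into a group. -/
def der (h : Lam) (f : Lam → H) : Lam → H := fun v => f (v + h) * (f v)⁻¹

/-- `IsPoly F n k f`: for every `m ≤ n` all `m`-fold derivatives of `f` take values in `F (k+m)`. -/
def IsPoly (F : ℕ → Subgroup H) : ℕ → ℕ → (Lam → H) → Prop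
  | 0, k, f => ∀ v, f v ∈ F k
  | n + 1, k, f => (∀ v, f v ∈ F k) ∧ ∀ h, IsPoly F n (k + 1) (der h f)

/-- A filtration: decreasing, with `⁅F i, F j⁆ ≤ F (i + j)`. -/
structure IsFilt (F : ℕ → Subgroup H) : Prop where
  anti : ∀ i, F (i + 1) ≤ F i
  comm : ∀ i j, ∀ x ∈ F i, ∀ y ∈ F j, x * y * x⁻¹ * y⁻¹ ∈ F (i + j)

variable {F : ℕ → Subgroup H}

theorem IsFilt.le (hF : IsFilt F) {i j : ℕ} (h : i ≤ j) : F j ≤ F i := by
  induction h with
  | refl => exact le_rfl
  | step _ ih => exact (hF.anti _).trans ih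

theorem IsPoly.val : ∀ {n k : ℕ} {f : Lam → H}, IsPoly F n k f → ∀ v, f v ∈ F k
  | 0, _, _, h => h
  | _ + 1, _, _, h => h.1

theorem IsPoly.anti (hF : IsFilt F) : ∀ {n k : ℕ} {f : Lam → H}, IsPoly F n (k + 1) f → IsPoly F n k f
  | 0, k, _, h => fun v => hF.anti k (h v)
  | _ + 1, k, _, h => ⟨fun v => hF.anti k (h.1 v), fun x => IsPoly.anti hF (h.2 x)⟩

theorem IsPoly.le (hF : IsFilt F) {n k l : ℕ} {f : Lam → H} (hkl : k ≤ l) (h : IsPoly F n l f) :
    IsPoly F n k f := by
  induction hkl with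
  | refl => exact h
  | step _ ih => exact ih (h.anti hF)

theorem IsPoly.pred : ∀ {n k : ℕ} {f : Lam → H}, IsPoly F (n + 1) k f → IsPoly F n k f
  | 0, _, _, h => h.1
  | _ + 1, _, _, h => ⟨h.1, fun x => IsPoly.pred (h.2 x)⟩

theorem IsPoly.one : ∀ (n k : ℕ), IsPoly F n k (1 : Lam → H)
  | 0, k => fun _ => (F k).one_mem
  | n + 1, k => ⟨fun _ => (F k).one_mem, fun x => by
      have : der x (1 : Lam → H) = 1 := by
        funext v; simp [der]
      rw [this]; exact IsPoly.one n (k + 1)⟩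

/-- The simultaneous induction for Lazard-Leibman. -/
theorem poly_induction (hF : IsFilt F) : ∀ n : ℕ,
    (∀ k, ∀ f g : Lam → H, IsPoly F n k f → IsPoly F n k g → IsPoly F n k (f * g)) ∧
    (∀ k, ∀ f : Lam → H, IsPoly F n k f → IsPoly F n k f⁻¹) ∧
    (∀ i j, ∀ f g : Lam → H, IsPoly F n i f → IsPoly F n j g →
      IsPoly F n (i + j) (f * g * f⁻¹ * g⁻¹)) := by
  intro n
  induction n with
  | zero =>
    refine ⟨fun k f g hf hg v => (F k).mul_mem (hf v) (hg v), fun k f hf v => (F k).inv_mem (hf v), ?_⟩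
    intro i j f g hf hg v
    exact hF.comm i j _ (hf v) _ (hg v)
  | succ n ih =>
    obtain ⟨ihm, ihi, ihc⟩ := ih
    -- conjugation by level-0 elements
    have conj : ∀ k, ∀ x w : Lam → H, IsPoly F n 0 x → IsPoly F n k w →
        IsPoly F n k (x * w * x⁻¹) := by
      intro k x w hx hw
      have h1 := ihc 0 k x w hx hw
      have h2 := ihm k _ _ (by simpa using h1) hw
      have e : x * w * x⁻¹ = x * w * x⁻¹ * w⁻¹ * w := by group
      rw [e]; exact h2
    have lower : ∀ k, ∀ x : Lam → H, IsPoly F n k x → IsPoly F n 0 x :=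
      fun k x hx => hx.le hF (Nat.zero_le k)
    refine ⟨?_, ?_, ?_⟩
    · intro k f g hf hg
      refine ⟨fun v => (F k).mul_mem (hf.1 v) (hg.1 v), fun h => ?_⟩
      have e : der h (f * g) = der h f * (f * der h g * f⁻¹) := by
        funext v; simp only [der, Pi.mul_apply, Pi.inv_apply]; group
      rw [e]
      exact ihm _ _ _ (hf.2 h) (conj _ _ _ (lower _ _ hf.pred) (hg.2 h))
    · intro k f hf
      refine ⟨fun v => (F k).inv_mem (hf.1 v), fun h => ?_⟩
      have e : der h f⁻¹ = f⁻¹ * (der h f)⁻¹ * (f⁻¹)⁻¹ := by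
        funext v; simp only [der, Pi.mul_apply, Pi.inv_apply]; group
      rw [e]
      exact conj _ _ _ (ihi _ _ (lower _ _ hf.pred)) (ihi _ _ (hf.2 h))
    · intro i j f g hf hg
      refine ⟨fun v => ?_, fun h => ?_⟩
      · exact hF.comm i j _ (hf.1 v) _ (hg.1 v)
      · set f' := der h f with hf'
        set g' := der h g with hg'
        set e := f * g * f⁻¹ * g⁻¹ with he
        have pf : IsPoly F n i f := hf.pred
        have pg : IsPoly F n j g := hg.pred
        have pf' : IsPoly F n (i + 1) f' := hf.2 h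
        have pg' : IsPoly F n (j + 1) g' := hg.2 h
        have pe : IsPoly F n (i + j) e := ihc i j f g pf pg
        -- the pieces
        have A1 : IsPoly F n (i + j + 1) (f * g' * f⁻¹ * g'⁻¹) := by
          have := ihc i (j + 1) f g' pf pg'
          simpa [Nat.add_assoc] using this
        have A : IsPoly F n (i + j + 1) (f' * (f * g' * f⁻¹ * g'⁻¹) * f'⁻¹) :=
          conj _ _ _ (lower _ _ pf') A1
        have fg1 : IsPoly F n 1 (f' * g') :=
          ihm 1 _ _ (pf'.le hF (by omega)) (pg'.le hF (by omega))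
        have B : IsPoly F n (i + j + 1) ((f' * g') * e * (f' * g')⁻¹ * e⁻¹) := by
          have := ihc 1 (i + j) _ _ fg1 pe
          rwa [Nat.add_comm 1 (i + j)] at this
        have W1 : IsPoly F n (i + j + 1) (f' * g' * f'⁻¹ * g'⁻¹) := by
          have := ihc (i + 1) (j + 1) _ _ pf' pg'
          exact this.le hF (by omega)
        have W2 : IsPoly F n (i + j + 1) (g' * (f' * g * f'⁻¹ * g⁻¹) * g'⁻¹) := by
          refine conj _ _ _ (lower _ _ pg') ?_
          have := ihc (i + 1) j _ _ pf' pg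
          exact this.le hF (by omega)
        have W : IsPoly F n (i + j + 1) (e * ((f' * g' * f'⁻¹ * g'⁻¹) *
            (g' * (f' * g * f'⁻¹ * g⁻¹) * g'⁻¹)) * e⁻¹) :=
          conj _ _ _ (lower _ _ pe) (ihm _ _ _ W1 W2)
        have key : der h e = (f' * (f * g' * f⁻¹ * g'⁻¹) * f'⁻¹) *
            ((f' * g') * e * (f' * g')⁻¹ * e⁻¹) *
            (e * ((f' * g' * f'⁻¹ * g'⁻¹) * (g' * (f' * g * f'⁻¹ * g⁻¹) * g'⁻¹)) * e⁻¹) := by
          funext v
          simp only [he, hf', hg', der, Pi.mul_apply, Pi.inv_apply]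
          group
        rw [key]
        exact ihm _ _ _ (ihm _ _ _ A B) W

theorem IsPoly.mul (hF : IsFilt F) {n k : ℕ} {f g : Lam → H} (hf : IsPoly F n k f)
    (hg : IsPoly F n k g) : IsPoly F n k (f * g) := (poly_induction hF n).1 k f g hf hg

theorem IsPoly.inv (hF : IsFilt F) {n k : ℕ} {f : Lam → H} (hf : IsPoly F n k f) :
    IsPoly F n k f⁻¹ := (poly_induction hF n).2.1 k f hf

theorem IsPoly.const (n k : ℕ) {c : H} (hc : c ∈ F k) :
    IsPoly F n k (fun _ : Lam => c) := by
  cases n with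
  | zero => exact fun _ => hc
  | succ n =>
    refine ⟨fun _ => hc, fun h => ?_⟩
    have : der h (fun _ : Lam => c) = 1 := by funext v; simp [der]
    rw [this]; exact IsPoly.one n (k + 1)

theorem IsPoly.comp {Lam' : Type*} [AddCommGroup Lam'] (t : Lam' →+ Lam) :
    ∀ {n k : ℕ} {f : Lam → H}, IsPoly F n k f → IsPoly F n k (fun v => f (t v))
  | 0, _, _, h => fun v => h (t v)
  | n + 1, k, f, h => ⟨fun v => h.1 (t v), fun x => by
      have e : der x (fun v => f (t v)) = fun v => der (t x) f (t v) := by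
        funext v; simp [der]
      rw [e]; exact IsPoly.comp t (h.2 (t x))⟩

/-- a power `c ^ w` with additive exponent is polynomial. -/
theorem IsPoly.zpow (n : ℕ) {c : H} (hc0 : c ∈ F 0) (hc : c ∈ F 1) (w : Lam →+ ℤ) :
    IsPoly F n 0 (fun v => c ^ (w v)) := by
  cases n with
  | zero => exact fun v => (F 0).zpow_mem hc0 _
  | succ n =>
    refine ⟨fun v => (F 0).zpow_mem hc0 _, fun h => ?_⟩
    have : der h (fun v => c ^ (w v)) = fun _ => c ^ (w h) := by
      funext v
      simp only [der, map_add]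
      rw [← zpow_neg, ← zpow_add]; congr 1; ring
    rw [this]; exact IsPoly.const n 1 ((F 1).zpow_mem hc _)

/-- The group of polynomial maps (Lazard-Leibman). -/
def PolyGroup (Lam : Type*) [AddCommGroup Lam] (F : ℕ → Subgroup H) (hF : IsFilt F) :
    Subgroup (Lam → H) where
  carrier := {f | ∀ n, IsPoly F n 0 f}
  mul_mem' := fun hf hg n => (hf n).mul hF (hg n)
  one_mem' := fun n => IsPoly.one n 0
  inv_mem' := fun hf n => (hf n).inv hF

theorem mem_polyGroup {hF : IsFilt F} {f : Lam → H} :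
    f ∈ PolyGroup Lam F hF ↔ ∀ n, IsPoly F n 0 f := Iff.rfl

end Poly

section LCS

variable {H : Type*} [Group H]

theorem three_subgroups {H₁ H₂ H₃ N : Subgroup H} [N.Normal]
    (h1 : ⁅⁅H₂, H₃⁆, H₁⁆ ≤ N) (h2 : ⁅⁅H₃, H₁⁆, H₂⁆ ≤ N) : ⁅⁅H₁, H₂⁆, H₃⁆ ≤ N := by
  have key : ∀ A B C : Subgroup H, ⁅⁅A, B⁆, C⁆ ≤ N ↔
      ⁅⁅A.map (QuotientGroup.mk' N), B.map (QuotientGroup.mk' N)⁆, C.map (QuotientGroup.mk' N)⁆ = ⊥ := by
    intro A B C
    rw [← Subgroup.map_commutator, ← Subgroup.map_commutator, Subgroup.map_eq_bot_iff,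
      QuotientGroup.ker_mk']
  rw [key] at h1 h2 ⊢
  exact Subgroup.commutator_commutator_eq_bot_of_rotate h1 h2

theorem lcs_comm (a b : ℕ) : ⁅(⊤ : Subgroup H).lowerCentralSeries a, (⊤ : Subgroup H).lowerCentralSeries b⁆
    ≤ (⊤ : Subgroup H).lowerCentralSeries (a + b + 1) := by
  induction b generalizing a with
  | zero => simp
  | succ b ih =>
    rw [Subgroup.commutator_comm, Subgroup.lowerCentralSeries_succ]
    refine three_subgroups ?_ ?_
    · rw [Subgroup.commutator_comm ⊤, ← Subgroup.lowerCentralSeries_succ]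
      refine (ih (a + 1)).trans (le_of_eq ?_)
      congr 1; omega
    · refine (Subgroup.commutator_mono (ih a) le_rfl).trans (le_of_eq ?_)
      rw [← Subgroup.lowerCentralSeries_succ]; congr 1

/-- the filtration `F 0 = F 1 = ⊤`, `F (i+1) = i`-th term of the lower central series. -/
def lcsF (H : Type*) [Group H] (i : ℕ) : Subgroup H := (⊤ : Subgroup H).lowerCentralSeries (i - 1)

theorem lcsF_zero : lcsF H 0 = ⊤ := rfl
theorem lcsF_one : lcsF H 1 = ⊤ := rfl
theorem lcsF_succ (i : ℕ) (hi : 1 ≤ i) : lcsF H (i + 1) = ⁅lcsF H i, (⊤ : Subgroup H)⁆ := by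
  obtain ⟨j, rfl⟩ : ∃ j, i = j + 1 := ⟨i - 1, by omega⟩
  rfl

instance lcsF_normal (i : ℕ) : (lcsF H i).Normal := by
  unfold lcsF; infer_instance

theorem isFilt_lcsF : IsFilt (lcsF H) where
  anti i := by
    unfold lcsF
    exact Subgroup.lowerCentralSeries_antitone _ (by omega)
  comm i j x hx y hy := by
    rcases Nat.eq_zero_or_pos i with rfl | hi
    · rw [Nat.zero_add]
      have hn := lcsF_normal (H := H) j
      exact (lcsF H j).mul_mem (hn.conj_mem y hy x) ((lcsF H j).inv_mem hy)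
    rcases Nat.eq_zero_or_pos j with rfl | hj
    · rw [Nat.add_zero]
      have hn := lcsF_normal (H := H) i
      have h1 : x * y * x⁻¹ * y⁻¹ = x * (y * x⁻¹ * y⁻¹) := by group
      rw [h1]
      exact (lcsF H i).mul_mem hx (hn.conj_mem _ ((lcsF H i).inv_mem hx) y)
    · have := lcs_comm (H := H) (i - 1) (j - 1) (Subgroup.commutator_mem_commutator hx hy)
      have e : i - 1 + (j - 1) + 1 = i + j - 1 := by omega
      rw [e] at this
      exact this

end LCS

end Pool.Agent.Lib.MP_35c333_an
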