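import Mathlib

set_option autoImplicit false

/-! The index lattice `ℤ^D`: the forms `rho n`, the unipotent maps `sig m`, the scalings `theta a`. -/

namespace Pool.Agent.Lib.MP_35c333_an

variable {D : ℕ}

/-- `rho n v = ∑ v_i n^(i+1)`. -/
def rho (n : ℤ) (v : Fin D → ℤ) : ℤ := ∑ i : Fin D, v i * n ^ (i.val + 1)

/-- the substitution `n ↦ n + m` on polynomials without constant term. -/
def sig (m : ℤ) (v : Fin D → ℤ) : Fin D → ℤ := fun i =>
  ∑ j : Fin D, ((j.val + 1).choose (i.val + 1) : ℤ) * m ^ (j.val - i.val) * v j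

/-- the substitution `n ↦ a n`. -/
def theta (a : ℤ) (v : Fin D → ℤ) : Fin D → ℤ := fun i => a ^ (i.val + 1) * v i

theorem rho_add (n : ℤ) (v w : Fin D → ℤ) : rho n (v + w) = rho n v + rho n w := by
  simp [rho, add_mul, Finset.sum_add_distrib]

theorem rho_zero_vec (n : ℤ) : rho n (0 : Fin D → ℤ) = 0 := by simp [rho]

theorem rho_zero (v : Fin D → ℤ) : rho 0 v = 0 := by simp [rho]

/-- `rho n` as an additive homomorphism. -/
def rhoHom (n : ℤ) : (Fin D → ℤ) →+ ℤ where
  toFun := rho n
  map_zero' := rho_zero_vec n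
  map_add' := rho_add n

@[simp] theorem rhoHom_apply (n : ℤ) (v : Fin D → ℤ) : rhoHom n v = rho n v := rfl

theorem sig_add (m : ℤ) (v w : Fin D → ℤ) : sig m (v + w) = sig m v + sig m w := by
  funext i; simp [sig, mul_add, Finset.sum_add_distrib]

theorem sig_zero_vec (m : ℤ) : sig m (0 : Fin D → ℤ) = 0 := by
  funext i; simp [sig]

/-- `sig m` as an additive homomorphism. -/
def sigHom (m : ℤ) : (Fin D → ℤ) →+ (Fin D → ℤ) where
  toFun := sig m
  map_zero' := sig_zero_vec m
  map_add' := sig_add m

@[simp] theorem sigHom_apply (m : ℤ) (v : Fin D → ℤ) : sigHom m v = sig m v := rfl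

theorem theta_add (a : ℤ) (v w : Fin D → ℤ) : theta a (v + w) = theta a v + theta a w := by
  funext i; simp [theta, mul_add]

/-- `theta a` as an additive homomorphism. -/
def thetaHom (a : ℤ) : (Fin D → ℤ) →+ (Fin D → ℤ) where
  toFun := theta a
  map_zero' := by funext i; simp [theta]
  map_add' := theta_add a

@[simp] theorem thetaHom_apply (m : ℤ) (v : Fin D → ℤ) : thetaHom m v = theta m v := rfl

theorem rho_theta (n a : ℤ) (v : Fin D → ℤ) : rho n (theta a v) = rho (a * n) v := by
  simp only [rho, theta]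
  refine Finset.sum_congr rfl fun i _ => ?_
  rw [mul_pow]; ring

theorem rho_sig (n m : ℤ) (v : Fin D → ℤ) : rho n (sig m v) = rho (n + m) v - rho m v := by
  simp only [rho, sig]
  rw [← Finset.sum_sub_distrib]
  simp only [Finset.sum_mul]
  rw [Finset.sum_comm]
  refine Finset.sum_congr rfl fun j _ => ?_
  have hb := add_pow n m (j.val + 1)
  have h1 : ∑ i : Fin D, ((j.val + 1).choose (i.val + 1) : ℤ) * m ^ (j.val - i.val) * v j * n ^ (i.val + 1)
      = ∑ i ∈ Finset.range D, ((j.val + 1).choose (i + 1) : ℤ) * m ^ (j.val - i) * v j * n ^ (i + 1) := by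
    rw [Finset.sum_range]
  rw [h1]
  have h2 : ∑ i ∈ Finset.range D, ((j.val + 1).choose (i + 1) : ℤ) * m ^ (j.val - i) * v j * n ^ (i + 1)
      = ∑ i ∈ Finset.range (j.val + 1), ((j.val + 1).choose (i + 1) : ℤ) * m ^ (j.val - i) * v j * n ^ (i + 1) := by
    symm
    refine Finset.sum_subset (Finset.range_subset_range.mpr (by omega)) ?_
    intro i _ hi
    rw [Finset.mem_range, not_lt] at hi
    rw [Nat.choose_eq_zero_of_lt (by omega)]; simp
  rw [h2, hb, Finset.sum_range_succ' (fun l => n ^ l * m ^ (j.val + 1 - l) * ((j.val + 1).choose l : ℤ))]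
  simp only [pow_zero, Nat.sub_zero, Nat.choose_zero_right, Nat.cast_one, mul_one, one_mul]
  rw [mul_add, add_sub_cancel_right, Finset.mul_sum]
  refine Finset.sum_congr rfl fun i hi => ?_
  have : j.val + 1 - (i + 1) = j.val - i := by omega
  rw [this]; ring

theorem rho_inj {v w : Fin D → ℤ} (h : ∀ n, rho n v = rho n w) : v = w := by
  let p : Polynomial ℤ := ∑ i : Fin D, Polynomial.C (v i - w i) * Polynomial.X ^ (i.val + 1)
  have hp : p = 0 := by
    apply Polynomial.eq_zero_of_infinite_isRoot
    have : {x | p.IsRoot x} = Set.univ := by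
      ext n
      simp only [Set.mem_ofPred_eq, Set.mem_univ, iff_true, Polynomial.IsRoot.def, p,
        Polynomial.eval_finsetSum, Polynomial.eval_mul, Polynomial.eval_C, Polynomial.eval_pow,
        Polynomial.eval_X]
      have := h n
      simp only [rho] at this
      simp only [sub_mul, Finset.sum_sub_distrib, this, sub_self]
    rw [this]; exact Set.infinite_univ
  funext i
  have hc : p.coeff (i.val + 1) = v i - w i := by
    simp only [p, Polynomial.finsetSum_coeff, Polynomial.coeff_C_mul, Polynomial.coeff_X_pow]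
    rw [Finset.sum_eq_single i]
    · simp
    · intro j _ hj
      have : ¬ (i.val + 1 = j.val + 1) := by
        intro e; exact hj (Fin.ext (by omega))
      rw [if_neg this, mul_zero]
    · simp
  rw [hp] at hc
  simp at hc
  linarith

theorem sig_sig (m k : ℤ) (v : Fin D → ℤ) : sig m (sig k v) = sig (m + k) v := by
  apply rho_inj
  intro n
  rw [rho_sig, rho_sig, rho_sig, rho_sig]
  have : n + m + k = n + (m + k) := by ring
  rw [this]; ring

theorem sig_zero (v : Fin D → ℤ) : sig 0 v = v := by
  apply rho_inj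
  intro n
  rw [rho_sig, rho_zero]; simp

theorem theta_one (v : Fin D → ℤ) : theta 1 v = v := by
  funext i; simp [theta]

theorem sig_theta (n a : ℤ) (v : Fin D → ℤ) : sig n (theta a v) = theta a (sig (a * n) v) := by
  apply rho_inj
  intro k
  rw [rho_sig, rho_theta, rho_theta, rho_theta, rho_sig]
  have : a * (k + n) = a * k + a * n := by ring
  rw [this]

end Pool.Agent.Lib.MP_35c333_an
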