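import Mathlib
import Pool.Agent.Lib.MP_35c333_an.Basic
import Pool.Agent.Lib.MP_35c333_an.Index

set_option autoImplicit false

/-! The topological group `Poly(ℤ^D → H) ⋊ ℤ`. -/

namespace Pool.Agent.Lib.MP_35c333_an

open Topology Filter

/-- pairs of a polynomial map `ℤ^D → H` (with respect to the lower central series) and an integer. -/
@[ext]
structure PG (D : ℕ) (H : Type*) [Group H] where
  /-- the polynomial map -/
  f : (Fin D → ℤ) → H
  /-- the shift part -/
  n : ℤ
  poly : f ∈ PolyGroup (Fin D → ℤ) (lcsF H) isFilt_lcsF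

variable {D : ℕ} {H : Type*} [Group H]

theorem poly_sig {f : (Fin D → ℤ) → H} (hf : f ∈ PolyGroup (Fin D → ℤ) (lcsF H) isFilt_lcsF) (m : ℤ) :
    (fun v => f (sig m v)) ∈ PolyGroup (Fin D → ℤ) (lcsF H) isFilt_lcsF :=
  fun n => (hf n).comp (sigHom m)

theorem poly_theta {f : (Fin D → ℤ) → H} (hf : f ∈ PolyGroup (Fin D → ℤ) (lcsF H) isFilt_lcsF) (a : ℤ) :
    (fun v => f (theta a v)) ∈ PolyGroup (Fin D → ℤ) (lcsF H) isFilt_lcsF :=
  fun n => (hf n).comp (thetaHom a)

theorem poly_const (c : H) :
    (fun _ : Fin D → ℤ => c) ∈ PolyGroup (Fin D → ℤ) (lcsF H) isFilt_lcsF :=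
  fun n => IsPoly.const n 0 (by rw [lcsF_zero]; trivial)

theorem poly_zpow_rho (c : H) (n : ℤ) :
    (fun v : Fin D → ℤ => c ^ rho n v) ∈ PolyGroup (Fin D → ℤ) (lcsF H) isFilt_lcsF :=
  fun k => IsPoly.zpow k (by rw [lcsF_zero]; trivial) (by rw [lcsF_one]; trivial) (rhoHom n)

namespace PG

instance : Mul (PG D H) where
  mul x y := ⟨fun v => x.f v * y.f (sig x.n v), x.n + y.n,
    (PolyGroup _ _ _).mul_mem x.poly (poly_sig y.poly x.n)⟩

instance : One (PG D H) where
  one := ⟨fun _ => 1, 0, poly_const 1⟩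

instance : Inv (PG D H) where
  inv x := ⟨fun v => (x.f (sig (-x.n) v))⁻¹, -x.n,
    (PolyGroup _ _ _).inv_mem (poly_sig x.poly (-x.n))⟩

@[simp] theorem mul_f (x y : PG D H) (v : Fin D → ℤ) : (x * y).f v = x.f v * y.f (sig x.n v) := rfl
@[simp] theorem mul_n (x y : PG D H) : (x * y).n = x.n + y.n := rfl
@[simp] theorem one_f (v : Fin D → ℤ) : (1 : PG D H).f v = 1 := rfl
@[simp] theorem one_n : (1 : PG D H).n = 0 := rfl
@[simp] theorem inv_f (x : PG D H) (v : Fin D → ℤ) : (x⁻¹).f v = (x.f (sig (-x.n) v))⁻¹ := rfl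
@[simp] theorem inv_n (x : PG D H) : (x⁻¹).n = -x.n := rfl

theorem ext' {x y : PG D H} (hf : ∀ v, x.f v = y.f v) (hn : x.n = y.n) : x = y :=
  PG.ext (funext hf) hn

instance : Group (PG D H) where
  mul_assoc x y z := by
    apply ext'
    · intro v
      simp only [mul_f, mul_n, sig_sig, mul_assoc]
      rw [add_comm]
    · simp [add_assoc]
  one_mul x := by
    apply ext'
    · intro v; simp [sig_zero]
    · simp
  mul_one x := by
    apply ext'
    · intro v; simp
    · simp
  inv_mul_cancel x := by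
    apply ext'
    · intro v; simp
    · simp

/-- constants -/
def T (D : ℕ) {H : Type*} [Group H] (c : H) : PG D H := ⟨fun _ => c, 0, poly_const c⟩

/-- `R β = β^{rho 1} σ` -/
def R (D : ℕ) {H : Type*} [Group H] (b : H) : PG D H := ⟨fun v => b ^ rho 1 v, 1, poly_zpow_rho b 1⟩

@[simp] theorem T_f (c : H) (v : Fin D → ℤ) : (T D c).f v = c := rfl
@[simp] theorem T_n (c : H) : (T D c).n = 0 := rfl
@[simp] theorem R_f (b : H) (v : Fin D → ℤ) : (R D b).f v = b ^ rho 1 v := rfl
@[simp] theorem R_n (b : H) : (R D b).n = 1 := rfl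

theorem T_mul (c d : H) : T D (c * d) = T D c * T D d := ext' (fun v => by simp) (by simp)

/-- `T` as a homomorphism -/
def THom (D : ℕ) (H : Type*) [Group H] : H →* PG D H where
  toFun := T D
  map_one' := rfl
  map_mul' := T_mul

@[simp] theorem THom_apply (c : H) : THom D H c = T D c := rfl

theorem T_inv (c : H) : T D c⁻¹ = (T D c)⁻¹ := map_inv (THom D H) c
theorem T_zpow (c : H) (n : ℤ) : T D (c ^ n) = T D c ^ n := map_zpow (THom D H) c n

theorem zpow_n (x : PG D H) (m : ℤ) : (x ^ m).n = m * x.n := by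
  let φ : PG D H →* Multiplicative ℤ :=
    { toFun := fun y => Multiplicative.ofAdd y.n
      map_one' := rfl
      map_mul' := fun _ _ => rfl }
  have := map_zpow φ x m
  have h2 : (x ^ m).n = Multiplicative.toAdd (φ (x ^ m)) := rfl
  rw [h2, this, toAdd_zpow]
  simp [φ]

theorem R_zpow (b : H) (m : ℤ) : (R D b ^ m).n = m ∧ ∀ v, (R D b ^ m).f v = b ^ rho m v := by
  induction m using Int.induction_on with
  | zero => simp [rho_zero]
  | succ m ih =>
    rw [zpow_add_one]
    refine ⟨by rw [mul_n, ih.1, R_n], fun v => ?_⟩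
    rw [mul_f, ih.1, ih.2, R_f, rho_sig, ← zpow_add]
    congr 1
    have : (1 : ℤ) + m = m + 1 := by ring
    rw [this]; ring
  | pred m ih =>
    rw [zpow_sub_one]
    refine ⟨by rw [mul_n, ih.1, inv_n, R_n]; ring, fun v => ?_⟩
    rw [mul_f, ih.1, ih.2, inv_f, R_f, R_n, sig_sig, rho_sig, ← zpow_neg, ← zpow_add]
    congr 1
    have : (1 : ℤ) + (-1 + -(m : ℤ)) = -m := by ring
    rw [this]
    have : (-1 : ℤ) + -(m : ℤ) = -m - 1 := by ring
    rw [this]; ring

/-- the scaling endomorphism -/
def Th (a : ℤ) : PG D H →* PG D H where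
  toFun x := ⟨fun v => x.f (theta a v), a * x.n, poly_theta x.poly a⟩
  map_one' := ext' (fun v => rfl) (by simp)
  map_mul' x y := by
    apply ext'
    · intro v; simp only [mul_f, sig_theta]
    · simp [mul_add]

@[simp] theorem Th_f (a : ℤ) (x : PG D H) (v : Fin D → ℤ) : (Th a x).f v = x.f (theta a v) := rfl
@[simp] theorem Th_n (a : ℤ) (x : PG D H) : (Th a x).n = a * x.n := rfl

theorem Th_T (a : ℤ) (c : H) : Th a (T D c) = T D c := ext' (fun v => rfl) (by simp)

theorem Th_R (a : ℤ) (b : H) : Th a (R D b) = R D b ^ a := by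
  apply ext'
  · intro v; rw [Th_f, R_f, (R_zpow b a).2, rho_theta]; simp
  · rw [Th_n, R_n, (R_zpow b a).1]; simp

section Top

variable [TopologicalSpace H]

instance : TopologicalSpace (PG D H) :=
  TopologicalSpace.induced (fun x => (x.f, x.n)) inferInstance

theorem continuous_toProd : Continuous (fun x : PG D H => (x.f, x.n)) :=
  continuous_induced_dom

theorem continuous_f : Continuous (fun x : PG D H => x.f) :=
  continuous_fst.comp continuous_toProd

theorem continuous_n : Continuous (fun x : PG D H => x.n) :=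
  continuous_snd.comp continuous_toProd

theorem continuous_f_apply (v : Fin D → ℤ) : Continuous (fun x : PG D H => x.f v) :=
  (continuous_apply v).comp continuous_f

theorem continuous_iff {X : Type*} [TopologicalSpace X] {g : X → PG D H} :
    Continuous g ↔ (∀ v, Continuous fun x => (g x).f v) ∧ Continuous fun x => (g x).n := by
  constructor
  · intro h
    exact ⟨fun v => (continuous_f_apply v).comp h, continuous_n.comp h⟩
  · rintro ⟨h1, h2⟩
    refine continuous_induced_rng.2 ?_
    exact (continuous_pi h1).prodMk h2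

theorem continuous_T [IsTopologicalGroup H] : Continuous (T D : H → PG D H) := by
  rw [continuous_iff]
  exact ⟨fun v => continuous_id, continuous_const⟩

theorem continuous_R [IsTopologicalGroup H] : Continuous (R D : H → PG D H) := by
  rw [continuous_iff]
  exact ⟨fun v => continuous_zpow _, continuous_const⟩

theorem continuous_f_n (m : PG D H → PG D H → ℤ) (hm : Continuous fun p : PG D H × PG D H => m p.1 p.2)
    (v : Fin D → ℤ) :
    Continuous fun p : PG D H × PG D H => p.2.f (sig (m p.1 p.2) v) := by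
  rw [continuous_iff_continuousAt]
  intro p
  have h1 : ∀ᶠ q : PG D H × PG D H in 𝓝 p, m q.1 q.2 = m p.1 p.2 := by
    have : {m p.1 p.2} ∈ 𝓝 (m p.1 p.2) := (isOpen_discrete _).mem_nhds rfl
    exact hm.continuousAt this
  have h2 : ContinuousAt (fun q : PG D H × PG D H => q.2.f (sig (m p.1 p.2) v)) p :=
    ((continuous_f_apply _).comp continuous_snd).continuousAt
  refine h2.congr ?_
  filter_upwards [h1] with q hq
  rw [hq]

instance [IsTopologicalGroup H] : IsTopologicalGroup (PG D H) where
  continuous_mul := by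
    rw [continuous_iff]
    refine ⟨fun v => ?_, ?_⟩
    · simp only [mul_f]
      refine ((continuous_f_apply v).comp continuous_fst).mul ?_
      exact continuous_f_n (fun x _ => x.n) (continuous_n.comp continuous_fst) v
    · simp only [mul_n]
      exact (continuous_n.comp continuous_fst).add (continuous_n.comp continuous_snd)
  continuous_inv := by
    rw [continuous_iff]
    refine ⟨fun v => ?_, ?_⟩
    · simp only [inv_f]
      refine Continuous.inv ?_
      have h := continuous_f_n (H := H) (D := D) (fun _ y => -y.n) (continuous_n.comp continuous_snd).neg v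
      exact h.comp (continuous_id.prodMk continuous_id)
    · simp only [inv_n]
      exact continuous_n.neg

end Top

/-- the stabiliser of the base point: pairs with `Γ`-valued map. -/
def DG (D : ℕ) {H : Type*} [Group H] (Γ : Subgroup H) : Subgroup (PG D H) where
  carrier := {x | ∀ v, x.f v ∈ Γ}
  mul_mem' := fun hx hy _ => Γ.mul_mem (hx _) (hy _)
  one_mem' := fun _ => Γ.one_mem
  inv_mem' := fun hx _ => Γ.inv_mem (hx _)

theorem mem_DG {Γ : Subgroup H} {x : PG D H} : x ∈ DG D Γ ↔ ∀ v, x.f v ∈ Γ := Iff.rfl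

theorem isClosed_DG [TopologicalSpace H] {Γ : Subgroup H} (hΓ : IsClosed (Γ : Set H)) :
    IsClosed (DG D Γ : Set (PG D H)) := by
  have : (DG D Γ : Set (PG D H)) = ⋂ v, {x | x.f v ∈ (Γ : Set H)} := by
    ext x; simp [DG]
  rw [this]
  exact isClosed_iInter fun v => hΓ.preimage (continuous_f_apply v)

end PG

end Pool.Agent.Lib.MP_35c333_an
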