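import Mathlib
import Pool.Agent.Lib.MP_35c333_an.Basic

set_option autoImplicit false

/-! Definitions: vanishing of iterated differences, binomial monomials. -/

namespace Pool.Agent.Lib.MP_35c333_an

/-- all `n`-fold differences vanish (degree `< n`). -/
def Vanish {Lam A : Type*} [AddCommGroup Lam] [AddCommGroup A] : ℕ → (Lam → A) → Prop
  | 0, f => ∀ v, f v = 0
  | n + 1, f => ∀ h, Vanish n (fun v => f (v + h) - f v)

/-- all `n`-fold (multiplicative) derivatives lie in `N`. -/
def DerIn {Lam H : Type*} [AddCommGroup Lam] [Group H] (N : Subgroup H) : ℕ → (Lam → H) → Prop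
  | 0, f => ∀ v, f v ∈ N
  | n + 1, f => ∀ h, DerIn N n (der h f)

/-- binomial monomial `∏ choose (v i) (α i)`. -/
noncomputable def Cb {D : ℕ} (α : Fin D → ℕ) (v : Fin D → ℤ) : ℤ := ∏ i, Ring.choose (v i) (α i)

end Pool.Agent.Lib.MP_35c333_an
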