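import Mathlib
import Pool.Agent.Lib.MP_35c333_an.TayDefs

set_option autoImplicit false

/-! Taylor expansion of polynomial maps `ℤ^D → A` into abelian groups, in binomial monomials. -/

namespace Pool.Agent.Lib.MP_35c333_an

section aux

variable {Lam Lam' A : Type*} [AddCommGroup Lam] [AddCommGroup Lam'] [AddCommGroup A]

theorem TayA_zero : ∀ (n : ℕ), Vanish n (fun _ : Lam => (0 : A))
  | 0 => fun _ => rfl
  | n + 1 => fun h => by simpa using TayA_zero n

theorem TayA_add : ∀ {n : ℕ} {f g : Lam → A}, Vanish n f → Vanish n g →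
    Vanish n (fun v => f v + g v)
  | 0, f, g, hf, hg => fun v => by
      show f v + g v = 0
      rw [hf v, hg v, add_zero]
  | n + 1, f, g, hf, hg => fun h => by
      have := TayA_add (hf h) (hg h)
      have e : (fun v => (f (v + h) + g (v + h)) - (f v + g v)) =
          (fun v => (f (v + h) - f v) + (g (v + h) - g v)) := by
        funext v; abel
      rw [e]; exact this

theorem TayA_neg : ∀ {n : ℕ} {f : Lam → A}, Vanish n f → Vanish n (fun v => - f v)
  | 0, f, hf => fun v => by
      show - f v = 0
      rw [hf v, neg_zero]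
  | n + 1, f, hf => fun h => by
      have := TayA_neg (hf h)
      have e : (fun v => (- f (v + h)) - (- f v)) = (fun v => - (f (v + h) - f v)) := by
        funext v; abel
      rw [e]; exact this

theorem TayA_succ : ∀ {n : ℕ} {f : Lam → A}, Vanish n f → Vanish (n + 1) f
  | 0, f, hf => fun h v => by simp [hf _]
  | n + 1, f, hf => fun h => TayA_succ (hf h)

theorem TayA_mono {n m : ℕ} {f : Lam → A} (hf : Vanish n f) (h : n ≤ m) : Vanish m f := by
  induction h with
  | refl => exact hf
  | step _ ih => exact TayA_succ ih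

theorem TayA_pull (φ : Lam' →+ Lam) (v0 : Lam) : ∀ {n : ℕ} {f : Lam → A}, Vanish n f →
    Vanish n (fun u => f (φ u + v0))
  | 0, f, hf => fun v => hf _
  | n + 1, f, hf => fun h => by
      have := TayA_pull φ v0 (hf (φ h))
      have e : (fun u => f (φ (u + h) + v0) - f (φ u + v0)) =
          (fun u => f (φ u + v0 + φ h) - f (φ u + v0)) := by
        funext u; congr 2; rw [map_add]; abel
      rw [e]; exact this

theorem TayA_shift {n : ℕ} {f : Lam → A} (v0 : Lam) (hf : Vanish n f) :
    Vanish n (fun u => f (u + v0)) := TayA_pull (AddMonoidHom.id Lam) v0 hf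

theorem TayA_mul : ∀ (n a b : ℕ) (f g : Lam → ℤ), Vanish a f → Vanish b g → a + b ≤ n + 1 →
    Vanish n (fun v => f v * g v) := by
  intro n
  induction n with
  | zero =>
    intro a b f g hf hg hab v
    rcases Nat.eq_zero_or_pos a with rfl | ha
    · have : f v = 0 := hf v
      simp [this]
    · have : b = 0 := by omega
      subst this
      have : g v = 0 := hg v
      simp [this]
  | succ n ih =>
    intro a b f g hf hg hab
    rcases Nat.eq_zero_or_pos a with rfl | ha
    · have : (fun v => f v * g v) = fun _ => 0 := by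
        funext v; have : f v = 0 := hf v
        simp [this]
      rw [this]; exact TayA_zero _
    rcases Nat.eq_zero_or_pos b with rfl | hb
    · have : (fun v => f v * g v) = fun _ => 0 := by
        funext v; have : g v = 0 := hg v
        simp [this]
      rw [this]; exact TayA_zero _
    obtain ⟨a, rfl⟩ : ∃ a', a = a' + 1 := ⟨a - 1, by omega⟩
    obtain ⟨b, rfl⟩ : ∃ b', b = b' + 1 := ⟨b - 1, by omega⟩
    intro h
    have e : (fun v => f (v + h) * g (v + h) - f v * g v) =
        (fun v => (f (v + h) - f v) * g (v + h) + f v * (g (v + h) - g v)) := by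
      funext v; ring
    show Vanish n (fun v => f (v + h) * g (v + h) - f v * g v)
    rw [e]
    refine TayA_add ?_ ?_
    · exact ih a (b + 1) _ _ (hf h) (TayA_shift h hg) (by omega)
    · exact ih (a + 1) b _ _ hf (hg h) (by omega)

/-- directions with a good derivative form a subgroup; it suffices to check `1` on `ℤ`. -/
theorem TayA_int {n : ℕ} {f : ℤ → A} (h1 : Vanish n (fun v => f (v + 1) - f v)) :
    Vanish (n + 1) f := by
  intro h
  induction h using Int.induction_on with
  | zero => simpa using TayA_zero n
  | succ i ih =>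
    have := TayA_add (TayA_shift (i : ℤ) h1) ih
    have e : (fun v => f (v + ((i : ℤ) + 1)) - f v) =
        (fun v => (f (v + i + 1) - f (v + i)) + (f (v + i) - f v)) := by
      funext v; rw [add_assoc v]; abel
    rw [e]; exact this
  | pred i ih =>
    have := TayA_add (TayA_neg (TayA_shift (-(i : ℤ) - 1) h1)) ih
    have e : (fun v => f (v + (-(i : ℤ) - 1)) - f v) =
        (fun v => -(f (v + (-(i : ℤ) - 1) + 1) - f (v + (-(i : ℤ) - 1))) + (f (v + -(i : ℤ)) - f v)) := by
      funext v
      have : v + (-(i : ℤ) - 1) + 1 = v + -(i : ℤ) := by ring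
      rw [this]; abel
    rw [e]; exact this

theorem TayA_choose : ∀ k : ℕ, Vanish (k + 1) (fun x : ℤ => Ring.choose x k)
  | 0 => fun h v => by simp
  | k + 1 => by
      apply TayA_int
      have e : (fun x : ℤ => Ring.choose (x + 1) (k + 1) - Ring.choose x (k + 1)) =
          fun x : ℤ => Ring.choose x k := by
        funext x; rw [Ring.choose_succ_succ]; ring
      rw [e]; exact TayA_choose k

end aux

theorem TayA_prod {D : ℕ} (α : Fin D → ℕ) (s : Finset (Fin D)) :
    Vanish (∑ i ∈ s, α i + 1) (fun v : Fin D → ℤ => ∏ i ∈ s, Ring.choose (v i) (α i)) := by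
  classical
  induction s using Finset.induction_on with
  | empty => intro h v; simp
  | insert i s his ih =>
    have h1 : Vanish (α i + 1) (fun v : Fin D → ℤ => Ring.choose (v i) (α i)) := by
      have := TayA_pull (Pi.evalAddMonoidHom (fun _ : Fin D => ℤ) i) 0 (TayA_choose (α i))
      simpa using this
    have h2 := TayA_mul (∑ j ∈ insert i s, α j + 1) _ _ _ _ h1 ih (by
      rw [Finset.sum_insert his]; omega)
    have e : (fun v : Fin D → ℤ => ∏ j ∈ insert i s, Ring.choose (v j) (α j)) =
        fun v => Ring.choose (v i) (α i) * ∏ j ∈ s, Ring.choose (v j) (α j) := by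
      funext v; rw [Finset.prod_insert his]
    rw [e]; exact h2

theorem vanish_Cb {D : ℕ} (α : Fin D → ℕ) : Vanish (∑ i, α i + 1) (Cb α) :=
  TayA_prod α Finset.univ

/-- iterated forward differences. -/
def TayA_D {Lam A : Type*} [AddCommGroup Lam] [AddCommGroup A] (e : Lam) : ℕ → (Lam → A) → (Lam → A)
  | 0, f => f
  | k + 1, f => TayA_D e k (fun v => f (v + e) - f v)

theorem TayA_D_vanish {Lam A : Type*} [AddCommGroup Lam] [AddCommGroup A] (e : Lam) :
    ∀ (k n : ℕ) (f : Lam → A), Vanish (n + k) f → Vanish n (TayA_D e k f)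
  | 0, _, _, h => h
  | k + 1, n, _, h => TayA_D_vanish e k n _ (h e)

theorem TayA_newton {A : Type*} [AddCommGroup A] : ∀ (n : ℕ) (f : ℤ → A), Vanish n f →
    ∀ x, f x = ∑ k ∈ Finset.range n, Ring.choose x k • TayA_D 1 k f 0 := by
  intro n
  induction n with
  | zero => intro f hf x; simpa using hf x
  | succ n ih =>
    intro f hf
    set p : ℤ → A := fun x => ∑ k ∈ Finset.range (n + 1), Ring.choose x k • TayA_D 1 k f 0 with hp
    have hstep : ∀ x, p (x + 1) - p x = f (x + 1) - f x := by
      intro x
      have h1 := ih _ (hf 1) x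
      rw [h1]
      simp only [hp]
      rw [← Finset.sum_sub_distrib, Finset.sum_range_succ']
      simp only [Ring.choose_zero_right, sub_self, add_zero]
      refine Finset.sum_congr rfl fun k _ => ?_
      rw [Ring.choose_succ_succ, ← sub_smul, add_sub_cancel_right]
      rfl
    have h0 : p 0 = f 0 := by
      simp only [hp]
      rw [Finset.sum_range_succ']
      simp [Ring.choose_zero_succ, TayA_D]
    intro x
    show f x = p x
    induction x using Int.induction_on with
    | zero => exact h0.symm
    | succ i ihx =>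
      have := hstep i
      rw [ihx] at this
      exact (sub_left_injective this).symm
    | pred i ihx =>
      have := hstep (-(i : ℤ) - 1)
      rw [sub_add_cancel, ihx] at this
      exact (sub_right_injective this).symm

theorem TayA_D_pull {Lam Lam' A : Type*} [AddCommGroup Lam] [AddCommGroup Lam'] [AddCommGroup A]
    (φ : Lam' →+ Lam) (v0 : Lam) (e : Lam') : ∀ (k : ℕ) (f : Lam → A) (x : Lam'),
    TayA_D e k (fun u => f (φ u + v0)) x = TayA_D (φ e) k f (φ x + v0)
  | 0, f, x => rfl
  | k + 1, f, x => by
      have h := TayA_D_pull φ v0 e k (fun v => f (v + φ e) - f v) x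
      show TayA_D e k (fun u => f (φ (u + e) + v0) - f (φ u + v0)) x = _
      have e1 : (fun u => f (φ (u + e) + v0) - f (φ u + v0)) =
          (fun u => f (φ u + v0 + φ e) - f (φ u + v0)) := by
        funext u; congr 2; rw [map_add]; abel
      rw [e1]; exact h

theorem TayA_taylor {A : Type*} [AddCommGroup A] : ∀ (D B n : ℕ) (f : (Fin D → ℤ) → A)
    (_ : Vanish n f) (_ : n ≤ B),
    ∃ a : (Fin D → Fin B) → A, (∀ α, n ≤ ∑ i, (α i : ℕ) → a α = 0) ∧
      ∀ v, f v = ∑ α, Cb (fun i => (α i : ℕ)) v • a α := by
  intro D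
  induction D with
  | zero =>
    intro B n f hf hn
    refine ⟨fun _ => f 0, ?_, ?_⟩
    · intro α hα
      have : n = 0 := by simpa using hα
      subst this
      exact hf 0
    · intro v
      have : v = 0 := Subsingleton.elim _ _
      subst this
      simp [Cb]
  | succ D ih =>
    intro B n f hf hn
    -- coefficients in the first coordinate
    let φ : (Fin D → ℤ) →+ (Fin (D + 1) → ℤ) :=
      { toFun := fun w => Fin.cons 0 w
        map_zero' := by
          funext i; refine Fin.cases ?_ (fun j => ?_) i <;> simp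
        map_add' := fun w w' => by
          funext i; refine Fin.cases ?_ (fun j => ?_) i <;> simp }
    let ψ : ℤ →+ (Fin (D + 1) → ℤ) :=
      { toFun := fun x => Fin.cons x 0
        map_zero' := by
          funext i; refine Fin.cases ?_ (fun j => ?_) i <;> simp
        map_add' := fun w w' => by
          funext i; refine Fin.cases ?_ (fun j => ?_) i <;> simp }
    have hdec : ∀ v : Fin (D + 1) → ℤ, ψ (v 0) + φ (fun j => v j.succ) = v := by
      intro v
      funext i; refine Fin.cases ?_ (fun j => ?_) i <;> simp [φ, ψ]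
    have hg : ∀ k : Fin B, ∃ a : (Fin D → Fin B) → A,
        (∀ α, n ≤ (k : ℕ) + ∑ i, (α i : ℕ) → a α = 0) ∧
        ((k : ℕ) < n → ∀ w, TayA_D (ψ 1) k f (φ w) = ∑ α, Cb (fun i => (α i : ℕ)) w • a α) := by
      intro k
      by_cases hk : (k : ℕ) < n
      · have h1 : Vanish (n - k) (TayA_D (ψ 1) (k : ℕ) f) :=
          TayA_D_vanish (ψ 1) k (n - k) f (by rwa [Nat.sub_add_cancel hk.le])
        have h2 : Vanish (n - k) (fun w => TayA_D (ψ 1) (k : ℕ) f (φ w + 0)) :=
          TayA_pull φ 0 h1
        obtain ⟨a, ha, hfa⟩ := ih B (n - k) _ h2 (by omega)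
        refine ⟨a, fun α hα => ha α (by omega), fun _ w => ?_⟩
        have := hfa w
        simpa using this
      · exact ⟨fun _ => 0, fun _ _ => rfl, fun h => absurd h hk⟩
    choose a ha hfa using hg
    refine ⟨fun α => a (α 0) (fun j => α j.succ), ?_, ?_⟩
    · intro α hα
      apply ha
      rw [Fin.sum_univ_succ] at hα
      exact hα
    · intro v
      set w : Fin D → ℤ := fun j => v j.succ with hw
      have h1 : Vanish n (fun x => f (ψ x + φ w)) := TayA_pull ψ (φ w) hf
      have h2 := TayA_newton n _ h1 (v 0)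
      rw [hdec v] at h2
      rw [h2]
      have h3 : ∀ k, TayA_D 1 k (fun x => f (ψ x + φ w)) 0 = TayA_D (ψ 1) k f (φ w) := by
        intro k
        rw [TayA_D_pull ψ (φ w) 1 k f 0]
        simp
      simp only [h3]
      -- split the sum over `α`
      have h4 : ∑ α : Fin (D + 1) → Fin B,
          Cb (fun i => (α i : ℕ)) v • a (α 0) (fun j => α j.succ) =
          ∑ k : Fin B, ∑ β : Fin D → Fin B, (Ring.choose (v 0) (k : ℕ) *
            Cb (fun i => (β i : ℕ)) w) • a k β := by
        rw [← Fintype.sum_prod_type']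
        refine Fintype.sum_equiv (Fin.consEquiv (fun _ : Fin (D + 1) => Fin B)).symm _ _ ?_
        intro α
        have e1 : Cb (fun i => (α i : ℕ)) v =
            Ring.choose (v 0) (α 0 : ℕ) * Cb (fun i => (α (Fin.succ i) : ℕ)) w := by
          unfold Cb
          rw [Fin.prod_univ_succ]
        rw [e1]
        rfl
      rw [h4]
      have h5 : ∀ k : Fin B, ∑ β : Fin D → Fin B, (Ring.choose (v 0) (k : ℕ) *
            Cb (fun i => (β i : ℕ)) w) • a k β =
          if (k : ℕ) < n then Ring.choose (v 0) (k : ℕ) • TayA_D (ψ 1) k f (φ w) else 0 := by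
        intro k
        split_ifs with hk
        · rw [hfa k hk w, Finset.smul_sum]
          refine Finset.sum_congr rfl fun β _ => ?_
          rw [mul_smul]
        · refine Finset.sum_eq_zero fun β _ => ?_
          rw [ha k β (by omega), smul_zero]
      simp only [h5]
      rw [Fin.sum_univ_eq_sum_range (fun k : ℕ => if k < n then
        Ring.choose (v 0) k • TayA_D (ψ 1) k f (φ w) else 0) B]
      rw [← Finset.sum_filter]
      congr 1
      ext k
      simp only [Finset.mem_range, Finset.mem_filter]
      omega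

theorem taylor {A : Type*} [AddCommGroup A] (D c : ℕ) (f : (Fin D → ℤ) → A)
    (hf : Vanish (c + 1) f) :
    ∃ a : (Fin D → Fin (c + 1)) → A, (∀ α, c < ∑ i, (α i : ℕ) → a α = 0) ∧
      ∀ v, f v = ∑ α, Cb (fun i => (α i : ℕ)) v • a α :=
  TayA_taylor D (c + 1) (c + 1) f hf le_rfl

end Pool.Agent.Lib.MP_35c333_an
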