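import Mathlib
import Pool.Agent.Lib.MP_35c333_an.TayDefs
import Pool.Agent.Lib.MP_35c333_an.TayA

set_option autoImplicit false

/-! Taylor expansion modulo a subgroup, and powers with polynomial exponents. -/

namespace Pool.Agent.Lib.MP_35c333_an

universe u

theorem IsPoly.derIn {Lam H : Type*} [AddCommGroup Lam] [Group H] {F : ℕ → Subgroup H} :
    ∀ {n k : ℕ} {f : Lam → H}, IsPoly F n k f → DerIn (F (k + n)) n f := by
  intro n
  induction n with
  | zero => intro k f h; exact h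
  | succ n ih =>
    intro k f h x
    have := ih (h.2 x)
    have e : k + (n + 1) = k + 1 + n := by omega
    rw [e]; exact this

theorem exists_comm_quot {H : Type u} [Group H] (K N : Subgroup H) (hNK : N ≤ K)
    (hcomm : ∀ x ∈ K, ∀ y ∈ K, x * y * x⁻¹ * y⁻¹ ∈ N) :
    ∃ (Q : Type u) (_ : CommGroup Q) (π : K →* Q), Function.Surjective π ∧
      ∀ x : K, π x = 1 ↔ (x : H) ∈ N := by
  have hn : (N.subgroupOf K).Normal := by
    refine ⟨fun n hn g => ?_⟩
    rw [Subgroup.mem_subgroupOf] at hn ⊢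
    have h1 := N.mul_mem (hcomm g g.2 n (hNK hn)) hn
    have e : ((g * n * g⁻¹ : K) : H) = (g : H) * n * (g : H)⁻¹ * (n : H)⁻¹ * n := by
      push_cast; group
    rw [e]; exact h1
  refine ⟨K ⧸ (N.subgroupOf K), { (inferInstance : Group (K ⧸ (N.subgroupOf K))) with
    mul_comm := ?_ }, QuotientGroup.mk' _, QuotientGroup.mk'_surjective _, ?_⟩
  · intro a b
    obtain ⟨x, rfl⟩ := QuotientGroup.mk_surjective a
    obtain ⟨y, rfl⟩ := QuotientGroup.mk_surjective b
    show ((x * y : K) : K ⧸ (N.subgroupOf K)) = ((y * x : K) : K ⧸ (N.subgroupOf K))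
    rw [QuotientGroup.eq, Subgroup.mem_subgroupOf]
    have h1 := hcomm (y⁻¹ : K) (y⁻¹ : K).2 (x⁻¹ : K) (x⁻¹ : K).2
    have e : (((x * y)⁻¹ * (y * x) : K) : H) =
        ((y⁻¹ : K) : H) * ((x⁻¹ : K) : H) * ((y⁻¹ : K) : H)⁻¹ * ((x⁻¹ : K) : H)⁻¹ := by
      push_cast; group
    rw [e]; exact h1
  · intro x
    show ((x : K) : K ⧸ (N.subgroupOf K)) = 1 ↔ _
    rw [QuotientGroup.eq_one_iff, Subgroup.mem_subgroupOf]

theorem TayB_vanish {Lam H : Type*} [AddCommGroup Lam] [Group H] (K N : Subgroup H) {Q : Type*}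
    [CommGroup Q] (π : K →* Q) (hπ : ∀ x : K, π x = 1 ↔ (x : H) ∈ N) :
    ∀ (n : ℕ) (f : Lam → H) (hfK : ∀ v, f v ∈ K), DerIn N n f →
      Vanish n (fun v => Additive.ofMul (π ⟨f v, hfK v⟩)) := by
  intro n
  induction n with
  | zero =>
    intro f hfK h v
    show Additive.ofMul (π ⟨f v, hfK v⟩) = 0
    rw [(hπ _).2 (h v)]; rfl
  | succ n ih =>
    intro f hfK h x
    have hK : ∀ v, der x f v ∈ K := fun v => K.mul_mem (hfK _) (K.inv_mem (hfK _))
    have h1 := ih (der x f) hK (h x)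
    have e : (fun v => Additive.ofMul (π ⟨f (v + x), hfK (v + x)⟩) -
        Additive.ofMul (π ⟨f v, hfK v⟩)) = fun v => Additive.ofMul (π ⟨der x f v, hK v⟩) := by
      funext v
      rw [← ofMul_div, ← map_div]
      congr 2
      ext
      simp [der, div_eq_mul_inv]
    show Vanish n (fun v => Additive.ofMul (π ⟨f (v + x), hfK (v + x)⟩) -
        Additive.ofMul (π ⟨f v, hfK v⟩))
    rw [e]; exact h1

theorem taylor_group {H : Type*} [Group H] (K N : Subgroup H) {Q : Type*} [CommGroup Q] (π : K →* Q)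
    (hπ : ∀ x : K, π x = 1 ↔ (x : H) ∈ N) (D c : ℕ) (f : (Fin D → ℤ) → H) (hfK : ∀ v, f v ∈ K)
    (hder : DerIn N (c + 1) f) :
    ∃ a : (Fin D → Fin (c + 1)) → Q, (∀ α, c < ∑ i, (α i : ℕ) → a α = 1) ∧
      ∀ v, π ⟨f v, hfK v⟩ = ∏ α, a α ^ (Cb (fun i => (α i : ℕ)) v) := by
  obtain ⟨a, ha, hf⟩ := taylor D c _ (TayB_vanish K N π hπ (c + 1) f hfK hder)
  refine ⟨fun α => Additive.toMul (a α), fun α hα => by
    show Additive.toMul (a α) = 1
    rw [ha α hα]; rfl, fun v => ?_⟩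
  have := congrArg Additive.toMul (hf v)
  rw [toMul_ofMul, toMul_sum] at this
  rw [this]
  refine Finset.prod_congr rfl fun α _ => ?_
  rw [toMul_zsmul]

/-- a power `c ^ w` with `c` in the `k`-th term and `w` of degree `≤ e ≤ k` is polynomial. -/
theorem isPoly_zpow_of_vanish {Lam H : Type*} [AddCommGroup Lam] [Group H] {F : ℕ → Subgroup H}
    (hF : IsFilt F) {k : ℕ} {c : H} (hc : c ∈ F k) :
    ∀ (n e : ℕ) (w : Lam → ℤ), Vanish (e + 1) w → e ≤ k → IsPoly F n (k - e) (fun v => c ^ w v) := by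
  intro n
  induction n with
  | zero =>
    intro e w _ _ v
    exact hF.le (Nat.sub_le k e) ((F k).zpow_mem hc _)
  | succ n ih =>
    intro e w hw he
    refine ⟨fun v => hF.le (Nat.sub_le k e) ((F k).zpow_mem hc _), fun h => ?_⟩
    have e1 : der h (fun v => c ^ w v) = fun v => c ^ (w (v + h) - w v) := by
      funext v
      simp only [der]
      rw [← zpow_neg, ← zpow_add, sub_eq_add_neg]
    rw [e1]
    rcases Nat.eq_zero_or_pos e with rfl | hpos
    · have e2 : (fun v => c ^ (w (v + h) - w v)) = 1 := by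
        funext v
        have : w (v + h) - w v = 0 := hw h v
        rw [this]; simp
      rw [e2]; exact IsPoly.one n _
    · obtain ⟨e', rfl⟩ : ∃ e', e = e' + 1 := ⟨e - 1, by omega⟩
      have h1 := ih e' _ (hw h) (by omega)
      have e3 : k - (e' + 1) + 1 = k - e' := by omega
      rw [e3]; exact h1

end Pool.Agent.Lib.MP_35c333_an
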