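import Mathlib
import Pool.Agent.Lib.MP_35c333_an.Index
import Pool.Agent.Lib.MP_35c333_an.Taylor

set_option autoImplicit false

/-! Extracting the weight one part of integer polynomials under the scalings `theta a`. -/

namespace Pool.Agent.Lib.MP_35c333_an

open Polynomial

/-- Vandermonde: an integer combination of the values extracting the coefficient of `X`. -/
theorem scalData_vandermonde (L : ℕ) : ∃ (V : ℤ) (b : ℕ → ℤ), V ≠ 0 ∧
    ∀ q : ℤ[X], q.natDegree ≤ L + 1 →
      ∑ a ∈ Finset.range (L + 1 + 1), b a * q.eval (a : ℤ) = V * q.coeff 1 := by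
  classical
  set M : Matrix (Fin (L + 1 + 1)) (Fin (L + 1 + 1)) ℤ :=
    Matrix.vandermonde (fun i => ((i : ℕ) : ℤ)) with hM
  have hdet : M.det ≠ 0 := by
    rw [hM, Matrix.det_vandermonde_ne_zero_iff]
    intro i j hij
    exact Fin.ext (by simpa using hij)
  refine ⟨M.det, fun a => if h : a < L + 1 + 1 then M.adjugate 1 ⟨a, h⟩ else 0, hdet, ?_⟩
  intro q hq
  rw [Finset.sum_range]
  have h1 : ∀ i : Fin (L + 1 + 1), (if h : (i : ℕ) < L + 1 + 1 then M.adjugate 1 ⟨i, h⟩ else 0)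
      = M.adjugate 1 i := by
    intro i
    rw [dif_pos i.isLt]
  simp only [h1]
  have h2 : ∀ i : Fin (L + 1 + 1), q.eval ((i : ℕ) : ℤ) =
      ∑ j : Fin (L + 1 + 1), M i j * q.coeff j := by
    intro i
    rw [Polynomial.eval_eq_sum_range' (Nat.lt_succ_of_le hq), Finset.sum_range]
    refine Finset.sum_congr rfl fun j _ => ?_
    rw [hM, Matrix.vandermonde_apply, mul_comm]
  simp only [h2, Finset.mul_sum]
  rw [Finset.sum_comm]
  have h3 : ∀ j : Fin (L + 1 + 1), ∑ i, M.adjugate 1 i * (M i j * q.coeff j)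
      = (if (1 : Fin (L + 1 + 1)) = j then M.det else 0) * q.coeff j := by
    intro j
    have := congrFun (congrFun (Matrix.adjugate_mul M) 1) j
    rw [Matrix.mul_apply, Matrix.smul_apply, Matrix.one_apply] at this
    simp only [← mul_assoc]
    rw [← Finset.sum_mul, this]
    simp
  simp only [h3, ite_mul, zero_mul]
  rw [Finset.sum_ite_eq]
  simp

theorem exists_rho_data (D : ℕ) : ∃ (V : ℤ) (L : ℕ) (b : ℕ → ℤ), V ≠ 0 ∧
    ∀ v : Fin (D + 1) → ℤ, ∑ a ∈ Finset.range (L + 1), b a * rho (a : ℤ) v = V * v 0 := by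
  obtain ⟨V, b, hV, hb⟩ := scalData_vandermonde D
  refine ⟨V, D + 1, b, hV, fun v => ?_⟩
  have h := hb (∑ i : Fin (D + 1), C (v i) * X ^ (i.val + 1)) (by
    refine Polynomial.natDegree_sum_le_of_forall_le _ _ fun i _ => ?_
    refine (Polynomial.natDegree_C_mul_X_pow_le _ _).trans ?_
    have := i.isLt
    omega)
  have hc : (∑ i : Fin (D + 1), C (v i) * X ^ (i.val + 1) : ℤ[X]).coeff 1 = v 0 := by
    simp only [Polynomial.finsetSum_coeff, Polynomial.coeff_C_mul, Polynomial.coeff_X_pow]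
    rw [Finset.sum_eq_single 0]
    · simp
    · intro j _ hj
      have : ¬ (1 = j.val + 1) := by
        intro e
        apply hj
        apply Fin.ext
        rw [Fin.val_zero]
        omega
      rw [if_neg this, mul_zero]
    · simp
  rw [hc] at h
  rw [← h]
  refine Finset.sum_congr rfl fun a _ => ?_
  congr 1
  simp [rho, Polynomial.eval_finsetSum]

/-- scalable functions. -/
def ScalDataScal {D : ℕ} (N : ℕ) (w : (Fin (D + 1) → ℤ) → ℤ) : Prop :=
  ∃ c0 m : ℤ, ∀ v : Fin (D + 1) → ℤ, ∃ q : ℤ[X], q.natDegree ≤ N ∧ q.coeff 0 = c0 ∧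
    q.coeff 1 = m * v 0 ∧ ∀ a : ℤ, w (theta a v) = q.eval a

theorem scalData_const {D : ℕ} (k : ℤ) : ScalDataScal (D := D) 0 (fun _ => k) :=
  ⟨k, 0, fun v => ⟨C k, by simp, by simp, by rw [Polynomial.coeff_C]; simp, by simp⟩⟩

theorem scalData_mul {D N₁ N₂ : ℕ} {w₁ w₂ : (Fin (D + 1) → ℤ) → ℤ}
    (h₁ : ScalDataScal N₁ w₁) (h₂ : ScalDataScal N₂ w₂) :
    ScalDataScal (N₁ + N₂) (fun v => w₁ v * w₂ v) := by
  obtain ⟨c₁, m₁, h₁⟩ := h₁
  obtain ⟨c₂, m₂, h₂⟩ := h₂
  refine ⟨c₁ * c₂, c₁ * m₂ + m₁ * c₂, fun v => ?_⟩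
  obtain ⟨q₁, hd₁, h0₁, h1₁, he₁⟩ := h₁ v
  obtain ⟨q₂, hd₂, h0₂, h1₂, he₂⟩ := h₂ v
  refine ⟨q₁ * q₂, (Polynomial.natDegree_mul_le).trans (by omega), ?_, ?_, ?_⟩
  · rw [Polynomial.mul_coeff_zero, h0₁, h0₂]
  · rw [Polynomial.mul_coeff_one, h0₁, h0₂, h1₁, h1₂]; ring
  · intro a
    rw [Polynomial.eval_mul, ← he₁, ← he₂]

theorem scalData_prod {D N : ℕ} {ι : Type*} (s : Finset ι) (w : ι → (Fin (D + 1) → ℤ) → ℤ)
    (h : ∀ i, ScalDataScal N (w i)) :
    ScalDataScal (s.card * N) (fun v => ∏ i ∈ s, w i v) := by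
  classical
  induction s using Finset.induction_on with
  | empty => simpa using scalData_const (D := D) 1
  | insert i s hi ih =>
    have := scalData_mul (h i) ih
    have e : (insert i s).card * N = N + s.card * N := by
      rw [Finset.card_insert_of_notMem hi]; ring
    rw [e]
    convert this using 2 with v
    rw [Finset.prod_insert hi]

theorem scalData_coord {D : ℕ} (p : ℤ[X]) (i : Fin (D + 1)) :
    ScalDataScal (p.natDegree * (D + 1)) (fun v => p.eval (v i)) := by
  refine ⟨p.coeff 0, if (i : ℕ) = 0 then p.coeff 1 else 0, fun v => ?_⟩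
  refine ⟨p.comp (C (v i) * X ^ (i.val + 1)), ?_, ?_, ?_, ?_⟩
  · refine (Polynomial.natDegree_comp_le).trans ?_
    refine Nat.mul_le_mul_left _ ((Polynomial.natDegree_C_mul_X_pow_le _ _).trans ?_)
    have := i.isLt
    omega
  · rw [Polynomial.coeff_zero_eq_eval_zero, Polynomial.eval_comp]
    simp [Polynomial.coeff_zero_eq_eval_zero]
  · by_cases hi : (i : ℕ) = 0
    · rw [if_pos hi]
      have hi0 : i = 0 := Fin.ext (by simpa using hi)
      subst hi0
      simp only [Fin.val_zero, zero_add, pow_one]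
      rw [Polynomial.comp_C_mul_X_coeff]
      simp
    · rw [if_neg hi, zero_mul]
      have h2 : (X : ℤ[X]) ^ 2 ∣ C (v i) * X ^ (i.val + 1) := by
        refine Dvd.dvd.mul_left (pow_dvd_pow _ (by omega)) _
      have h3 : (X : ℤ[X]) ^ 2 ∣ p.comp (C (v i) * X ^ (i.val + 1)) - C (p.coeff 0) := by
        have h4 : p = divX p * X + C (p.coeff 0) := (Polynomial.divX_mul_X_add p).symm
        have h5 : p.comp (C (v i) * X ^ (i.val + 1)) =
            (divX p).comp (C (v i) * X ^ (i.val + 1)) * (C (v i) * X ^ (i.val + 1)) +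
              C (p.coeff 0) := by
          conv_lhs => rw [h4]
          simp
        rw [h5, add_sub_cancel_right]
        exact Dvd.dvd.mul_left h2 _
      have h6 := (Polynomial.X_pow_dvd_iff.mp h3) 1 (by norm_num)
      rw [Polynomial.coeff_sub, Polynomial.coeff_C] at h6
      simpa using h6
  · intro a
    simp only [theta, Polynomial.eval_comp, Polynomial.eval_mul, Polynomial.eval_C,
      Polynomial.eval_pow, Polynomial.eval_X]
    congr 1
    ring

theorem scalData_choose (c k : ℕ) (hk : k ≤ c) (x : ℤ) :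
    (c.factorial : ℤ) * Ring.choose x k =
      (C ((c.factorial / k.factorial : ℕ) : ℤ) * descPochhammer ℤ k).eval x := by
  have h1 := Ring.descPochhammer_eq_factorial_smul_choose (R := ℤ) x k
  rw [Polynomial.eval_mul, Polynomial.eval_C]
  have h2 : (descPochhammer ℤ k).eval x = (k.factorial : ℤ) * Ring.choose x k := by
    rw [← nsmul_eq_mul, ← h1, Polynomial.eval_eq_smeval]
  rw [h2, ← mul_assoc]
  congr 1
  have h3 : c.factorial / k.factorial * k.factorial = c.factorial :=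
    Nat.div_mul_cancel (Nat.factorial_dvd_factorial hk)
  exact_mod_cast h3.symm

theorem exists_scal_data (D c : ℕ) : ∃ (M V : ℤ) (L : ℕ) (b : ℕ → ℤ), M ≠ 0 ∧ V ≠ 0 ∧
    (∑ a ∈ Finset.range (L + 1), b a * (a : ℤ) = V) ∧
    ∀ α : Fin (D + 1) → Fin (c + 1), ∃ m : ℤ, ∀ v : Fin (D + 1) → ℤ,
      ∑ a ∈ Finset.range (L + 1), b a * (M * Cb (fun i => (α i : ℕ)) (theta (a : ℤ) v)) =
        V * m * v 0 := by
  obtain ⟨V, b, hV, hb⟩ := scalData_vandermonde ((D + 1) * (c * (D + 1)))
  refine ⟨(c.factorial : ℤ) ^ (D + 1), V, (D + 1) * (c * (D + 1)) + 1, b, ?_, hV, ?_, ?_⟩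
  · exact pow_ne_zero _ (by exact_mod_cast c.factorial_ne_zero)
  · have h := hb X (by rw [Polynomial.natDegree_X]; omega)
    simpa using h
  · intro α
    have hs : ScalDataScal ((Finset.univ : Finset (Fin (D + 1))).card * (c * (D + 1)))
        (fun v : Fin (D + 1) → ℤ => ∏ i ∈ Finset.univ,
          (C ((c.factorial / (α i : ℕ).factorial : ℕ) : ℤ) *
            descPochhammer ℤ (α i : ℕ)).eval (v i)) := by
      refine scalData_prod _ (fun i v => (C ((c.factorial / (α i : ℕ).factorial : ℕ) : ℤ) *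
            descPochhammer ℤ (α i : ℕ)).eval (v i)) fun i => ?_
      obtain ⟨c0, m, h⟩ := scalData_coord (C ((c.factorial / (α i : ℕ).factorial : ℕ) : ℤ) *
            descPochhammer ℤ (α i : ℕ)) i
      refine ⟨c0, m, fun v => ?_⟩
      obtain ⟨q, hq, h'⟩ := h v
      refine ⟨q, hq.trans ?_, h'⟩
      refine Nat.mul_le_mul_right _ ?_
      refine (Polynomial.natDegree_C_mul_le _ _).trans ?_
      rw [descPochhammer_natDegree]
      have := (α i).isLt
      omega
    obtain ⟨c0, m, h⟩ := hs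
    refine ⟨m, fun v => ?_⟩
    obtain ⟨q, hq, h0, h1, he⟩ := h v
    have hq' : q.natDegree ≤ (D + 1) * (c * (D + 1)) + 1 := by
      rw [Finset.card_univ, Fintype.card_fin] at hq
      omega
    have h2 := hb q hq'
    rw [h1] at h2
    rw [mul_assoc V m, ← h2]
    refine Finset.sum_congr rfl fun a _ => ?_
    congr 1
    rw [← he (a : ℤ)]
    simp only [Cb]
    have h3 : (c.factorial : ℤ) ^ (D + 1) = ∏ _i : Fin (D + 1), (c.factorial : ℤ) := by
      simp
    rw [h3, ← Finset.prod_mul_distrib]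
    refine Finset.prod_congr rfl fun i _ => ?_
    exact scalData_choose c _ (by have := (α i).isLt; omega) _

end Pool.Agent.Lib.MP_35c333_an
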