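import Mathlib
import Pool.Agent.Lib.MP_35c333_an.PG
import Pool.Agent.Lib.MP_35c333_an.Taylor
import Pool.Agent.Lib.MP_35c333_an.ScalData

set_option autoImplicit false

/-! Algebra of characters of the subgroup generated by `T` and `R`. -/

namespace Pool.Agent.Lib.MP_35c333_an

open Topology Filter
open scoped commutatorElement

section Gen

variable {H : Type*} [Group H] (D : ℕ) (P : Subgroup H) (γ : H)

/-- generators of the acting group -/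
def HhGen : Set (PG D H) :=
  {x | (∃ c ∈ P, x = PG.T D c) ∨ x = PG.T D γ ∨ ∃ b, b * γ⁻¹ ∈ P ∧ x = PG.R D b}

/-- the acting group -/
def HhS : Subgroup (PG D H) := Subgroup.closure (HhGen D P γ)

variable {D P γ}

theorem FS.T_mem (hPγ : P ⊔ Subgroup.zpowers γ = ⊤) (c : H) : PG.T D c ∈ HhS D P γ := by
  have h : (⊤ : Subgroup H) ≤ (HhS D P γ).comap (PG.THom D H) := by
    rw [← hPγ]
    refine sup_le ?_ ?_
    · intro c hc
      exact Subgroup.subset_closure (Or.inl ⟨c, hc, rfl⟩)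
    · rw [Subgroup.zpowers_le]
      exact Subgroup.subset_closure (Or.inr (Or.inl rfl))
  exact h (Subgroup.mem_top c)

theorem FS.Tc_mem {c : H} (hc : c ∈ P) : PG.T D c ∈ HhS D P γ :=
  Subgroup.subset_closure (Or.inl ⟨c, hc, rfl⟩)

theorem FS.Tγ_mem : PG.T D γ ∈ HhS D P γ :=
  Subgroup.subset_closure (Or.inr (Or.inl rfl))

theorem FS.R_mem {b : H} (hb : b * γ⁻¹ ∈ P) : PG.R D b ∈ HhS D P γ :=
  Subgroup.subset_closure (Or.inr (Or.inr ⟨b, hb, rfl⟩))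

theorem FS.R_mem' (h : P) : PG.R D ((h : H) * γ) ∈ HhS D P γ :=
  FS.R_mem (by rw [mul_assoc, mul_inv_cancel, mul_one]; exact h.2)

theorem FS.Rγ_mem : PG.R D γ ∈ HhS D P γ :=
  FS.R_mem (by rw [mul_inv_cancel]; exact P.one_mem)

theorem FS.Th_mem {x : PG D H} (hx : x ∈ HhS D P γ) (a : ℤ) : PG.Th a x ∈ HhS D P γ := by
  have h : HhS D P γ ≤ (HhS D P γ).comap (PG.Th a) := by
    refine (Subgroup.closure_le _).2 ?_
    rintro x (⟨c, hc, rfl⟩ | rfl | ⟨b, hb, rfl⟩)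
    · rw [SetLike.mem_coe, Subgroup.mem_comap, PG.Th_T]
      exact Subgroup.subset_closure (Or.inl ⟨c, hc, rfl⟩)
    · rw [SetLike.mem_coe, Subgroup.mem_comap, PG.Th_T]
      exact Subgroup.subset_closure (Or.inr (Or.inl rfl))
    · rw [SetLike.mem_coe, Subgroup.mem_comap, PG.Th_R]
      exact Subgroup.zpow_mem _ (FS.R_mem hb) a
  exact h hx

theorem FS.lam_Th (lam : HhS D P γ →* Circle)
    (hT : ∀ c (hc : PG.T D c ∈ HhS D P γ), lam ⟨PG.T D c, hc⟩ = 1) (a : ℤ) {x : PG D H}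
    (hx : x ∈ HhS D P γ) : lam ⟨PG.Th a x, FS.Th_mem hx a⟩ = lam ⟨x, hx⟩ ^ a := by
  induction hx using Subgroup.closure_induction with
  | mem x hx =>
    rcases hx with (⟨c, hc, rfl⟩ | rfl | ⟨b, hb, rfl⟩)
    · have h1 : (⟨PG.Th a (PG.T D c), FS.Th_mem (FS.Tc_mem hc) a⟩ :
          HhS D P γ) = ⟨PG.T D c, FS.Tc_mem hc⟩ :=
        Subtype.ext (PG.Th_T a c)
      refine (congrArg lam h1).trans ?_
      rw [hT c (FS.Tc_mem hc)]
      exact (one_zpow a).symm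
    · have h1 : (⟨PG.Th a (PG.T D γ), FS.Th_mem FS.Tγ_mem a⟩ :
          HhS D P γ) = ⟨PG.T D γ, FS.Tγ_mem⟩ :=
        Subtype.ext (PG.Th_T a γ)
      refine (congrArg lam h1).trans ?_
      rw [hT γ FS.Tγ_mem]
      exact (one_zpow a).symm
    · have h1 : (⟨PG.Th a (PG.R D b), FS.Th_mem (FS.R_mem hb) a⟩ :
          HhS D P γ) = ⟨PG.R D b, FS.R_mem hb⟩ ^ a :=
        Subtype.ext (by rw [Subgroup.coe_zpow]; exact PG.Th_R a b)
      rw [h1, map_zpow]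
  | one =>
    have h1 : (⟨PG.Th a 1, FS.Th_mem (Subgroup.one_mem _) a⟩ : HhS D P γ) = 1 :=
      Subtype.ext (map_one (PG.Th a))
    have h2 : (⟨1, Subgroup.one_mem _⟩ : HhS D P γ) = 1 := rfl
    rw [h1, h2, map_one, one_zpow]
  | mul x y hx hy ihx ihy =>
    have h1 : (⟨PG.Th a (x * y), FS.Th_mem (Subgroup.mul_mem _ hx hy) a⟩ : HhS D P γ) =
        ⟨PG.Th a x, FS.Th_mem hx a⟩ * ⟨PG.Th a y, FS.Th_mem hy a⟩ :=
      Subtype.ext (map_mul (PG.Th a) x y)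
    have h2 : (⟨x * y, Subgroup.mul_mem _ hx hy⟩ : HhS D P γ) = ⟨x, hx⟩ * ⟨y, hy⟩ := rfl
    rw [h1, h2, map_mul, map_mul, ihx, ihy, mul_zpow]
  | inv x hx ihx =>
    have h1 : (⟨PG.Th a (x⁻¹), FS.Th_mem (Subgroup.inv_mem _ hx) a⟩ : HhS D P γ) =
        (⟨PG.Th a x, FS.Th_mem hx a⟩)⁻¹ :=
      Subtype.ext (map_inv (PG.Th a) x)
    have h2 : (⟨x⁻¹, Subgroup.inv_mem _ hx⟩ : HhS D P γ) = (⟨x, hx⟩)⁻¹ := rfl
    rw [h1, h2, map_inv, map_inv, ihx, inv_zpow]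

end Gen


section CommHom

variable {H : Type*} [Group H]

/-- quotient map -/
def FS.q (j : ℕ) : H →* H ⧸ lcsF H j := QuotientGroup.mk' (lcsF H j)

theorem FS.q_eq_one {j : ℕ} {x : H} : FS.q j x = 1 ↔ x ∈ lcsF H j := QuotientGroup.eq_one_iff x

theorem FS.q_eq_iff {j : ℕ} {x y : H} : FS.q j x = FS.q j y ↔ x * y⁻¹ ∈ lcsF H j := by
  rw [← FS.q_eq_one, map_mul, map_inv, mul_inv_eq_one]

theorem FS.comm_mem (i j : ℕ) {x y : H} (hx : x ∈ lcsF H i) (hy : y ∈ lcsF H j) :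
    ⁅x, y⁆ ∈ lcsF H (i + j) := by
  rw [commutatorElement_def]
  exact isFilt_lcsF.comm i j x hx y hy

theorem FS.mem_one (x : H) : x ∈ lcsF H 1 := by rw [lcsF_one]; trivial

theorem FS.q_comm {j : ℕ} {x : H} (hx : x ∈ lcsF H j) (y : H) :
    Commute (FS.q (j + 1) x) (FS.q (j + 1) y) := by
  have h1 := FS.comm_mem j 1 hx (FS.mem_one y)
  rw [← FS.q_eq_one, commutatorElement_def, map_mul, map_mul, map_mul, map_inv, map_inv] at h1
  rw [commute_iff_eq]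
  have h2 := mul_inv_eq_one.1 h1
  exact mul_inv_eq_iff_eq_mul.1 h2

theorem FS.comm_mul {j : ℕ} (hj : 1 ≤ j) {y y' : H} (hy : y ∈ lcsF H j) (hy' : y' ∈ lcsF H j) (h : H) :
    FS.q (j + 2) ⁅y * y', h⁆ = FS.q (j + 2) ⁅y, h⁆ * FS.q (j + 2) ⁅y', h⁆ := by
  have e : ⁅y * y', h⁆ = ⁅y, ⁅y', h⁆⁆ * ⁅y', h⁆ * ⁅y, h⁆ := by
    simp only [commutatorElement_def]; group
  have m1 : ⁅y', h⁆ ∈ lcsF H (j + 1) := FS.comm_mem j 1 hy' (FS.mem_one h)
  have m2 : ⁅y, ⁅y', h⁆⁆ ∈ lcsF H (j + 2) :=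
    isFilt_lcsF.le (by omega) (FS.comm_mem j (j + 1) hy m1)
  rw [e, map_mul, map_mul, FS.q_eq_one.2 m2, one_mul]
  exact FS.q_comm m1 _

/-- commutation with `h` as a homomorphism modulo the next term. -/
def FS.cH {j : ℕ} (hj : 1 ≤ j) (h : H) : lcsF H j →* H ⧸ lcsF H (j + 2) where
  toFun y := FS.q (j + 2) ⁅(y : H), h⁆
  map_one' := by simp
  map_mul' y y' := FS.comm_mul hj y.2 y'.2 h

theorem FS.comm_zpow {j : ℕ} (hj : 1 ≤ j) {y : H} (hy : y ∈ lcsF H j) (h : H) (m : ℤ) :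
    FS.q (j + 2) ⁅y ^ m, h⁆ = FS.q (j + 2) ⁅y, h⁆ ^ m :=
  map_zpow (FS.cH hj h) ⟨y, hy⟩ m

theorem FS.comm_congr {j : ℕ} (hj : 1 ≤ j) {x y : H} (hy : y ∈ lcsF H j)
    (hxy : FS.q (j + 1) x = FS.q (j + 1) y) (h : H) :
    FS.q (j + 2) ⁅x, h⁆ = FS.q (j + 2) ⁅y, h⁆ := by
  rw [FS.q_eq_iff] at hxy
  have hz : x * y⁻¹ ∈ lcsF H j := isFilt_lcsF.anti j hxy
  have e : x = (x * y⁻¹) * y := by group
  rw [e, FS.comm_mul hj hz hy, FS.q_eq_one.2 (FS.comm_mem (j + 1) 1 hxy (FS.mem_one h)), one_mul]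

end CommHom

section Good

variable {H : Type*} [Group H] {D : ℕ} {P : Subgroup H} {γ : H}

theorem FS.zpow_f {z : PG D H} (hzn : z.n = 0) (m : ℤ) : (z ^ m).n = 0 ∧ ∀ v, (z ^ m).f v = z.f v ^ m := by
  have h0 : (z ^ m).n = 0 := by rw [PG.zpow_n, hzn, mul_zero]
  refine ⟨h0, fun v => ?_⟩
  induction m using Int.induction_on with
  | zero => simp
  | succ m ih =>
    have h1 : (z ^ (m : ℤ)).n = 0 := by rw [PG.zpow_n, hzn, mul_zero]
    rw [zpow_add_one, PG.mul_f, h1, sig_zero, ih h1, zpow_add_one]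
  | pred m ih =>
    have h1 : (z ^ (-(m : ℤ))).n = 0 := by rw [PG.zpow_n, hzn, mul_zero]
    rw [zpow_sub_one, PG.mul_f, h1, sig_zero, ih h1, PG.inv_f, hzn, neg_zero, sig_zero,
      zpow_sub_one]

/-- commutator step -/
theorem FS.commstep (hPγ : P ⊔ Subgroup.zpowers γ = ⊤) (lam : HhS (D + 1) P γ →* Circle) (V : ℤ)
    {j : ℕ} (hj : 1 ≤ j) {y : H} (hy : y ∈ lcsF H j) (x : HhS (D + 1) P γ)
    (hx0 : (x : PG (D + 1) H).n = 0)
    (hx : ∀ v, FS.q (j + 1) ((x : PG (D + 1) H).f v) = FS.q (j + 1) y ^ (V * v 0)) (h : H) :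
    ∃ x' : HhS (D + 1) P γ, (x' : PG (D + 1) H).n = 0 ∧ lam x' = 1 ∧
      ∀ v, FS.q (j + 2) ((x' : PG (D + 1) H).f v) = FS.q (j + 2) ⁅y, h⁆ ^ (V * v 0) := by
  refine ⟨x * ⟨PG.T _ h, FS.T_mem hPγ h⟩ * x⁻¹ * (⟨PG.T _ h, FS.T_mem hPγ h⟩)⁻¹, ?_, ?_, ?_⟩
  · simp [hx0]
  · simp only [map_mul, map_inv]
    rw [mul_comm (lam x), mul_assoc (lam _), mul_inv_cancel, mul_one, mul_inv_cancel]
  · intro v
    have e : ((x * ⟨PG.T _ h, FS.T_mem hPγ h⟩ * x⁻¹ * (⟨PG.T _ h, FS.T_mem hPγ h⟩)⁻¹ :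
        HhS (D + 1) P γ) : PG (D + 1) H).f v = ⁅(x : PG (D + 1) H).f v, h⁆ := by
      simp [hx0, sig_zero, commutatorElement_def]
    rw [e, ← FS.comm_zpow hj hy]
    refine FS.comm_congr hj (Subgroup.zpow_mem _ hy _) ?_ h
    rw [hx v, map_zpow]

/-- level one elements -/
theorem FS.good1 {V : ℤ} {L : ℕ} {b : ℕ → ℤ}
    (hb : ∀ v : Fin (D + 1) → ℤ, ∑ a ∈ Finset.range L, b a * rho (a : ℤ) v = V * v 0)
    {y : H} (hy : y ∈ P) :
    ∃ x : HhS (D + 1) P γ, (x : PG (D + 1) H).n = 0 ∧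
      ∀ v, FS.q 2 ((x : PG (D + 1) H).f v) = FS.q 2 y ^ (V * v 0) := by
  have hR1 : PG.R (D + 1) (y * γ) ∈ HhS (D + 1) P γ :=
    FS.R_mem (by rw [mul_assoc, mul_inv_cancel, mul_one]; exact hy)
  have hR2 : PG.R (D + 1) γ ∈ HhS (D + 1) P γ := FS.Rγ_mem
  have key : ∀ M : ℕ, ∃ x : HhS (D + 1) P γ, (x : PG (D + 1) H).n = 0 ∧
      ∀ v, FS.q 2 ((x : PG (D + 1) H).f v) =
        FS.q 2 y ^ (∑ a ∈ Finset.range M, b a * rho (a : ℤ) v) := by
    intro M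
    induction M with
    | zero => exact ⟨1, rfl, fun v => by simp⟩
    | succ M ih =>
      obtain ⟨x, hx0, hx⟩ := ih
      set z : PG (D + 1) H := PG.R (D + 1) (y * γ) ^ (M : ℤ) * (PG.R (D + 1) γ ^ (M : ℤ))⁻¹ with hz
      have hzm : z ∈ HhS (D + 1) P γ :=
        Subgroup.mul_mem _ (Subgroup.zpow_mem _ hR1 _) (Subgroup.inv_mem _ (Subgroup.zpow_mem _ hR2 _))
      have hzn : z.n = 0 := by
        rw [hz, PG.mul_n, PG.inv_n, (PG.R_zpow _ _).1, (PG.R_zpow _ _).1]; ring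
      have hzf : ∀ v, z.f v = (y * γ) ^ rho (M : ℤ) v * (γ ^ rho (M : ℤ) v)⁻¹ := by
        intro v
        rw [hz, PG.mul_f, PG.inv_f, (PG.R_zpow _ _).1, (PG.R_zpow _ _).1, (PG.R_zpow _ _).2,
          (PG.R_zpow _ _).2, sig_sig]
        simp [sig_zero]
      have hcomm : ∀ a c : H, Commute (FS.q 2 a) (FS.q 2 c) := fun a c =>
        FS.q_comm (j := 1) (FS.mem_one a) c
      have hzq : ∀ v, FS.q 2 (z.f v) = FS.q 2 y ^ rho (M : ℤ) v := by
        intro v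
        rw [hzf, map_mul, map_inv, map_zpow, map_zpow, map_mul, (hcomm y γ).mul_zpow,
          mul_inv_cancel_right]
      have hzpow := FS.zpow_f hzn
      refine ⟨x * ⟨z, hzm⟩ ^ (b M), ?_, fun v => ?_⟩
      · rw [Subgroup.coe_mul, PG.mul_n, hx0, Subgroup.coe_zpow, (hzpow (b M)).1, add_zero]
      · rw [Subgroup.coe_mul, PG.mul_f, hx0, sig_zero, map_mul, hx v, Subgroup.coe_zpow,
          (hzpow (b M)).2 v, map_zpow, hzq, Finset.sum_range_succ, zpow_add, ← zpow_mul,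
          mul_comm (b M)]
  obtain ⟨x, hx0, hx⟩ := key L
  exact ⟨x, hx0, fun v => by rw [hx v, hb v]⟩

/-- `y` is realised by an element with trivial character value. -/
def FS.Good (lam : HhS (D + 1) P γ →* Circle) (V : ℤ) (j : ℕ) (y : H) : Prop :=
  ∃ x : HhS (D + 1) P γ, (x : PG (D + 1) H).n = 0 ∧ lam x = 1 ∧
    ∀ v, FS.q (j + 1) ((x : PG (D + 1) H).f v) = FS.q (j + 1) y ^ (V * v 0)

variable {lam : HhS (D + 1) P γ →* Circle} {V : ℤ}

theorem FS.Good.congr {j : ℕ} {y y' : H} (h : FS.Good lam V j y) (hq : FS.q (j + 1) y' = FS.q (j + 1) y) :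
    FS.Good lam V j y' := by
  obtain ⟨x, h0, h1, h2⟩ := h
  exact ⟨x, h0, h1, fun v => by rw [h2 v, hq]⟩

theorem FS.Good.one (j : ℕ) : FS.Good lam V j 1 := ⟨1, rfl, map_one lam, fun v => by simp⟩

theorem FS.Good.mul {j : ℕ} {y y' : H} (hy : y ∈ lcsF H j) (h : FS.Good lam V j y)
    (h' : FS.Good lam V j y') : FS.Good lam V j (y * y') := by
  obtain ⟨x, h0, h1, h2⟩ := h
  obtain ⟨x', h0', h1', h2'⟩ := h'
  refine ⟨x * x', by rw [Subgroup.coe_mul, PG.mul_n, h0, h0', add_zero], by rw [map_mul, h1, h1', mul_one],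
    fun v => ?_⟩
  rw [Subgroup.coe_mul, PG.mul_f, h0, sig_zero, map_mul, h2 v, h2' v, map_mul, (FS.q_comm hy y').mul_zpow]

theorem FS.Good.inv {j : ℕ} {y : H} (h : FS.Good lam V j y) : FS.Good lam V j y⁻¹ := by
  obtain ⟨x, h0, h1, h2⟩ := h
  refine ⟨x⁻¹, by rw [Subgroup.coe_inv, PG.inv_n, h0, neg_zero], by rw [map_inv, h1, inv_one],
    fun v => ?_⟩
  rw [Subgroup.coe_inv, PG.inv_f, h0, neg_zero, sig_zero, map_inv, h2 v, map_inv, inv_zpow]

/-- the subgroup of good elements -/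
def FS.goodSub (lam : HhS (D + 1) P γ →* Circle) (V : ℤ) (j : ℕ) : Subgroup H where
  carrier := {y | y ∈ lcsF H j ∧ FS.Good lam V j y}
  mul_mem' := fun hx hy => ⟨Subgroup.mul_mem _ hx.1 hy.1, hx.2.mul hx.1 hy.2⟩
  one_mem' := ⟨Subgroup.one_mem _, FS.Good.one j⟩
  inv_mem' := fun hx => ⟨Subgroup.inv_mem _ hx.1, hx.2.inv⟩

/-- elements `y` whose commutator with `h` is good. -/
def FS.goodComm (lam : HhS (D + 1) P γ →* Circle) (V : ℤ) (h : H) : Subgroup H where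
  carrier := {y | FS.Good lam V 2 ⁅y, h⁆}
  mul_mem' := fun {x y} hx hy => by
    have h1 : FS.Good lam V 2 (⁅x, h⁆ * ⁅y, h⁆) :=
      FS.Good.mul (FS.comm_mem 1 1 (FS.mem_one x) (FS.mem_one h)) hx hy
    refine h1.congr ?_
    rw [map_mul]
    exact FS.comm_mul (j := 1) le_rfl (FS.mem_one x) (FS.mem_one y) h
  one_mem' := by
    show FS.Good lam V 2 ⁅(1 : H), h⁆
    rw [commutatorElement_one_left]; exact FS.Good.one 2
  inv_mem' := fun {x} hx => by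
    have h1 : FS.Good lam V 2 (⁅x, h⁆⁻¹) := FS.Good.inv hx
    refine h1.congr ?_
    have := FS.comm_zpow (j := 1) le_rfl (FS.mem_one x) h (-1)
    rw [zpow_neg_one, zpow_neg_one] at this
    rw [map_inv]; exact this

theorem FS.goodComm_top (hPγ : P ⊔ Subgroup.zpowers γ = ⊤)
    (hP1 : ∀ y ∈ P, ∃ x : HhS (D + 1) P γ, (x : PG (D + 1) H).n = 0 ∧
      ∀ v, FS.q 2 ((x : PG (D + 1) H).f v) = FS.q 2 y ^ (V * v 0)) (h : H) :
    FS.goodComm lam V h = ⊤ := by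
  have hP : ∀ h : H, P ≤ FS.goodComm lam V h := by
    intro h y hy
    obtain ⟨x, hx0, hx⟩ := hP1 y hy
    exact FS.commstep hPγ lam V (j := 1) le_rfl (FS.mem_one y) x hx0 hx h
  have hγ : FS.goodComm lam V γ = ⊤ := by
    rw [eq_top_iff, ← hPγ]
    refine sup_le (hP γ) ?_
    rw [Subgroup.zpowers_le]
    show FS.Good lam V 2 ⁅γ, γ⁆
    rw [commutatorElement_self]; exact FS.Good.one 2
  rw [eq_top_iff, ← hPγ]
  refine sup_le (hP h) ?_
  rw [Subgroup.zpowers_le]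
  show FS.Good lam V 2 ⁅γ, h⁆
  have h1 : h ∈ FS.goodComm lam V γ := by rw [hγ]; trivial
  have h2 : FS.Good lam V 2 (⁅h, γ⁆⁻¹) := FS.Good.inv h1
  rwa [commutatorElement_inv] at h2

theorem FS.good_all (hPγ : P ⊔ Subgroup.zpowers γ = ⊤)
    (hP1 : ∀ y ∈ P, ∃ x : HhS (D + 1) P γ, (x : PG (D + 1) H).n = 0 ∧
      ∀ v, FS.q 2 ((x : PG (D + 1) H).f v) = FS.q 2 y ^ (V * v 0)) {j : ℕ} (hj : 2 ≤ j) :
    lcsF H j ≤ FS.goodSub lam V j := by
  induction j, hj using Nat.le_induction with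
  | base =>
    rw [lcsF_succ 1 le_rfl, Subgroup.commutator_le]
    intro y hy h _
    refine ⟨FS.comm_mem 1 1 hy (FS.mem_one h), ?_⟩
    have : y ∈ FS.goodComm lam V h := by rw [FS.goodComm_top hPγ hP1 h]; trivial
    exact this
  | succ j hj ih =>
    rw [lcsF_succ j (by omega), Subgroup.commutator_le]
    intro y hy h _
    refine ⟨FS.comm_mem j 1 hy (FS.mem_one h), ?_⟩
    obtain ⟨x, hx0, -, hx⟩ := (ih hy).2
    exact FS.commstep hPγ lam V (by omega) hy x hx0 hx h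

end Good

section Torsion

theorem FS.prod_zpow_exp {Q ι : Type*} [CommGroup Q] (x : Q) (s : Finset ι) (w : ι → ℤ) :
    ∏ a ∈ s, x ^ w a = x ^ ∑ a ∈ s, w a := by
  classical
  induction s using Finset.induction_on with
  | empty => simp
  | insert a s ha ih => rw [Finset.prod_insert ha, Finset.sum_insert ha, zpow_add, ih]

variable {H : Type*} [Group H] {D : ℕ} {P : Subgroup H} {γ : H}

/-- products of scaled copies -/
theorem FS.scaled (lam : HhS (D + 1) P γ →* Circle)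
    (hT : ∀ c (hc : PG.T (D + 1) c ∈ HhS (D + 1) P γ), lam ⟨PG.T (D + 1) c, hc⟩ = 1)
    {j : ℕ} {Q : Type*} [CommGroup Q] (π : lcsF H j →* Q) (x0 : HhS (D + 1) P γ)
    (h0 : (x0 : PG (D + 1) H).n = 0) (hj : ∀ v, (x0 : PG (D + 1) H).f v ∈ lcsF H j) (w : ℕ → ℤ) (L : ℕ) :
    ∃ x : HhS (D + 1) P γ, (x : PG (D + 1) H).n = 0 ∧
      lam x = lam x0 ^ (∑ a ∈ Finset.range L, w a * (a : ℤ)) ∧
      ∃ hx : ∀ v, (x : PG (D + 1) H).f v ∈ lcsF H j,
        ∀ v, π ⟨_, hx v⟩ = ∏ a ∈ Finset.range L, π ⟨_, hj (theta (a : ℤ) v)⟩ ^ w a := by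
  induction L with
  | zero => exact ⟨1, rfl, by simp, fun v => Subgroup.one_mem _, fun v => by
      simp only [Finset.range_zero, Finset.prod_empty]
      exact map_one π⟩
  | succ L ih =>
    obtain ⟨x, hx0, hlam, hx, hπ⟩ := ih
    set z : HhS (D + 1) P γ := ⟨PG.Th (L : ℤ) (x0 : PG (D + 1) H), FS.Th_mem x0.2 _⟩ with hz
    have hzn : (z : PG (D + 1) H).n = 0 := by
      rw [hz]; simp [h0]
    have hzf : ∀ v, (z : PG (D + 1) H).f v = (x0 : PG (D + 1) H).f (theta (L : ℤ) v) := fun v => rfl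
    have hzp := FS.zpow_f hzn (w L)
    have hf : ∀ v, ((x * z ^ w L : HhS (D + 1) P γ) : PG (D + 1) H).f v =
        (x : PG (D + 1) H).f v * (x0 : PG (D + 1) H).f (theta (L : ℤ) v) ^ w L := by
      intro v
      rw [Subgroup.coe_mul, PG.mul_f, hx0, sig_zero, Subgroup.coe_zpow, hzp.2 v, hzf]
    have hmem : ∀ v, ((x * z ^ w L : HhS (D + 1) P γ) : PG (D + 1) H).f v ∈ lcsF H j := by
      intro v
      rw [hf v]
      exact Subgroup.mul_mem _ (hx v) (Subgroup.zpow_mem _ (hj _) _)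
    refine ⟨x * z ^ w L, ?_, ?_, hmem, ?_⟩
    · rw [Subgroup.coe_mul, PG.mul_n, hx0, Subgroup.coe_zpow, hzp.1, add_zero]
    · rw [map_mul, map_zpow, hlam, FS.lam_Th lam hT (L : ℤ) x0.2, Finset.sum_range_succ, zpow_add,
        ← zpow_mul, mul_comm (L : ℤ)]
    · intro v
      have e : (⟨_, hmem v⟩ : lcsF H j) = ⟨_, hx v⟩ * ⟨_, hj (theta (L : ℤ) v)⟩ ^ w L :=
        Subtype.ext (hf v)
      rw [e, map_mul, map_zpow, hπ v, Finset.prod_range_succ]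

theorem FS.torsion (s : ℕ) (hnil : (⊤ : Subgroup H).lowerCentralSeries s = ⊥)
    (hPγ : P ⊔ Subgroup.zpowers γ = ⊤) (lam : HhS (D + 1) P γ →* Circle)
    (hT : ∀ c (hc : PG.T (D + 1) c ∈ HhS (D + 1) P γ), lam ⟨PG.T (D + 1) c, hc⟩ = 1) :
    ∀ i j : ℕ, 2 ≤ j → s + 2 ≤ j + i → ∃ N : ℕ, 0 < N ∧ ∀ x : HhS (D + 1) P γ,
      (x : PG (D + 1) H).n = 0 → (∀ v, (x : PG (D + 1) H).f v ∈ lcsF H j) → lam x ^ N = 1 := by
  intro i
  induction i with
  | zero =>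
    intro j hj hs
    refine ⟨1, one_pos, fun x hx0 hx => ?_⟩
    have h1 : x = 1 := by
      apply Subtype.ext
      apply PG.ext'
      · intro v
        have h2 : (x : PG (D + 1) H).f v ∈ (⊤ : Subgroup H).lowerCentralSeries s :=
          Subgroup.lowerCentralSeries_antitone _ (by omega : s ≤ j - 1) (hx v)
        rw [hnil, Subgroup.mem_bot] at h2
        rw [h2]; rfl
      · rw [hx0]; rfl
    rw [h1, map_one, one_pow]
  | succ i ih =>
    intro j hj hs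
    obtain ⟨N', hN', hN⟩ := ih (j + 1) (by omega) (by omega)
    obtain ⟨V', L', b', hV', hb'⟩ := exists_rho_data D
    obtain ⟨M, V, L, b, hM, hV, hbV, hb⟩ := exists_scal_data D j
    have hgood := FS.good_all (lam := lam) (V := V') hPγ (fun y hy => FS.good1 hb' hy) hj
    obtain ⟨Q, hQ, π, hπs, hπ⟩ := exists_comm_quot (lcsF H j) (lcsF H (j + 1)) (isFilt_lcsF.anti j)
      (fun x hx y hy => isFilt_lcsF.le (by omega) (isFilt_lcsF.comm j j x hx y hy))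
    refine ⟨(M * V * V').natAbs * N', Nat.mul_pos (Int.natAbs_pos.2 (mul_ne_zero (mul_ne_zero hM hV) hV')) hN', ?_⟩
    intro x0 h0 hj0
    have hder : DerIn (lcsF H (j + 1)) (j + 1) (x0 : PG (D + 1) H).f := by
      have := IsPoly.derIn ((x0 : PG (D + 1) H).poly (j + 1))
      rwa [Nat.zero_add] at this
    obtain ⟨a, -, ha⟩ := taylor_group (lcsF H j) (lcsF H (j + 1)) π hπ (D + 1) j _ hj0 hder
    choose m hm using hb
    obtain ⟨x, hx0, hlam, hx, hxπ⟩ := FS.scaled lam hT π x0 h0 hj0 (fun a => b a * M) (L + 1)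
    obtain ⟨y, hy⟩ := hπs (∏ α, a α ^ m α)
    have hval : ∀ v, π ⟨_, hx v⟩ = π (y ^ (V * v 0)) := by
      intro v
      rw [hxπ v, map_zpow, hy, ← Finset.prod_zpow]
      simp_rw [ha, ← Finset.prod_zpow]
      rw [Finset.prod_comm]
      refine Finset.prod_congr rfl fun α _ => ?_
      simp_rw [← zpow_mul]
      rw [FS.prod_zpow_exp]
      congr 1
      rw [show m α * (V * v 0) = V * m α * v 0 by ring, ← hm α v]
      refine Finset.sum_congr rfl fun a _ => ?_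
      ring
    have hval2 : ∀ v, FS.q (j + 1) ((x : PG (D + 1) H).f v) = FS.q (j + 1) (y : H) ^ (V * v 0) := by
      intro v
      have h1 := hval v
      rw [← mul_inv_eq_one, ← map_inv, ← map_mul, hπ] at h1
      rw [← map_zpow, FS.q_eq_iff]
      simpa using h1
    obtain ⟨x', hx'0, hx'lam, hx'⟩ := (hgood y.2).2
    have hz0 : ((x ^ V' * (x' ^ V)⁻¹ : HhS (D + 1) P γ) : PG (D + 1) H).n = 0 := by
      rw [Subgroup.coe_mul, PG.mul_n, Subgroup.coe_inv, PG.inv_n, Subgroup.coe_zpow, Subgroup.coe_zpow,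
        (FS.zpow_f hx0 V').1, (FS.zpow_f hx'0 V).1]
      ring
    have hzf : ∀ v, ((x ^ V' * (x' ^ V)⁻¹ : HhS (D + 1) P γ) : PG (D + 1) H).f v =
        (x : PG (D + 1) H).f v ^ V' * ((x' : PG (D + 1) H).f v ^ V)⁻¹ := by
      intro v
      rw [Subgroup.coe_mul, PG.mul_f, Subgroup.coe_inv, PG.inv_f, Subgroup.coe_zpow, Subgroup.coe_zpow,
        (FS.zpow_f hx0 V').1, (FS.zpow_f hx'0 V).1, neg_zero, sig_zero, sig_zero,
        (FS.zpow_f hx0 V').2, (FS.zpow_f hx'0 V).2]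
    have hzm : ∀ v, ((x ^ V' * (x' ^ V)⁻¹ : HhS (D + 1) P γ) : PG (D + 1) H).f v ∈ lcsF H (j + 1) := by
      intro v
      rw [hzf, ← FS.q_eq_one, map_mul, map_inv, map_zpow, map_zpow, hval2 v, hx' v, ← zpow_mul,
        ← zpow_mul, mul_inv_eq_one]
      congr 1; ring
    have h1 := hN _ hz0 hzm
    rw [map_mul, map_inv, map_zpow, map_zpow, hx'lam, one_zpow, inv_one, mul_one, hlam, ← zpow_mul] at h1
    have e1 : (∑ a ∈ Finset.range (L + 1), b a * M * (a : ℤ)) = M * V := by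
      rw [← hbV, Finset.mul_sum]
      exact Finset.sum_congr rfl fun a _ => by ring
    rw [e1] at h1
    rw [pow_mul]
    rcases Int.natAbs_eq (M * V * V') with h2 | h2
    · rw [h2, zpow_natCast] at h1
      exact h1
    · rw [h2, zpow_neg, zpow_natCast, inv_pow, inv_eq_one] at h1
      exact h1

end Torsion

end Pool.Agent.Lib.MP_35c333_an
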