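import Mathlib
import Pool.Agent.Lib.MP_35c333_an.FSalg

set_option autoImplicit false

/-! Triviality of characters (final algebraic step). -/

namespace Pool.Agent.Lib.MP_35c333_an

open Topology Filter
open scoped commutatorElement

/-- a continuous function on an open subgroup which is `1` on a dense set of the whole group is `1`. -/
theorem FS.dense_ext {H : Type*} [Group H] [TopologicalSpace H] (P : Subgroup H)
    (hPopen : IsOpen (P : Set H)) (φ : P → Circle) (hφ : Continuous φ) (A : Set H) (hA : Dense A)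
    (h : ∀ p : P, (p : H) ∈ A → φ p = 1) : ∀ p, φ p = 1 := by
  have h1 : Dense ((Subtype.val : P → H) ⁻¹' A) := hA.preimage hPopen.isOpenMap_subtype_val
  have h2 := Continuous.ext_on h1 hφ (continuous_const (y := (1 : Circle))) (fun p hp => h p hp)
  intro p
  exact congrFun h2 p

/-- roots of unity valued continuous functions on path connected products are constant. -/
theorem FS.path_const {X : Type*} [TopologicalSpace X] (A : Set X) (x : X) (hx : x ∈ A)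
    (hA : ∀ y ∈ A, JoinedIn A x y) (B : A → A → Circle) (N : ℕ) (hN : 0 < N)
    (hB : ∀ y z, B y z ^ N = 1)
    (hBc : Continuous fun p : A × A => B p.1 p.2) : ∀ y z, B y z = B ⟨x, hx⟩ ⟨x, hx⟩ := by
  rintro ⟨y, hy⟩ ⟨z, hz⟩
  obtain ⟨γ₁, h₁⟩ := hA y hy
  obtain ⟨γ₂, h₂⟩ := hA z hz
  let c : unitInterval → Circle := fun t => B ⟨γ₁ t, h₁ t⟩ ⟨γ₂ t, h₂ t⟩
  have hc : Continuous c := by
    have : Continuous fun t : unitInterval => ((⟨γ₁ t, h₁ t⟩, ⟨γ₂ t, h₂ t⟩) : A × A) :=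
      (γ₁.continuous.subtype_mk _).prodMk (γ₂.continuous.subtype_mk _)
    exact hBc.comp this
  have hfin : (Set.range c).Finite := by
    have h3 : (Set.range c) ⊆ {w : Circle | w ^ N = 1} := by
      rintro _ ⟨t, rfl⟩
      exact hB _ _
    refine Set.Finite.subset ?_ h3
    have h4 : ((fun w : Circle => (w : ℂ)) ⁻¹' {w : ℂ | w ^ N = 1}).Finite := by
      refine Set.Finite.preimage (fun a _ b _ hab => Circle.ext hab) ?_
      have : {w : ℂ | w ^ N = 1} ⊆ ((Polynomial.nthRootsFinset N (1 : ℂ) : Finset ℂ) : Set ℂ) := by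
        intro w hw
        rw [Finset.mem_coe, Polynomial.mem_nthRootsFinset hN]
        exact hw
      exact (Finset.finite_toSet _).subset this
    refine h4.subset ?_
    intro w hw
    have hw' : w ^ N = 1 := hw
    show ((w : ℂ)) ^ N = 1
    rw [← Circle.coe_pow, hw', Circle.coe_one]
  have hpre : IsPreconnected (Set.range c) := by
    rw [← Set.image_univ]
    exact isPreconnected_univ.image c hc.continuousOn
  have hsub : (Set.range c).Subsingleton := by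
    by_contra hns
    rw [Set.not_subsingleton_iff] at hns
    exact hpre.infinite_of_nontrivial hns hfin
  have h5 := hsub (Set.mem_range_self (1 : unitInterval)) (Set.mem_range_self (0 : unitInterval))
  have h6 : c 1 = B ⟨y, hy⟩ ⟨z, hz⟩ := by
    show B ⟨γ₁ 1, _⟩ ⟨γ₂ 1, _⟩ = _
    congr 1
    · exact Subtype.ext γ₁.target
    · exact Subtype.ext γ₂.target
  have h7 : c 0 = B ⟨x, hx⟩ ⟨x, hx⟩ := by
    show B ⟨γ₁ 0, _⟩ ⟨γ₂ 0, _⟩ = _
    congr 1
    · exact Subtype.ext γ₁.source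
    · exact Subtype.ext γ₂.source
  rw [← h6, ← h7, h5]

section

variable {H : Type*} [Group H] {D : ℕ} {P : Subgroup H} {γ : H}

theorem FS.RR (b : H) : (PG.R D b * (PG.R D γ)⁻¹).n = 0 ∧
    ∀ v, (PG.R D b * (PG.R D γ)⁻¹).f v = b ^ rho 1 v * (γ ^ rho 1 v)⁻¹ := by
  refine ⟨by simp, fun v => ?_⟩
  rw [PG.mul_f, PG.R_n, PG.inv_f, PG.R_n, PG.R_f, PG.R_f, sig_sig]
  simp [sig_zero]

theorem FS.q2_comm (a c : H) : Commute (FS.q 2 a) (FS.q 2 c) := FS.q_comm (j := 1) (FS.mem_one a) c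

theorem FS.RR_q (h : H) (v : Fin D → ℤ) :
    FS.q 2 ((PG.R D (h * γ) * (PG.R D γ)⁻¹).f v) = FS.q 2 h ^ rho 1 v := by
  rw [(FS.RR _).2, map_mul, map_inv, map_zpow, map_zpow, map_mul, (FS.q2_comm h γ).mul_zpow,
    mul_inv_cancel_right]

theorem FS.conj_R (c b : H) : PG.T D c * PG.R D b * (PG.T D c)⁻¹ = PG.R D (c * b * c⁻¹) := by
  apply PG.ext'
  · intro v
    simp only [PG.mul_f, PG.T_f, PG.R_f, PG.inv_f, PG.T_n]
    rw [sig_zero, conj_zpow]
  · simp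

end

theorem final_step {H : Type*} [Group H] [TopologicalSpace H] [IsTopologicalGroup H] (D s : ℕ)
    (hnil : (⊤ : Subgroup H).lowerCentralSeries s = ⊥)
    (P Γ : Subgroup H) (hPn : P.Normal) (hPopen : IsOpen (P : Set H))
    (hPpath : ∀ c ∈ P, JoinedIn (P : Set H) 1 c) (γ g : H) (hγ : γ ∈ Γ)
    (hPγ : P ⊔ Subgroup.zpowers γ = ⊤) (hg : g * γ⁻¹ ∈ P)
    (hdense : ∀ m : ℕ, 0 < m → Dense {x : H | ∃ n : ℤ, ∃ δ ∈ Γ, x = (g ^ m) ^ n * δ})
    (k : ℕ) (hk : 0 < k) (lam : HhS (D + 1) P γ →* Circle)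
    (hT : lam ⟨PG.T (D + 1) g, FS.T_mem hPγ g⟩ = 1)
    (hR : lam ⟨PG.R (D + 1) g, FS.R_mem hg⟩ ^ k = 1)
    (hDG : ∀ x : HhS (D + 1) P γ, (x : PG (D + 1) H) ∈ PG.DG (D + 1) Γ → lam x = 1)
    (hcT : Continuous fun c : P => lam ⟨PG.T (D + 1) c, FS.T_mem hPγ c⟩)
    (hcR : Continuous fun h : P => lam ⟨PG.R (D + 1) ((h : H) * γ), FS.R_mem' h⟩) :
    ∀ x, lam x = 1 := by
  -- Step 1
  let τ : H →* Circle :=
    { toFun := fun c => lam ⟨PG.T (D + 1) c, FS.T_mem hPγ c⟩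
      map_one' := by
        have : (⟨PG.T (D + 1) 1, FS.T_mem hPγ 1⟩ : HhS (D + 1) P γ) = 1 := rfl
        rw [this, map_one]
      map_mul' := fun a b => by
        rw [← map_mul]; congr 1 }
  have hτg : τ g = 1 := hT
  have hτΓ : ∀ δ ∈ Γ, τ δ = 1 := fun δ hδ => hDG _ (fun v => hδ)
  have hτP : ∀ p : P, τ p = 1 := by
    refine FS.dense_ext P hPopen (fun p => τ p) hcT _ (hdense 1 one_pos) ?_
    rintro p ⟨n, δ, hδ, hp⟩
    show τ (p : H) = 1
    rw [hp, map_mul, map_zpow, map_pow, hτg, hτΓ δ hδ]; simp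
  have hτ : ∀ c, τ c = 1 := by
    have : P ⊔ Subgroup.zpowers γ ≤ τ.ker := by
      refine sup_le (fun p hp => hτP ⟨p, hp⟩) ?_
      rw [Subgroup.zpowers_le]
      exact hτΓ γ hγ
    intro c
    have hc : c ∈ P ⊔ Subgroup.zpowers γ := by rw [hPγ]; trivial
    exact this hc
  have hTall : ∀ c (hc : PG.T (D + 1) c ∈ HhS (D + 1) P γ), lam ⟨PG.T (D + 1) c, hc⟩ = 1 :=
    fun c hc => hτ c
  -- Step 4
  obtain ⟨N, hN0, hN⟩ := FS.torsion s hnil hPγ lam hTall s 2 le_rfl (by omega)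
  -- Step 5
  let κ : P → Circle := fun h => lam ⟨PG.R (D + 1) ((h : H) * γ), FS.R_mem' h⟩
  have hκγ : lam ⟨PG.R (D + 1) γ, FS.Rγ_mem⟩ = 1 :=
    hDG _ (fun v => by
      show PG.f (PG.R (D + 1) γ) v ∈ Γ
      rw [PG.R_f]; exact Γ.zpow_mem hγ _)
  have hκ1 : κ 1 = 1 := by
    rw [← hκγ]
    show lam _ = lam _
    congr 1
    apply Subtype.ext
    show PG.R (D + 1) (((1 : P) : H) * γ) = PG.R (D + 1) γ
    rw [Subgroup.coe_one, one_mul]
  have hBN : ∀ h h' : P, (κ (h * h') * (κ h * κ h')⁻¹) ^ N = 1 := by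
    intro h h'
    obtain ⟨ζ, hζlam, hζn, hζq⟩ : ∃ ζ : P → HhS (D + 1) P γ, (∀ h, lam (ζ h) = κ h) ∧
        (∀ h, (ζ h : PG (D + 1) H).n = 0) ∧
        ∀ h v, FS.q 2 ((ζ h : PG (D + 1) H).f v) = FS.q 2 (h : H) ^ rho 1 v := by
      refine ⟨fun h => ⟨PG.R (D + 1) ((h : H) * γ), FS.R_mem' h⟩ * (⟨PG.R (D + 1) γ, FS.Rγ_mem⟩)⁻¹,
        ?_, fun h => (FS.RR (γ := γ) ((h : H) * γ)).1, fun h v => FS.RR_q (h : H) v⟩
      intro h
      show lam (_ * _) = _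
      rw [map_mul, map_inv, hκγ, inv_one, mul_one]
    have h1 := hN (ζ (h * h') * (ζ h * ζ h')⁻¹) ?_ ?_
    · rw [map_mul, map_inv, map_mul, hζlam, hζlam, hζlam] at h1
      exact h1
    · rw [Subgroup.coe_mul, Subgroup.coe_inv, Subgroup.coe_mul, PG.mul_n, PG.inv_n, PG.mul_n, hζn,
        hζn, hζn]
      ring
    · intro v
      rw [Subgroup.coe_mul, Subgroup.coe_inv, Subgroup.coe_mul, PG.mul_f, PG.inv_f, PG.mul_n, PG.mul_f,
        hζn, hζn, hζn, add_zero, neg_zero, sig_zero, sig_zero, sig_zero, ← FS.q_eq_one, map_mul, map_inv,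
        map_mul, hζq, hζq, hζq, Subgroup.coe_mul, map_mul, (FS.q2_comm _ _).mul_zpow, mul_inv_cancel]
  have hκmul : ∀ h h' : P, κ (h * h') = κ h * κ h' := by
    intro h h'
    have h1 := FS.path_const (P : Set H) 1 P.one_mem hPpath
      (fun a b : P => κ (a * b) * (κ a * κ b)⁻¹) N hN0 hBN ?_ h h'
    · have h2 : (κ ((1 : P) * (1 : P)) * (κ (1 : P) * κ (1 : P))⁻¹) = 1 := by
        rw [mul_one, hκ1]; simp
      have h3 : κ (h * h') * (κ h * κ h')⁻¹ = κ ((1 : P) * (1 : P)) * (κ (1 : P) * κ (1 : P))⁻¹ := h1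
      rw [h2] at h3
      exact mul_inv_eq_one.1 h3
    · have hκc : Continuous κ := hcR
      have h4 : Continuous fun p : P × P => κ (p.1 * p.2) * (κ p.1 * κ p.2)⁻¹ :=
        (hκc.comp continuous_mul).mul
          (((hκc.comp continuous_fst).mul (hκc.comp continuous_snd)).inv)
      exact h4
  let K : P →* Circle := { toFun := κ, map_one' := hκ1, map_mul' := hκmul }
  -- Step 6
  have hKΓ : ∀ p : P, (p : H) ∈ Γ → K p = 1 := by
    intro p hp
    refine hDG _ (fun v => ?_)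
    show PG.f (PG.R (D + 1) ((p : H) * γ)) v ∈ Γ
    rw [PG.R_f]; exact Γ.zpow_mem (Γ.mul_mem hp hγ) _
  have hconjP : ∀ (c : H) (p : P), c * (p : H) * c⁻¹ ∈ P := fun c p => hPn.conj_mem _ p.2 c
  have hKconj : ∀ (n : ℤ) (p : P), K ⟨γ ^ n * (p : H) * (γ ^ n)⁻¹, hconjP _ p⟩ = K p := by
    intro n p
    have e : (⟨PG.R (D + 1) (γ ^ n * (p : H) * (γ ^ n)⁻¹ * γ),
        FS.R_mem' ⟨γ ^ n * (p : H) * (γ ^ n)⁻¹, hconjP _ p⟩⟩ : HhS (D + 1) P γ) =
        ⟨PG.T (D + 1) (γ ^ n), FS.T_mem hPγ _⟩ * ⟨PG.R (D + 1) ((p : H) * γ), FS.R_mem' p⟩ *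
          (⟨PG.T (D + 1) (γ ^ n), FS.T_mem hPγ _⟩)⁻¹ := by
      apply Subtype.ext
      rw [Subgroup.coe_mul, Subgroup.coe_mul, Subgroup.coe_inv]
      show PG.R (D + 1) (γ ^ n * (p : H) * (γ ^ n)⁻¹ * γ) =
        PG.T (D + 1) (γ ^ n) * PG.R (D + 1) ((p : H) * γ) * (PG.T (D + 1) (γ ^ n))⁻¹
      rw [FS.conj_R]
      congr 1
      have : γ * (γ ^ n)⁻¹ = (γ ^ n)⁻¹ * γ := by
        rw [← zpow_neg, ← zpow_one_add, ← zpow_add_one, add_comm]
      rw [mul_assoc (γ ^ n * (p : H)), ← this]; group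
    show lam _ = lam _
    rw [e, map_mul, map_mul, map_inv, hTall, one_mul, inv_one, mul_one]
  have hpow : ∀ n : ℤ, ∃ p : P, g ^ n = (p : H) * γ ^ n ∧ K p = K ⟨g * γ⁻¹, hg⟩ ^ n := by
    intro n
    induction n using Int.induction_on with
    | zero => exact ⟨1, by simp, by simp⟩
    | succ n ih =>
      obtain ⟨p, hp, hKp⟩ := ih
      refine ⟨p * ⟨γ ^ (n : ℤ) * (g * γ⁻¹) * (γ ^ (n : ℤ))⁻¹, hconjP _ ⟨g * γ⁻¹, hg⟩⟩, ?_, ?_⟩
      · rw [Subgroup.coe_mul, zpow_add_one, hp, zpow_add_one]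
        show _ = (p : H) * (γ ^ (n : ℤ) * (g * γ⁻¹) * (γ ^ (n : ℤ))⁻¹) * (γ ^ (n : ℤ) * γ)
        group
      · rw [map_mul, hKp, zpow_add_one]
        congr 1
        exact hKconj n ⟨g * γ⁻¹, hg⟩
    | pred n ih =>
      obtain ⟨p, hp, hKp⟩ := ih
      refine ⟨p * (⟨γ ^ (-(n : ℤ) - 1) * (g * γ⁻¹) * (γ ^ (-(n : ℤ) - 1))⁻¹,
        hconjP _ ⟨g * γ⁻¹, hg⟩⟩)⁻¹, ?_, ?_⟩
      · rw [Subgroup.coe_mul, Subgroup.coe_inv, zpow_sub_one, hp]
        show _ = (p : H) * (γ ^ (-(n : ℤ) - 1) * (g * γ⁻¹) * (γ ^ (-(n : ℤ) - 1))⁻¹)⁻¹ *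
          γ ^ (-(n : ℤ) - 1)
        rw [zpow_sub_one]
        group
      · rw [map_mul, map_inv, hKp]
        refine (congrArg (fun z => K ⟨g * γ⁻¹, hg⟩ ^ (-(n : ℤ)) * z⁻¹)
          (hKconj (-(n : ℤ) - 1) ⟨g * γ⁻¹, hg⟩)).trans ?_
        exact (zpow_sub_one _ _).symm
  have hKg : K ⟨g * γ⁻¹, hg⟩ ^ k = 1 := by
    have e : K ⟨g * γ⁻¹, hg⟩ = lam ⟨PG.R (D + 1) g, FS.R_mem hg⟩ := by
      show lam _ = lam _
      congr 1
      apply Subtype.ext
      show PG.R (D + 1) (g * γ⁻¹ * γ) = PG.R (D + 1) g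
      rw [inv_mul_cancel_right]
    rw [e]; exact hR
  have hK1 : ∀ p, K p = 1 := by
    refine FS.dense_ext P hPopen (fun p => K p) hcR _ (hdense k hk) ?_
    rintro p ⟨n, δ, hδ, hp⟩
    obtain ⟨p', hp', hK'⟩ := hpow ((k : ℤ) * n)
    have e1 : (g ^ k) ^ n = g ^ ((k : ℤ) * n) := by rw [zpow_mul, zpow_natCast]
    rw [e1, hp'] at hp
    have e2 : ((p'⁻¹ * p : P) : H) = γ ^ ((k : ℤ) * n) * δ := by
      rw [Subgroup.coe_mul, Subgroup.coe_inv, hp]; group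
    have e3 : K (p'⁻¹ * p) = 1 := by
      apply hKΓ
      rw [e2]
      exact Γ.mul_mem (Γ.zpow_mem hγ _) hδ
    have e4 : K p' = 1 := by rw [hK', zpow_mul, zpow_natCast, hKg, one_zpow]
    rw [map_mul, map_inv, e4, inv_one, one_mul] at e3
    exact e3
  -- conclusion
  rintro ⟨x, hx⟩
  induction hx using Subgroup.closure_induction with
  | mem x hx =>
    rcases hx with (⟨c, hc, rfl⟩ | rfl | ⟨b, hb, rfl⟩)
    · exact hTall c _
    · exact hTall γ _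
    · have h1 := hK1 ⟨b * γ⁻¹, hb⟩
      have e : K ⟨b * γ⁻¹, hb⟩ = lam ⟨PG.R (D + 1) b, FS.R_mem hb⟩ := by
        show lam _ = lam _
        congr 1
        apply Subtype.ext
        show PG.R (D + 1) (b * γ⁻¹ * γ) = PG.R (D + 1) b
        rw [inv_mul_cancel_right]
      rw [e] at h1
      exact h1
  | one => exact map_one lam
  | mul x y hx hy ihx ihy =>
    have e := map_mul lam ⟨x, hx⟩ ⟨y, hy⟩
    rw [ihx, ihy, mul_one] at e
    exact e
  | inv x hx ihx =>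
    have e := map_inv lam ⟨x, hx⟩
    rw [ihx, inv_one] at e
    exact e

end Pool.Agent.Lib.MP_35c333_an
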