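import Mathlib
import Pool.Agent.Lib.MP_35c333_an.PG
import Pool.Agent.Lib.MP_35c333_an.Taylor

set_option autoImplicit false

/-! Nilpotency of the group `PG D H`. -/

namespace Pool.Agent.Lib.MP_35c333_an

section Abelian

variable {D : ℕ} {A : Type*} [AddCommGroup A]

/-- the operator `f ↦ f ∘ sig m` -/
def nilpS (D : ℕ) (A : Type*) [AddCommGroup A] (m : ℤ) : Module.End ℤ ((Fin D → ℤ) → A) where
  toFun f := fun v => f (sig m v)
  map_add' _ _ := rfl
  map_smul' _ _ := rfl

@[simp] theorem nilpS_apply (m : ℤ) (f : (Fin D → ℤ) → A) (v : Fin D → ℤ) :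
    nilpS D A m f v = f (sig m v) := rfl

theorem nilpS_mul (m k : ℤ) : nilpS D A m * nilpS D A k = nilpS D A (k + m) := by
  refine LinearMap.ext fun f => ?_
  funext v
  show f (sig k (sig m v)) = f (sig (k + m) v)
  rw [sig_sig]

/-- the operator `S - 1` -/
def nilpN (D : ℕ) (A : Type*) [AddCommGroup A] : Module.End ℤ ((Fin D → ℤ) → A) :=
  nilpS D A 1 - 1

theorem nilpN_apply (f : (Fin D → ℤ) → A) (v : Fin D → ℤ) :
    nilpN D A f v = f (sig 1 v) - f v := rfl

theorem nilp_vanish_sub {Lam : Type*} [AddCommGroup Lam] :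
    ∀ {n : ℕ} {f g : Lam → A}, Vanish n f → Vanish n g → Vanish n (fun v => f v - g v)
  | 0, f, g, hf, hg => fun v => by
      show f v - g v = 0
      rw [hf v, hg v, sub_zero]
  | n + 1, f, g, hf, hg => fun h => by
      have := nilp_vanish_sub (hf h) (hg h)
      have e : (fun v => f (v + h) - g (v + h) - (f v - g v)) =
          fun v => f (v + h) - f v - (g (v + h) - g v) := by
        funext v; abel
      show Vanish n (fun v => f (v + h) - g (v + h) - (f v - g v))
      rw [e]; exact this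

theorem nilp_vanish_comp {Lam Lam' : Type*} [AddCommGroup Lam] [AddCommGroup Lam']
    (t : Lam' →+ Lam) : ∀ {n : ℕ} {f : Lam → A}, Vanish n f → Vanish n (fun v => f (t v))
  | 0, f, hf => fun v => hf (t v)
  | n + 1, f, hf => fun h => by
      have := nilp_vanish_comp t (hf (t h))
      have e : (fun v => f (t (v + h)) - f (t v)) = fun v => f (t v + t h) - f (t v) := by
        funext v; rw [map_add]
      show Vanish n (fun v => f (t (v + h)) - f (t v))
      rw [e]; exact this

theorem nilp_vanish_N {n : ℕ} {f : (Fin D → ℤ) → A} (hf : Vanish n f) :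
    Vanish n (nilpN D A f) := nilp_vanish_sub (nilp_vanish_comp (sigHom 1) hf) hf

theorem nilp_vanish_N_pow {n : ℕ} (t : ℕ) {f : (Fin D → ℤ) → A} (hf : Vanish n f) :
    Vanish n ((nilpN D A ^ t) f) := by
  induction t generalizing f with
  | zero => exact hf
  | succ t ih =>
    rw [pow_succ, Module.End.mul_apply]
    exact ih (nilp_vanish_N hf)

/-- the flag of `ℤ^D` -/
def NilpFlag (k : ℕ) (v : Fin D → ℤ) : Prop := ∀ i : Fin D, D ≤ i.val + k → v i = 0

theorem nilpFlag_nu {k : ℕ} {v : Fin D → ℤ} (hv : NilpFlag k v) :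
    NilpFlag (k + 1) (sig 1 v - v) := by
  intro i hi
  rw [Pi.sub_apply, sub_eq_zero]
  unfold sig
  rw [Finset.sum_eq_single i]
  · simp
  · intro j _ hj
    rcases lt_or_gt_of_ne (fun e : j.val = i.val => hj (Fin.ext e)) with h | h
    · rw [Nat.choose_eq_zero_of_lt (by omega)]; simp
    · rw [hv j (by omega), mul_zero]
  · simp

theorem nilpFlag_mono {k l : ℕ} (hkl : k ≤ l) {v : Fin D → ℤ} (hv : NilpFlag l v) :
    NilpFlag k v := fun i hi => hv i (by omega)

theorem nilpFlag_sig {k : ℕ} {v : Fin D → ℤ} (hv : NilpFlag k v) : NilpFlag k (sig 1 v) := by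
  intro i hi
  have h1 := nilpFlag_nu hv i (by omega)
  rw [Pi.sub_apply, hv i hi, sub_zero] at h1
  exact h1

/-- invariance under translations in the `k`-th flag member -/
def NilpInv (k : ℕ) (g : (Fin D → ℤ) → A) : Prop := ∀ h, NilpFlag k h → ∀ v, g (v + h) = g v

theorem nilpInv_N {k : ℕ} {g : (Fin D → ℤ) → A} (hg : NilpInv k g) : NilpInv k (nilpN D A g) := by
  intro h hh v
  rw [nilpN_apply, nilpN_apply, sig_add, hg h hh, hg _ (nilpFlag_sig hh)]

theorem nilp_comm {k : ℕ} {g : (Fin D → ℤ) → A} (hg : NilpInv (k + 1) g) {h : Fin D → ℤ}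
    (hh : NilpFlag k h) :
    (fun v => nilpN D A g (v + h) - nilpN D A g v) = nilpN D A (fun v => g (v + h) - g v) := by
  funext v
  simp only [nilpN_apply]
  have h1 : g (sig 1 (v + h)) = g (sig 1 v + h) := by
    have h2 := hg (sig 1 h - h) (nilpFlag_nu hh) (sig 1 v + h)
    rw [← h2, sig_add]
    congr 1
    abel
  rw [h1]
  abel

theorem nilp_comm_pow {k : ℕ} (t : ℕ) {g : (Fin D → ℤ) → A} (hg : NilpInv (k + 1) g)
    {h : Fin D → ℤ} (hh : NilpFlag k h) :
    (fun v => (nilpN D A ^ t) g (v + h) - (nilpN D A ^ t) g v) =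
      (nilpN D A ^ t) (fun v => g (v + h) - g v) := by
  induction t generalizing g with
  | zero => rfl
  | succ t ih =>
    simp only [pow_succ, Module.End.mul_apply]
    rw [ih (nilpInv_N hg), nilp_comm hg hh]

theorem nilp_vanish (n : ℕ) : ∃ T : ℕ, ∀ f : (Fin D → ℤ) → A, Vanish n f →
    (nilpN D A ^ T) f = 0 := by
  induction n with
  | zero => exact ⟨0, fun f hf => funext hf⟩
  | succ n ih =>
    obtain ⟨T, hT⟩ := ih
    have claim : ∀ k : ℕ, k ≤ D → ∃ T' : ℕ, ∀ f : (Fin D → ℤ) → A, Vanish (n + 1) f →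
        NilpInv (D - k) ((nilpN D A ^ T') f) := by
      intro k
      induction k with
      | zero =>
        intro _
        refine ⟨0, fun f _ h hh v => ?_⟩
        have : h = 0 := by
          funext i
          exact hh i (by omega)
        rw [this, add_zero]
      | succ k ihk =>
        intro hk
        obtain ⟨T', hT'⟩ := ihk (by omega)
        refine ⟨T + T', fun f hf h hh v => ?_⟩
        have e : D - k = (D - (k + 1)) + 1 := by omega
        have h1 := hT' f hf
        rw [e] at h1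
        have h2 := nilp_comm_pow T h1 hh
        have h3 : Vanish n (fun v => (nilpN D A ^ T') f (v + h) - (nilpN D A ^ T') f v) :=
          nilp_vanish_N_pow T' hf h
        rw [hT _ h3] at h2
        have h4 := congrFun h2 v
        rw [pow_add, Module.End.mul_apply]
        exact sub_eq_zero.mp h4
    obtain ⟨T', hT'⟩ := claim D le_rfl
    refine ⟨1 + T', fun f hf => ?_⟩
    have h1 := hT' f hf
    rw [pow_add, pow_one, Module.End.mul_apply]
    funext v
    rw [nilpN_apply]
    have h2 := h1 (sig 1 v - v) (fun i hi => by omega) v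
    rw [← h2]
    have h3 : v + (sig 1 v - v) = sig 1 v := by abel
    rw [h3, sub_self]
    rfl

theorem nilp_commute (m : ℤ) (t : ℕ) (g : (Fin D → ℤ) → A) :
    (nilpN D A ^ t) (nilpS D A m g) = nilpS D A m ((nilpN D A ^ t) g) := by
  have h1 : Commute (nilpN D A) (nilpS D A m) := by
    unfold nilpN
    refine Commute.sub_left ?_ (Commute.one_left _)
    show nilpS D A 1 * nilpS D A m = nilpS D A m * nilpS D A 1
    rw [nilpS_mul, nilpS_mul, add_comm]
  have h2 := h1.pow_left t
  exact LinearMap.congr_fun h2 g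

/-- `S_m - 1` raises the nilpotency level. -/
theorem nilp_shift (t : ℕ) (g : (Fin D → ℤ) → A) (hg : (nilpN D A ^ (t + 1)) g = 0) (m : ℤ) :
    (nilpN D A ^ t) (nilpS D A m g - g) = 0 := by
  have hS : ∀ k m : ℤ, nilpS D A k (nilpS D A m g) = nilpS D A (k + m) g := by
    intro k m
    have := LinearMap.congr_fun (nilpS_mul (D := D) (A := A) k m) g
    rw [Module.End.mul_apply, add_comm] at this
    exact this
  have hadd : ∀ k m : ℤ, (nilpN D A ^ t) (nilpS D A k g - g) = 0 →
      (nilpN D A ^ t) (nilpS D A m g - g) = 0 →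
      (nilpN D A ^ t) (nilpS D A (k + m) g - g) = 0 := by
    intro k m hk hm
    have e : nilpS D A (k + m) g - g = nilpS D A k (nilpS D A m g - g) + (nilpS D A k g - g) := by
      rw [map_sub, hS]; abel
    rw [e, map_add, hk, nilp_commute, hm, map_zero, add_zero]
  have hneg : ∀ k : ℤ, (nilpN D A ^ t) (nilpS D A k g - g) = 0 →
      (nilpN D A ^ t) (nilpS D A (-k) g - g) = 0 := by
    intro k hk
    have h0 : nilpS D A 0 g = g := by
      funext v
      rw [nilpS_apply, sig_zero]
    have e : nilpS D A (-k) g - g = -(nilpS D A (-k) (nilpS D A k g - g)) := by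
      rw [map_sub, hS, neg_add_cancel, h0]; abel
    rw [e, map_neg, nilp_commute, hk, map_zero, neg_zero]
  have h1 : (nilpN D A ^ t) (nilpS D A 1 g - g) = 0 := by
    have : nilpS D A 1 g - g = nilpN D A g := rfl
    rw [this, ← Module.End.mul_apply, ← pow_succ]
    exact hg
  have h0 : (nilpN D A ^ t) (nilpS D A 0 g - g) = 0 := by
    have : nilpS D A 0 g = g := by
      funext v
      rw [nilpS_apply, sig_zero]
    rw [this, sub_self, map_zero]
  induction m using Int.induction_on with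
  | zero => exact h0
  | succ n ih => exact hadd _ _ ih h1
  | pred n ih =>
    have e : (-(n : ℤ) - 1) = -(n : ℤ) + -1 := sub_eq_add_neg _ _
    rw [e]
    exact hadd _ _ ih (hneg 1 h1)

end Abelian

section Group

variable {D : ℕ} {H : Type*} [Group H]

/-- pairs `(f, 0)` with `f` valued in the `c`-th term -/
def nilpLev (D : ℕ) (H : Type*) [Group H] (c : ℕ) : Subgroup (PG D H) where
  carrier := {x | x.n = 0 ∧ ∀ v, x.f v ∈ lcsF H c}
  mul_mem' := by
    rintro x y ⟨hx, hx'⟩ ⟨hy, hy'⟩
    exact ⟨by rw [PG.mul_n, hx, hy, add_zero], fun v => (lcsF H c).mul_mem (hx' _) (hy' _)⟩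
  one_mem' := ⟨rfl, fun _ => (lcsF H c).one_mem⟩
  inv_mem' := by
    rintro x ⟨hx, hx'⟩
    exact ⟨by rw [PG.inv_n, hx, neg_zero], fun v => (lcsF H c).inv_mem (hx' _)⟩

theorem nilp_derIn_vanish {Lam : Type*} [AddCommGroup Lam] {K N : Subgroup H} {Q : Type*}
    [CommGroup Q] (π : K →* Q) (hπ : ∀ x : K, π x = 1 ↔ (x : H) ∈ N) :
    ∀ {n : ℕ} {f : Lam → H} (hf : ∀ v, f v ∈ K), DerIn N n f →
      Vanish n (fun v => Additive.ofMul (π ⟨f v, hf v⟩))
  | 0, f, hf, h => fun v => by
      show Additive.ofMul (π ⟨f v, hf v⟩) = 0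
      rw [(hπ ⟨f v, hf v⟩).mpr (h v)]; rfl
  | n + 1, f, hf, h => fun x => by
      have hd : ∀ v, der x f v ∈ K := fun v => K.mul_mem (hf _) (K.inv_mem (hf _))
      have h1 := nilp_derIn_vanish π hπ hd (h x)
      have e : (fun v => Additive.ofMul (π ⟨f (v + x), hf (v + x)⟩) -
          Additive.ofMul (π ⟨f v, hf v⟩)) = fun v => Additive.ofMul (π ⟨der x f v, hd v⟩) := by
        funext v
        rw [← ofMul_div, ← map_div]
        congr 2
        apply Subtype.ext
        show f (v + x) / f v = f (v + x) * (f v)⁻¹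
        rw [div_eq_mul_inv]
      show Vanish n (fun v => Additive.ofMul (π ⟨f (v + x), hf (v + x)⟩) -
          Additive.ofMul (π ⟨f v, hf v⟩))
      rw [e]; exact h1

/-- the commutator of `(f, 0)` with an arbitrary element -/
theorem nilp_commutator (x y : PG D H) (hx : x.n = 0) :
    (x * y * x⁻¹ * y⁻¹).n = 0 ∧ ∀ v, (x * y * x⁻¹ * y⁻¹).f v =
      x.f v * (y.f v * (x.f (sig y.n v))⁻¹ * (y.f v)⁻¹) := by
  refine ⟨?_, fun v => ?_⟩
  · simp only [PG.mul_n, PG.inv_n, hx]; ring
  · simp only [PG.mul_f, PG.mul_n, PG.inv_f, PG.inv_n, hx, sig_sig, sig_zero, neg_zero, zero_add,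
      add_zero, neg_add_cancel]
    group

theorem nilp_step (c : ℕ) (hc : 1 ≤ c) (n : ℕ)
    (hn : (⊤ : Subgroup (PG D H)).lowerCentralSeries n ≤ nilpLev D H c) :
    ∃ m, (⊤ : Subgroup (PG D H)).lowerCentralSeries m ≤ nilpLev D H (c + 1) := by
  have hF := isFilt_lcsF (H := H)
  obtain ⟨Q, _, π, -, hπ⟩ := exists_comm_quot (lcsF H c) (lcsF H (c + 1)) (hF.anti c) (by
    intro x hx y hy
    exact hF.le (by omega) (hF.comm c c x hx y hy))
  obtain ⟨T, hT⟩ := nilp_vanish (D := D) (A := Additive Q) (c + 1)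
  let bar : ∀ x : PG D H, x ∈ nilpLev D H c → (Fin D → ℤ) → Additive Q :=
    fun x hx v => Additive.ofMul (π ⟨x.f v, hx.2 v⟩)
  have hbar : ∀ x hx, Vanish (c + 1) (bar x hx) := by
    intro x hx
    have h1 : DerIn (lcsF H (0 + (c + 1))) (c + 1) x.f := (x.poly (c + 1)).derIn
    rw [zero_add] at h1
    exact nilp_derIn_vanish π hπ hx.2 h1
  let W : ℕ → Subgroup (PG D H) := fun t =>
    { carrier := {x | ∃ hx : x ∈ nilpLev D H c, (nilpN D (Additive Q) ^ t) (bar x hx) = 0}
      mul_mem' := by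
        rintro x y ⟨hx, hx'⟩ ⟨hy, hy'⟩
        refine ⟨(nilpLev D H c).mul_mem hx hy, ?_⟩
        have e : bar (x * y) ((nilpLev D H c).mul_mem hx hy) = bar x hx + bar y hy := by
          funext v
          show Additive.ofMul (π _) = Additive.ofMul (π _) + Additive.ofMul (π _)
          rw [← ofMul_mul, ← map_mul]
          congr 2
          apply Subtype.ext
          show x.f v * y.f (sig x.n v) = x.f v * y.f v
          rw [hx.1, sig_zero]
        rw [e, map_add, hx', hy', add_zero]
      one_mem' := by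
        refine ⟨(nilpLev D H c).one_mem, ?_⟩
        have e : bar 1 (nilpLev D H c).one_mem = 0 := by
          funext v
          show Additive.ofMul (π _) = 0
          rw [ofMul_eq_zero]
          exact (hπ _).mpr (lcsF H (c + 1)).one_mem
        rw [e, map_zero]
      inv_mem' := by
        rintro x ⟨hx, hx'⟩
        refine ⟨(nilpLev D H c).inv_mem hx, ?_⟩
        have e : bar x⁻¹ ((nilpLev D H c).inv_mem hx) = -bar x hx := by
          funext v
          show Additive.ofMul (π _) = -Additive.ofMul (π _)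
          rw [← ofMul_inv, ← map_inv]
          congr 2
          apply Subtype.ext
          show (x.f (sig (-x.n) v))⁻¹ = (x.f v)⁻¹
          rw [hx.1, neg_zero, sig_zero]
        rw [e, map_neg, hx', neg_zero] }
  have hWstep : ∀ t, ⁅W (t + 1), (⊤ : Subgroup (PG D H))⁆ ≤ W t := by
    intro t
    rw [Subgroup.commutator_le]
    rintro x ⟨hx, hx'⟩ y -
    rw [commutatorElement_def]
    obtain ⟨h1, h2⟩ := nilp_commutator x y hx.1
    have hconj : ∀ v, y.f v * (x.f (sig y.n v))⁻¹ * (y.f v)⁻¹ ∈ lcsF H c := fun v =>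
      (lcsF_normal (H := H) c).conj_mem _ ((lcsF H c).inv_mem (hx.2 _)) _
    have hmem : x * y * x⁻¹ * y⁻¹ ∈ nilpLev D H c := by
      refine ⟨h1, fun v => ?_⟩
      rw [h2]
      exact (lcsF H c).mul_mem (hx.2 v) (hconj v)
    refine ⟨hmem, ?_⟩
    have e : bar _ hmem = -(nilpS D (Additive Q) y.n (bar x hx) - bar x hx) := by
      funext v
      have e1 : (⟨(x * y * x⁻¹ * y⁻¹).f v, hmem.2 v⟩ : lcsF H c) =
          ⟨x.f v, hx.2 v⟩ * ⟨_, hconj v⟩ := Subtype.ext (h2 v)
      have e2 : π ⟨_, hconj v⟩ = (π ⟨x.f (sig y.n v), hx.2 _⟩)⁻¹ := by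
        rw [← map_inv, ← mul_inv_eq_one, ← map_inv, ← map_mul, hπ]
        have h3 := hF.comm 1 c (y.f v) (by rw [lcsF_one]; trivial) (x.f (sig y.n v))⁻¹
          ((lcsF H c).inv_mem (hx.2 _))
        rw [add_comm 1 c] at h3
        exact h3
      show Additive.ofMul (π _) = -(Additive.ofMul (π ⟨x.f (sig y.n v), hx.2 _⟩) -
        Additive.ofMul (π ⟨x.f v, hx.2 v⟩))
      rw [e1, map_mul, e2, ofMul_mul, ofMul_inv]
      abel
    rw [e, map_neg, nilp_shift t _ hx' y.n, neg_zero]
  have hchain : ∀ j, j ≤ T → (⊤ : Subgroup (PG D H)).lowerCentralSeries (n + j) ≤ W (T - j) := by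
    intro j
    induction j with
    | zero =>
      intro _ x hx
      exact ⟨hn hx, hT _ (hbar x (hn hx))⟩
    | succ j ih =>
      intro hj
      have h1 := ih (by omega)
      have e : T - j = (T - (j + 1)) + 1 := by omega
      rw [e] at h1
      rw [← add_assoc, Subgroup.lowerCentralSeries_succ]
      exact (Subgroup.commutator_mono h1 le_rfl).trans (hWstep _)
  refine ⟨n + T, fun x hx => ?_⟩
  have h1 := hchain T le_rfl hx
  rw [Nat.sub_self] at h1
  obtain ⟨hx1, hx2⟩ := h1
  refine ⟨hx1.1, fun v => ?_⟩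
  have h2 : bar x hx1 = 0 := hx2
  have h3 := congrFun h2 v
  exact (hπ ⟨x.f v, hx1.2 v⟩).mp h3

end Group

theorem pg_nilpotent {H : Type*} [Group H] (D : ℕ)
    (s : ℕ) (hnil : (⊤ : Subgroup H).lowerCentralSeries s = ⊥) :
    ∃ n : ℕ, (⊤ : Subgroup (PG D H)).lowerCentralSeries n = ⊥ := by
  have h1 : ∀ c : ℕ, ∃ m, (⊤ : Subgroup (PG D H)).lowerCentralSeries m ≤ nilpLev D H (c + 1) := by
    intro c
    induction c with
    | zero =>
      refine ⟨1, ?_⟩
      rw [Subgroup.lowerCentralSeries_succ, Subgroup.commutator_le]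
      intro x _ y _
      rw [commutatorElement_def]
      refine ⟨?_, fun v => ?_⟩
      · simp only [PG.mul_n, PG.inv_n]; ring
      · rw [zero_add, lcsF_one]; trivial
    | succ c ih =>
      obtain ⟨m, hm⟩ := ih
      exact nilp_step (c + 1) (by omega) m hm
  obtain ⟨m, hm⟩ := h1 s
  refine ⟨m, ?_⟩
  rw [eq_bot_iff]
  intro x hx
  obtain ⟨hx1, hx2⟩ := hm hx
  rw [Subgroup.mem_bot]
  apply PG.ext'
  · intro v
    have h3 := hx2 v
    have h4 : lcsF H (s + 1) = ⊥ := hnil
    rw [h4, Subgroup.mem_bot] at h3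
    rw [h3]
    rfl
  · exact hx1

end Pool.Agent.Lib.MP_35c333_an
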