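import Mathlib

set_option autoImplicit false

/-! Continuous characters of compact abelian groups separate points. -/

namespace Pool.Agent.Lib.MP_35c333_an

open MeasureTheory Filter Topology Set Metric

section CommonEigenvector

/-- A commuting family of endomorphisms leaving a nonzero finite dimensional subspace invariant
has a common eigenvector in it. -/
theorem chars_common_eigenvector {ι M : Type*} [AddCommGroup M] [Module ℂ M]
    (ρ : ι → M →ₗ[ℂ] M) (hρ : ∀ a b x, ρ a (ρ b x) = ρ b (ρ a x)) :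
    ∀ (n : ℕ) (V : Submodule ℂ M), FiniteDimensional ℂ V → Module.finrank ℂ V = n → V ≠ ⊥ →
      (∀ a, ∀ x ∈ V, ρ a x ∈ V) → ∃ v ∈ V, v ≠ 0 ∧ ∀ a, ∃ c : ℂ, ρ a v = c • v := by
  intro n
  induction n using Nat.strong_induction_on with
  | _ n ih =>
    intro V hfd hn hV hinv
    by_cases hsc : ∀ a, ∃ c : ℂ, ∀ x ∈ V, ρ a x = c • x
    · obtain ⟨v, hv, hv0⟩ := Submodule.exists_mem_ne_zero_of_ne_bot hV
      exact ⟨v, hv, hv0, fun a => ⟨(hsc a).choose, (hsc a).choose_spec v hv⟩⟩
    · push Not at hsc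
      obtain ⟨a, ha⟩ := hsc
      have hnt : Nontrivial V := Submodule.nontrivial_iff_ne_bot.mpr hV
      obtain ⟨c, hc⟩ := Module.End.exists_eigenvalue ((ρ a).restrict (hinv a))
      obtain ⟨⟨v, hvV⟩, hv⟩ := hc.exists_hasEigenvector
      have hv1 : ρ a v = c • v := by
        have := hv.apply_eq_smul
        have h2 := congrArg Subtype.val this
        simpa using h2
      have hv0 : v ≠ 0 := by
        intro h
        exact hv.2 (Subtype.ext h)
      set W : Submodule ℂ M := V ⊓ LinearMap.ker (ρ a - c • LinearMap.id) with hW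
      have hmemW : ∀ x, x ∈ W ↔ x ∈ V ∧ ρ a x = c • x := by
        intro x
        rw [hW, Submodule.mem_inf, LinearMap.mem_ker]
        simp [sub_eq_zero]
      have hWV : W ≤ V := inf_le_left
      have hWlt : W < V := by
        refine lt_of_le_of_ne hWV ?_
        intro h
        obtain ⟨x, hx, hx2⟩ := ha c
        exact hx2 ((hmemW x).mp (h ▸ hx)).2
      have hWfd : FiniteDimensional ℂ W := Submodule.finiteDimensional_of_le hWV
      have hlt : Module.finrank ℂ W < n := hn ▸ Submodule.finrank_lt_finrank_of_lt hWlt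
      have hWbot : W ≠ ⊥ := by
        intro h
        have : v ∈ W := (hmemW v).mpr ⟨hvV, hv1⟩
        rw [h, Submodule.mem_bot] at this
        exact hv0 this
      have hWinv : ∀ b, ∀ x ∈ W, ρ b x ∈ W := by
        intro b x hx
        rw [hmemW] at hx ⊢
        refine ⟨hinv b x hx.1, ?_⟩
        rw [hρ, hx.2, map_smul]
      obtain ⟨u, hu, hu0, hu2⟩ := ih _ hlt W hWfd rfl hWbot hWinv
      exact ⟨u, hWV hu, hu0, hu2⟩

end CommonEigenvector

section Conv

variable {Q : Type*} [TopologicalSpace Q] [CompactSpace Q] [MeasurableSpace Q] [BorelSpace Q]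

theorem chars_integrable (μ : Measure Q) [IsFiniteMeasure μ] {E : Type*} [NormedAddCommGroup E]
    [SecondCountableTopologyEither Q E] {f : Q → E} (hf : Continuous f) : Integrable f μ :=
  hf.integrable_of_hasCompactSupport (HasCompactSupport.of_compactSpace f)

/-- integration as a functional on `C(Q, ℂ)` -/
noncomputable def charsInt (μ : Measure Q) [IsFiniteMeasure μ] : C(Q, ℂ) →L[ℂ] ℂ :=
  LinearMap.mkContinuous
    { toFun := fun f => ∫ y, f y ∂μ
      map_add' := fun f g => integral_add (chars_integrable μ f.continuous)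
        (chars_integrable μ g.continuous)
      map_smul' := fun c f => integral_smul c _ } (μ.real univ) (by
    intro f
    simp only [LinearMap.coe_mk, AddHom.coe_mk]
    rw [mul_comm]
    exact norm_integral_le_of_norm_le_const (Eventually.of_forall fun x => f.norm_coe_le_norm x))

theorem charsInt_apply (μ : Measure Q) [IsFiniteMeasure μ] (f : C(Q, ℂ)) :
    charsInt μ f = ∫ y, f y ∂μ := rfl

/-- the integral operator with kernel `H` -/
noncomputable def charsT (μ : Measure Q) [IsFiniteMeasure μ] (H : C(Q, C(Q, ℂ))) :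
    C(Q, ℂ) →L[ℂ] C(Q, ℂ) :=
  LinearMap.mkContinuous
    { toFun := fun f => ⟨fun x => charsInt μ (H x * f),
        (charsInt μ).continuous.comp (H.continuous.mul continuous_const)⟩
      map_add' := fun f g => by
        ext x
        simp [mul_add]
      map_smul' := fun c f => by
        ext x
        simp } (‖charsInt μ‖ * ‖H‖) (by
    intro f
    rw [ContinuousMap.norm_le _ (by positivity)]
    intro x
    calc ‖charsInt μ (H x * f)‖ ≤ ‖charsInt μ‖ * ‖H x * f‖ := (charsInt μ).le_opNorm _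
      _ ≤ ‖charsInt μ‖ * (‖H x‖ * ‖f‖) := by gcongr; exact norm_mul_le _ _
      _ ≤ ‖charsInt μ‖ * (‖H‖ * ‖f‖) := by gcongr; exact H.norm_coe_le_norm x
      _ = _ := by ring)

theorem charsT_apply (μ : Measure Q) [IsFiniteMeasure μ] (H : C(Q, C(Q, ℂ))) (f : C(Q, ℂ))
    (x : Q) : charsT μ H f x = charsInt μ (H x * f) := rfl

theorem charsT_apply' (μ : Measure Q) [IsFiniteMeasure μ] (H : C(Q, C(Q, ℂ))) (f : C(Q, ℂ))
    (x : Q) : charsT μ H f x = ∫ y, H x y * f y ∂μ := rfl

theorem charsT_compact (μ : Measure Q) [IsFiniteMeasure μ] (H : C(Q, C(Q, ℂ))) :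
    IsCompactOperator (charsT μ H) := by
  rw [isCompactOperator_iff_exists_mem_nhds_image_subset_compact]
  refine ⟨ball 0 1, ball_mem_nhds _ one_pos, ?_⟩
  set e := ContinuousMap.equivBoundedOfCompact Q ℂ with he
  set A : Set (BoundedContinuousFunction Q ℂ) := (fun f => e (charsT μ H f)) '' ball 0 1 with hA
  have hcA : IsCompact (closure A) := by
    apply BoundedContinuousFunction.arzela_ascoli (closedBall (0 : ℂ) ‖charsT μ H‖)
      (isCompact_closedBall _ _)
    · rintro _ x ⟨f, hf, rfl⟩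
      rw [mem_closedBall, dist_zero_right]
      rw [mem_ball, dist_zero_right] at hf
      calc ‖charsT μ H f x‖ ≤ ‖charsT μ H f‖ := ContinuousMap.norm_coe_le_norm _ x
        _ ≤ ‖charsT μ H‖ * ‖f‖ := (charsT μ H).le_opNorm f
        _ ≤ ‖charsT μ H‖ * 1 := by gcongr
        _ = _ := mul_one _
    · intro x₀
      rw [Metric.equicontinuousAt_iff_right]
      intro ε hε
      have hC : 0 < ‖charsInt μ‖ + 1 := by positivity
      have hcont := H.continuous.tendsto x₀
      rw [Metric.tendsto_nhds] at hcont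
      filter_upwards [hcont (ε / (‖charsInt μ‖ + 1)) (by positivity)] with x hx
      rintro ⟨_, f, hf, rfl⟩
      rw [mem_ball, dist_zero_right] at hf
      show dist (charsT μ H f x₀) (charsT μ H f x) < ε
      rw [dist_comm, dist_eq_norm, charsT_apply, charsT_apply, ← map_sub, ← sub_mul]
      rw [dist_eq_norm] at hx
      calc ‖charsInt μ ((H x - H x₀) * f)‖ ≤ ‖charsInt μ‖ * ‖(H x - H x₀) * f‖ :=
            (charsInt μ).le_opNorm _
        _ ≤ ‖charsInt μ‖ * (‖H x - H x₀‖ * ‖f‖) := by gcongr; exact norm_mul_le _ _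
        _ ≤ ‖charsInt μ‖ * (‖H x - H x₀‖ * 1) := by gcongr
        _ ≤ (‖charsInt μ‖ + 1) * ‖H x - H x₀‖ := by nlinarith [norm_nonneg (H x - H x₀)]
        _ < (‖charsInt μ‖ + 1) * (ε / (‖charsInt μ‖ + 1)) := by gcongr
        _ = ε := by field_simp
  refine ⟨e.symm '' closure A, ?_, ?_⟩
  · apply hcA.image
    exact (ContinuousMap.isometryEquivBoundedOfCompact Q ℂ).symm.continuous
  · rintro _ ⟨f, hf, rfl⟩
    exact ⟨e (charsT μ H f), subset_closure ⟨f, hf, rfl⟩, by simp⟩

theorem chars_symm (μ : Measure Q) [IsFiniteMeasure μ] (H : C(Q, C(Q, ℂ)))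
    (hHc : Continuous fun p : Q × Q => H p.1 p.2)
    (hH : ∀ x y, H x y = (starRingEnd ℂ) (H y x)) (f g : C(Q, ℂ)) :
    ∫ x, charsT μ H f x * (starRingEnd ℂ) (g x) ∂μ =
      ∫ x, f x * (starRingEnd ℂ) (charsT μ H g x) ∂μ := by
  have h1 : ∀ x, charsT μ H f x * (starRingEnd ℂ) (g x) =
      ∫ y, H x y * f y * (starRingEnd ℂ) (g x) ∂μ := by
    intro x
    rw [charsT_apply', integral_mul_const]
  have h2 : ∀ y, f y * (starRingEnd ℂ) (charsT μ H g y) =
      ∫ x, H x y * f y * (starRingEnd ℂ) (g x) ∂μ := by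
    intro y
    rw [charsT_apply', ← integral_conj, ← integral_const_mul]
    congr 1
    funext x
    rw [map_mul, ← hH x y]
    ring
  simp_rw [h1, h2]
  apply integral_integral_swap_of_hasCompactSupport
  · have c1 : Continuous fun p : Q × Q => f p.2 := f.continuous.comp continuous_snd
    have c2 : Continuous fun p : Q × Q => (starRingEnd ℂ) (g p.1) :=
      Complex.continuous_conj.comp (g.continuous.comp continuous_fst)
    exact (hHc.mul c1).mul c2
  · exact HasCompactSupport.of_compactSpace _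

/-- the square of the `L²` norm -/
noncomputable def charsN (μ : Measure Q) (f : C(Q, ℂ)) : ℝ := ∫ x, ‖f x‖ ^ 2 ∂μ

omit [CompactSpace Q] [BorelSpace Q] in
theorem charsN_nonneg (μ : Measure Q) (f : C(Q, ℂ)) : 0 ≤ charsN μ f :=
  integral_nonneg fun x => by positivity

theorem chars_cauchy_schwarz (μ : Measure Q) [IsFiniteMeasure μ] (f g : C(Q, ℂ)) :
    (∫ x, ‖f x‖ * ‖g x‖ ∂μ) ^ 2 ≤ charsN μ f * charsN μ g := by
  have h1 : ∀ t : ℝ, 0 ≤ charsN μ g * (t * t) + (-2 * ∫ x, ‖f x‖ * ‖g x‖ ∂μ) * t + charsN μ f := by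
    intro t
    have h2 : 0 ≤ ∫ x, (‖f x‖ - t * ‖g x‖) ^ 2 ∂μ := integral_nonneg fun x => by positivity
    have h3 : ∫ x, (‖f x‖ - t * ‖g x‖) ^ 2 ∂μ =
        charsN μ g * (t * t) + (-2 * ∫ x, ‖f x‖ * ‖g x‖ ∂μ) * t + charsN μ f := by
      have e : ∀ x, (‖f x‖ - t * ‖g x‖) ^ 2 =
          (t * t) * ‖g x‖ ^ 2 + (-2 * t) * (‖f x‖ * ‖g x‖) + ‖f x‖ ^ 2 := by
        intro x; ring
      simp_rw [e]
      have c1 : Continuous fun x => (t * t) * ‖g x‖ ^ 2 := by fun_prop
      have c2 : Continuous fun x => (-2 * t) * (‖f x‖ * ‖g x‖) := by fun_prop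
      have c3 : Continuous fun x => ‖f x‖ ^ 2 := by fun_prop
      have c4 : Continuous fun x => (t * t) * ‖g x‖ ^ 2 + (-2 * t) * (‖f x‖ * ‖g x‖) := by
        fun_prop
      rw [integral_add (chars_integrable μ c4) (chars_integrable μ c3),
        integral_add (chars_integrable μ c1) (chars_integrable μ c2), integral_const_mul,
        integral_const_mul]
      unfold charsN
      ring
    rwa [h3] at h2
  have h4 := discrim_le_zero h1
  unfold discrim at h4
  nlinarith

omit [BorelSpace Q] in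
theorem charsN_le (μ : Measure Q) [IsFiniteMeasure μ] (f : C(Q, ℂ)) :
    charsN μ f ≤ ‖f‖ ^ 2 * μ.real univ := by
  have h1 : ‖charsN μ f‖ ≤ ‖f‖ ^ 2 * μ.real univ := by
    apply norm_integral_le_of_norm_le_const
    apply Eventually.of_forall
    intro x
    rw [norm_pow, norm_norm]
    gcongr
    exact f.norm_coe_le_norm x
  exact (le_abs_self _).trans h1

theorem charsN_logconvex (μ : Measure Q) [IsFiniteMeasure μ] (H : C(Q, C(Q, ℂ)))
    (hHc : Continuous fun p : Q × Q => H p.1 p.2)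
    (hH : ∀ x y, H x y = (starRingEnd ℂ) (H y x)) (f : C(Q, ℂ)) :
    charsN μ (charsT μ H f) ^ 2 ≤ charsN μ f * charsN μ (charsT μ H (charsT μ H f)) := by
  have h1 := chars_symm μ H hHc hH f (charsT μ H f)
  have h2 : ((charsN μ (charsT μ H f) : ℝ) : ℂ) =
      ∫ x, charsT μ H f x * (starRingEnd ℂ) (charsT μ H f x) ∂μ := by
    unfold charsN
    rw [← integral_complex_ofReal]
    congr 1
    funext x
    rw [Complex.mul_conj, Complex.normSq_eq_norm_sq]
  have h3 : charsN μ (charsT μ H f) ≤ ∫ x, ‖f x‖ * ‖charsT μ H (charsT μ H f) x‖ ∂μ := by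
    have h4 : ‖((charsN μ (charsT μ H f) : ℝ) : ℂ)‖ = charsN μ (charsT μ H f) := by
      rw [Complex.norm_real, Real.norm_of_nonneg (charsN_nonneg _ _)]
    rw [← h4, h2, h1]
    refine (norm_integral_le_integral_norm _).trans (le_of_eq ?_)
    congr 1
    funext x
    rw [norm_mul, RCLike.norm_conj]
  calc charsN μ (charsT μ H f) ^ 2 ≤ (∫ x, ‖f x‖ * ‖charsT μ H (charsT μ H f) x‖ ∂μ) ^ 2 :=
        pow_le_pow_left₀ (charsN_nonneg _ _) h3 2
    _ ≤ _ := chars_cauchy_schwarz μ f _

theorem charsT_spectralRadius_ne_zero (μ : Measure Q) [IsFiniteMeasure μ] (H : C(Q, C(Q, ℂ)))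
    (hHc : Continuous fun p : Q × Q => H p.1 p.2)
    (hH : ∀ x y, H x y = (starRingEnd ℂ) (H y x)) (f : C(Q, ℂ)) (hf0 : 0 < charsN μ f)
    (hf1 : 0 < charsN μ (charsT μ H f)) : spectralRadius ℂ (charsT μ H) ≠ 0 := by
  set T := charsT μ H with hT
  set r := charsN μ (T f) / charsN μ f with hr
  have hrpos : 0 < r := div_pos hf1 hf0
  have hstep : ∀ n : ℕ, 0 < charsN μ ((T ^ n) f) ∧
      r * charsN μ ((T ^ n) f) ≤ charsN μ ((T ^ (n + 1)) f) := by
    intro n
    induction n with
    | zero =>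
      simp only [pow_zero, one_apply_eq_self, zero_add, pow_one]
      refine ⟨hf0, ?_⟩
      rw [hr, div_mul_cancel₀ _ hf0.ne']
    | succ n ih =>
      obtain ⟨h1, h2⟩ := ih
      have h3 : 0 < charsN μ ((T ^ (n + 1)) f) := lt_of_lt_of_le (mul_pos hrpos h1) h2
      refine ⟨h3, ?_⟩
      have h4 := charsN_logconvex μ H hHc hH ((T ^ n) f)
      have e1 : charsT μ H ((T ^ n) f) = (T ^ (n + 1)) f := by
        rw [pow_succ']; rfl
      have e2 : charsT μ H ((T ^ (n + 1)) f) = (T ^ (n + 1 + 1)) f := by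
        rw [pow_succ' T (n + 1)]; rfl
      rw [e1, e2] at h4
      have h5 : r * charsN μ ((T ^ (n + 1)) f) * charsN μ ((T ^ n) f) ≤
          charsN μ ((T ^ (n + 1 + 1)) f) * charsN μ ((T ^ n) f) := by
        calc r * charsN μ ((T ^ (n + 1)) f) * charsN μ ((T ^ n) f)
            = charsN μ ((T ^ (n + 1)) f) * (r * charsN μ ((T ^ n) f)) := by ring
          _ ≤ charsN μ ((T ^ (n + 1)) f) * charsN μ ((T ^ (n + 1)) f) := by gcongr
          _ = charsN μ ((T ^ (n + 1)) f) ^ 2 := by ring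
          _ ≤ _ := h4
          _ = _ := by ring
      exact le_of_mul_le_mul_right h5 h1
  have hlow : ∀ n : ℕ, r ^ n * charsN μ f ≤ charsN μ ((T ^ n) f) := by
    intro n
    induction n with
    | zero => simp
    | succ n ih =>
      calc r ^ (n + 1) * charsN μ f = r * (r ^ n * charsN μ f) := by ring
        _ ≤ r * charsN μ ((T ^ n) f) := by gcongr
        _ ≤ _ := (hstep n).2
  intro hzero
  have hG := spectrum.pow_norm_pow_one_div_tendsto_nhds_spectralRadius T
  rw [hzero] at hG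
  have hsr : 0 < √r / 2 := by positivity
  have hev1 := hG.eventually_lt_const (ENNReal.ofReal_pos.mpr hsr)
  have hev2 : ∀ᶠ n : ℕ in atTop,
      ‖f‖ ^ 2 * μ.real univ * ((1 : ℝ) / 4) ^ n < charsN μ f := by
    have : Tendsto (fun n : ℕ => ‖f‖ ^ 2 * μ.real univ * ((1 : ℝ) / 4) ^ n) atTop
        (𝓝 (‖f‖ ^ 2 * μ.real univ * 0)) :=
      (tendsto_pow_atTop_nhds_zero_of_lt_one (by norm_num) (by norm_num)).const_mul _
    rw [mul_zero] at this
    exact this.eventually_lt_const hf0
  obtain ⟨n, h1, h2, hn⟩ := (hev1.and (hev2.and (eventually_ge_atTop 1))).exists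
  have hn0 : (n : ℝ) ≠ 0 := by positivity
  rw [ENNReal.ofReal_lt_ofReal_iff hsr] at h1
  have h3 : ‖T ^ n‖ < (√r / 2) ^ n := by
    have h4 : (‖T ^ n‖ ^ (1 / (n : ℝ))) ^ n < (√r / 2) ^ n :=
      pow_lt_pow_left₀ h1 (by positivity) (by omega)
    rwa [← Real.rpow_natCast, ← Real.rpow_mul (norm_nonneg _), one_div, inv_mul_cancel₀ hn0,
      Real.rpow_one] at h4
  have h5 : charsN μ ((T ^ n) f) ≤ ‖f‖ ^ 2 * μ.real univ * (r / 4) ^ n := by
    calc charsN μ ((T ^ n) f) ≤ ‖(T ^ n) f‖ ^ 2 * μ.real univ := charsN_le μ _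
      _ ≤ (‖T ^ n‖ * ‖f‖) ^ 2 * μ.real univ := by
          gcongr
          exact (T ^ n).le_opNorm f
      _ ≤ ((√r / 2) ^ n * ‖f‖) ^ 2 * μ.real univ := by gcongr
      _ = ‖f‖ ^ 2 * μ.real univ * ((√r / 2) ^ 2) ^ n := by
          rw [← pow_mul, mul_comm 2 n, pow_mul, mul_pow]
          ring
      _ = ‖f‖ ^ 2 * μ.real univ * (r / 4) ^ n := by
          congr 2
          rw [div_pow, Real.sq_sqrt hrpos.le]
          norm_num
  have h6 := (hlow n).trans h5
  have h7 : ‖f‖ ^ 2 * μ.real univ * (r / 4) ^ n =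
      r ^ n * (‖f‖ ^ 2 * μ.real univ * ((1 : ℝ) / 4) ^ n) := by
    rw [div_eq_mul_one_div r 4, mul_pow]
    ring
  rw [h7] at h6
  have h8 := le_of_mul_le_mul_left h6 (pow_pos hrpos n)
  linarith

theorem charsT_exists_eigen (μ : Measure Q) [IsFiniteMeasure μ] (H : C(Q, C(Q, ℂ)))
    (hHc : Continuous fun p : Q × Q => H p.1 p.2)
    (hH : ∀ x y, H x y = (starRingEnd ℂ) (H y x)) (f : C(Q, ℂ)) (hf0 : 0 < charsN μ f)
    (hf1 : 0 < charsN μ (charsT μ H f)) :
    ∃ c : ℂ, c ≠ 0 ∧ (Module.End.eigenspace (charsT μ H : Module.End ℂ C(Q, ℂ)) c) ≠ ⊥ ∧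
      FiniteDimensional ℂ (Module.End.eigenspace (charsT μ H : Module.End ℂ C(Q, ℂ)) c) := by
  have hne := charsT_spectralRadius_ne_zero μ H hHc hH f hf0 hf1
  have hnt : Nontrivial C(Q, ℂ) := by
    refine ⟨f, 0, ?_⟩
    rintro rfl
    simp [charsN] at hf0
  obtain ⟨c, hc, hc2⟩ := spectrum.exists_nnnorm_eq_spectralRadius (charsT μ H)
  have hc0 : c ≠ 0 := by
    rintro rfl
    simp only [nnnorm_zero, ENNReal.coe_zero] at hc2
    exact hne hc2.symm
  have hcomp := charsT_compact μ H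
  have hev := (hcomp.hasEigenvalue_iff_mem_spectrum hc0).mpr hc
  refine ⟨c, hc0, Module.End.hasEigenvalue_iff.mp hev, ?_⟩
  have hT := hcomp.restrict' ((Module.End.mem_invtSubmodule_iff_forall_mem_of_mem _).mp
    (Module.End.eigenspace_mem_invtSubmodule (charsT μ H : Module.End ℂ C(Q, ℂ)) c))
  rw [Module.End.restrict_eigenspace, LinearMap.coe_smul, IsCompactOperator.smul_iff₀ hc0] at hT
  rwa [← isCompactOperator_id_iff_finiteDimensional]

theorem charsN_pos (μ : Measure Q) [IsFiniteMeasure μ] [μ.IsOpenPosMeasure] (g : C(Q, ℂ))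
    (x₀ : Q) (hg : g x₀ ≠ 0) : 0 < charsN μ g := by
  apply Continuous.integral_pos_of_hasCompactSupport_nonneg_nonzero (x := x₀)
  · fun_prop
  · exact HasCompactSupport.of_compactSpace _
  · intro x
    positivity
  · positivity

end Conv

/-- translation by `a` on `C(Q, ℂ)` -/
noncomputable def charsR {Q : Type*} [Group Q] [TopologicalSpace Q] [IsTopologicalGroup Q] (a : Q) :
    C(Q, ℂ) →ₗ[ℂ] C(Q, ℂ) where
  toFun f := f.comp ⟨fun x => x * a, by fun_prop⟩
  map_add' f g := rfl
  map_smul' c f := rfl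

theorem charsR_apply {Q : Type*} [Group Q] [TopologicalSpace Q] [IsTopologicalGroup Q] (a : Q)
    (f : C(Q, ℂ)) (x : Q) : charsR a f x = f (x * a) := rfl

theorem exists_character {Q : Type*} [Group Q] [TopologicalSpace Q] [IsTopologicalGroup Q]
    [CompactSpace Q] [T2Space Q] (hcomm : ∀ a b : Q, a * b = b * a) (q : Q) (hq : q ≠ 1) :
    ∃ χ : Q →* Circle, Continuous χ ∧ χ q ≠ 1 := by
  let _ : MeasurableSpace Q := borel Q
  have _ : BorelSpace Q := ⟨rfl⟩
  set μ : Measure Q := Measure.haar with hμ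
  -- the kernel
  obtain ⟨v, hv0, hv1, -⟩ := exists_continuous_zero_one_of_isClosed (X := Q)
    (s := {q, q⁻¹}) (t := {1}) (Set.toFinite _).isClosed isClosed_singleton (by
      rw [Set.disjoint_singleton_right, Set.mem_insert_iff, Set.mem_singleton_iff, not_or]
      refine ⟨hq.symm, fun h => hq ?_⟩
      rw [eq_comm, inv_eq_one] at h
      exact h)
  have hvq : v q = 0 := hv0 (by simp)
  have hvq' : v q⁻¹ = 0 := hv0 (by simp)
  have hv1' : v 1 = 1 := hv1 (by simp)
  set u : Q → ℝ := fun x => v x + v x⁻¹ with hu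
  have hucont : Continuous u := by fun_prop
  set h : Q → ℝ := fun x => 2 * u x - u (q * x) - u (q⁻¹ * x) with hh
  have hhcont : Continuous h := by fun_prop
  have husymm : ∀ x, u x⁻¹ = u x := by
    intro x
    simp only [hu, inv_inv]
    ring
  have hhsymm : ∀ x, h x⁻¹ = h x := by
    intro x
    simp only [hh]
    rw [husymm x]
    have e1 : u (q * x⁻¹) = u (q⁻¹ * x) := by
      rw [← husymm, mul_inv_rev, inv_inv, hcomm]
    have e2 : u (q⁻¹ * x⁻¹) = u (q * x) := by
      rw [← husymm, mul_inv_rev, inv_inv, inv_inv, hcomm]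
    rw [e1, e2]
    ring
  have hh1 : h 1 = 4 := by
    simp only [hh, hu, mul_one, inv_one, inv_inv, hvq, hvq', hv1']
    norm_num
  set k : C(Q × Q, ℂ) := ⟨fun p => ((h (p.1 * p.2⁻¹) : ℝ) : ℂ), by fun_prop⟩ with hk
  set H : C(Q, C(Q, ℂ)) := k.curry with hH
  have hHapp : ∀ x y, H x y = ((h (x * y⁻¹) : ℝ) : ℂ) := fun x y => rfl
  have hHc : Continuous fun p : Q × Q => H p.1 p.2 := k.continuous
  have hHs : ∀ x y, H x y = (starRingEnd ℂ) (H y x) := by
    intro x y
    rw [hHapp, hHapp, Complex.conj_ofReal, ← hhsymm, mul_inv_rev, inv_inv]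
  set f₀ : C(Q, ℂ) := ⟨fun y => ((h y : ℝ) : ℂ), by fun_prop⟩ with hf₀
  have hf₀N : 0 < charsN μ f₀ := charsN_pos μ f₀ 1 (by
    simp [hf₀, hh1])
  have hTf₀ : charsT μ H f₀ 1 = ((charsN μ f₀ : ℝ) : ℂ) := by
    rw [charsT_apply']
    unfold charsN
    rw [← integral_complex_ofReal]
    congr 1
    funext y
    rw [hHapp, one_mul, hhsymm]
    simp only [hf₀, ContinuousMap.coe_mk, Complex.norm_real, Real.norm_eq_abs, sq_abs]
    push_cast
    ring
  have hTN : 0 < charsN μ (charsT μ H f₀) := charsN_pos μ _ 1 (by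
    rw [hTf₀]
    exact_mod_cast hf₀N.ne')
  obtain ⟨c₀, hc₀, hbot, hfd⟩ := charsT_exists_eigen μ H hHc hHs f₀ hf₀N hTN
  -- translations
  have hcommT : ∀ a (f : C(Q, ℂ)), charsT μ H (charsR a f) = charsR a (charsT μ H f) := by
    intro a f
    ext x
    rw [charsR_apply, charsT_apply', charsT_apply']
    rw [← integral_mul_left_eq_self (μ := μ) (fun y => H (x * a) y * f y) a]
    congr 1
    funext y
    rw [hHapp, hHapp, charsR_apply, hcomm y a]
    congr 3
    rw [mul_inv_rev, mul_assoc, hcomm y⁻¹ a⁻¹, mul_inv_cancel_left]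
  obtain ⟨φ, hφV, hφ0, hφ⟩ := chars_common_eigenvector (M := C(Q, ℂ)) (fun a : Q => charsR a) (by
      intro a b f
      ext x
      simp only [charsR_apply]
      rw [mul_assoc, mul_assoc, hcomm a b]) _
    (Module.End.eigenspace (charsT μ H : Module.End ℂ C(Q, ℂ)) c₀) hfd rfl hbot (by
      intro a f hf
      rw [Module.End.mem_eigenspace_iff] at hf ⊢
      have hf' : charsT μ H f = c₀ • f := hf
      show charsT μ H (charsR a f) = c₀ • charsR a f
      rw [hcommT, hf', map_smul])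
  choose c hc using hφ
  have hφc : ∀ x a, φ (x * a) = c a * φ x := by
    intro x a
    have := DFunLike.congr_fun (hc a) x
    rw [charsR_apply] at this
    simpa using this
  have hφT : charsT μ H φ = c₀ • φ := by
    rw [Module.End.mem_eigenspace_iff] at hφV
    exact hφV
  have hφ1 : φ 1 ≠ 0 := by
    intro h0
    apply hφ0
    ext a
    have := hφc 1 a
    rw [one_mul, h0, mul_zero] at this
    simpa using this
  have hcval : ∀ a, c a = φ a / φ 1 := by
    intro a
    have := hφc 1 a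
    rw [one_mul] at this
    rw [this]
    field_simp
  have hccont : Continuous c := by
    have : c = fun a => φ a / φ 1 := funext hcval
    rw [this]
    exact φ.continuous.div_const _
  have hc1 : c 1 = 1 := by rw [hcval]; field_simp
  have hcmul : ∀ a b, c (a * b) = c a * c b := by
    intro a b
    rw [hcval (a * b), hφc, hcval a]
    field_simp
  have hcpow : ∀ a (n : ℕ), c (a ^ n) = c a ^ n := by
    intro a n
    induction n with
    | zero => simp [hc1]
    | succ n ih => rw [pow_succ, hcmul, ih, pow_succ]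
  have hcle : ∀ a, ‖c a‖ ≤ 1 := by
    intro a
    by_contra hcon
    push Not at hcon
    have htend := tendsto_pow_atTop_atTop_of_one_lt hcon
    obtain ⟨n, hn⟩ := (htend.eventually_gt_atTop ‖(⟨c, hccont⟩ : C(Q, ℂ))‖).exists
    have h2 := (⟨c, hccont⟩ : C(Q, ℂ)).norm_coe_le_norm (a ^ n)
    rw [ContinuousMap.coe_mk, hcpow, norm_pow] at h2
    linarith
  have hcnorm : ∀ a, ‖c a‖ = 1 := by
    intro a
    apply le_antisymm (hcle a)
    have h2 : ‖c a‖ * ‖c a⁻¹‖ = 1 := by
      rw [← norm_mul, ← hcmul, mul_inv_cancel, hc1, norm_one]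
    nlinarith [hcle a, hcle a⁻¹, norm_nonneg (c a), norm_nonneg (c a⁻¹)]
  have hcq : c q ≠ 1 := by
    intro hcq
    have hcq' : c q⁻¹ = 1 := by
      have : c q * c q⁻¹ = 1 := by rw [← hcmul, mul_inv_cancel, hc1]
      rw [hcq, one_mul] at this
      exact this
    have hzero : ∀ x, charsT μ H φ x = 0 := by
      intro x
      rw [charsT_apply']
      have e0 : ∀ y, H x y * φ y = 2 * (((u (x * y⁻¹) : ℝ) : ℂ) * φ y) -
          ((u (q * (x * y⁻¹)) : ℝ) : ℂ) * φ y - ((u (q⁻¹ * (x * y⁻¹)) : ℝ) : ℂ) * φ y := by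
        intro y
        rw [hHapp]
        simp only [hh]
        push_cast
        ring
      have i1 : Continuous fun y => 2 * (((u (x * y⁻¹) : ℝ) : ℂ) * φ y) := by fun_prop
      have i2 : Continuous fun y => ((u (q * (x * y⁻¹)) : ℝ) : ℂ) * φ y := by fun_prop
      have i3 : Continuous fun y => ((u (q⁻¹ * (x * y⁻¹)) : ℝ) : ℂ) * φ y := by fun_prop
      have i12 : Continuous fun y => 2 * (((u (x * y⁻¹) : ℝ) : ℂ) * φ y) -
          ((u (q * (x * y⁻¹)) : ℝ) : ℂ) * φ y := by fun_prop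
      simp_rw [e0]
      rw [integral_sub (chars_integrable μ i12) (chars_integrable μ i3),
        integral_sub (chars_integrable μ i1) (chars_integrable μ i2), integral_const_mul]
      have e1 : ∫ y, ((u (q * (x * y⁻¹)) : ℝ) : ℂ) * φ y ∂μ =
          ∫ y, ((u (x * y⁻¹) : ℝ) : ℂ) * φ y ∂μ := by
        rw [← integral_mul_left_eq_self (μ := μ) (fun y => ((u (q * (x * y⁻¹)) : ℝ) : ℂ) * φ y) q]
        congr 1
        funext y
        rw [hcomm q y, hφc, hcq, one_mul]
        congr 3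
        rw [mul_inv_rev, hcomm q, mul_assoc, hcomm q⁻¹, mul_assoc, inv_mul_cancel, mul_one]
      have e2 : ∫ y, ((u (q⁻¹ * (x * y⁻¹)) : ℝ) : ℂ) * φ y ∂μ =
          ∫ y, ((u (x * y⁻¹) : ℝ) : ℂ) * φ y ∂μ := by
        rw [← integral_mul_left_eq_self (μ := μ)
          (fun y => ((u (q⁻¹ * (x * y⁻¹)) : ℝ) : ℂ) * φ y) q⁻¹]
        congr 1
        funext y
        rw [hcomm q⁻¹ y, hφc, hcq', one_mul]
        congr 3
        rw [mul_inv_rev, inv_inv, hcomm q⁻¹, mul_assoc, hcomm q, mul_assoc, mul_inv_cancel,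
          mul_one]
      rw [e1, e2]
      ring
    have h2 := hzero 1
    rw [hφT] at h2
    simp only [ContinuousMap.coe_smul, Pi.smul_apply, smul_eq_mul, mul_eq_zero] at h2
    exact h2.elim hc₀ hφ1
  refine ⟨{ toFun := fun a => ⟨c a, by simp [Submonoid.unitSphere, hcnorm a]⟩
            map_one' := Circle.ext hc1
            map_mul' := fun a b => Circle.ext (hcmul a b) }, ?_, ?_⟩
  · exact Continuous.subtype_mk hccont _
  · intro h1
    apply hcq
    have h2 := congrArg (fun z : Circle => (z : ℂ)) h1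
    exact h2

end Pool.Agent.Lib.MP_35c333_an
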