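import Mathlib

set_option autoImplicit false

/-! Parry's eigenfunction argument, in topological form. -/

namespace Pool.Agent.Lib.MP_35c333_an

open Topology Filter
open scoped Pointwise commutatorElement

private lemma parryEig_dist (a b : Circle) : dist a b = ‖(a : ℂ) - (b : ℂ)‖ := by
  rw [← Complex.dist_eq]; rfl

/-- No small subgroups in the circle. -/
private lemma parryEig_small (c : Circle) (h : ∀ n : ℕ, dist (c ^ n) 1 ≤ 1 / 2) : c = 1 := by
  by_contra hc
  have h0 : 0 < dist c 1 := dist_pos.mpr hc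
  have hstep : ∀ k : ℕ, (3 / 2 : ℝ) ^ k * dist c 1 ≤ dist (c ^ (2 ^ k)) 1 := by
    intro k
    induction k with
    | zero => simp
    | succ k ih =>
      set d : Circle := c ^ (2 ^ k) with hd
      have h1 : c ^ (2 ^ (k + 1)) = d ^ 2 := by
        rw [hd, ← pow_mul, pow_succ]
      have h2 : dist (d ^ 2) 1 = dist d 1 * ‖(d : ℂ) + 1‖ := by
        rw [parryEig_dist, parryEig_dist, ← norm_mul]
        congr 1
        push_cast
        ring
      have h3 : (3 / 2 : ℝ) ≤ ‖(d : ℂ) + 1‖ := by
        have h4 : dist d 1 ≤ 1 / 2 := h _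
        rw [parryEig_dist] at h4
        have h5 : ‖(2 : ℂ)‖ ≤ ‖(d : ℂ) + 1‖ + ‖(d : ℂ) - 1‖ := by
          have : (2 : ℂ) = ((d : ℂ) + 1) - ((d : ℂ) - 1) := by ring
          rw [this]
          exact norm_sub_le _ _
        have h6 : ‖(2 : ℂ)‖ = 2 := by simp
        have h7 : ((1 : Circle) : ℂ) = 1 := by simp
        rw [h7] at h4
        linarith
      rw [h1, h2]
      calc (3 / 2 : ℝ) ^ (k + 1) * dist c 1 = ((3 / 2 : ℝ) ^ k * dist c 1) * (3 / 2) := by ring
        _ ≤ dist d 1 * ‖(d : ℂ) + 1‖ :=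
            mul_le_mul ih h3 (by norm_num) dist_nonneg
  obtain ⟨k, hk⟩ := pow_unbounded_of_one_lt (1 / dist c 1) (by norm_num : (1 : ℝ) < 3 / 2)
  have h1 := hstep k
  have h2 := h (2 ^ k)
  have h3 : 1 < (3 / 2 : ℝ) ^ k * dist c 1 := by
    rw [div_lt_iff₀ h0] at hk
    exact hk
  linarith

private lemma parryEig_dist_div (a b : Circle) (r : ℝ) (ha : dist a 1 ≤ r) (hb : dist b 1 ≤ r) :
    dist (a / b) 1 ≤ 2 * r := by
  have h1 : dist (a / b) 1 = dist a b := by
    rw [parryEig_dist, parryEig_dist]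
    have e : (a : ℂ) - (b : ℂ) = (((a / b : Circle) : ℂ) - ((1 : Circle) : ℂ)) * (b : ℂ) := by
      have e1 : (a : ℂ) = ((a / b : Circle) : ℂ) * (b : ℂ) := by
        rw [← Circle.coe_mul, div_mul_cancel]
      rw [sub_mul, ← e1]
      simp
    rw [e, norm_mul, Circle.norm_coe, mul_one]
  rw [h1]
  calc dist a b ≤ dist a 1 + dist 1 b := dist_triangle _ _ _
    _ ≤ r + r := by
      rw [dist_comm 1 b]
      exact add_le_add ha hb
    _ = 2 * r := by ring

/-- The iterated commutators. -/
private def parryEigE {G : Type*} [Group G] (E Hh : Subgroup G) : ℕ → Subgroup G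
  | 0 => E
  | (j + 1) => ⁅parryEigE E Hh j, Hh⁆

private lemma parryEigE_le {G : Type*} [Group G] (E Hh : Subgroup G) (hEH : E ≤ Hh) :
    ∀ j, parryEigE E Hh j ≤ Hh := by
  intro j
  induction j with
  | zero => exact hEH
  | succ j ih =>
    rw [parryEigE, Subgroup.commutator_le]
    intro g hg b hb
    rw [commutatorElement_def]
    exact Hh.mul_mem (Hh.mul_mem (Hh.mul_mem (ih hg) hb) (Hh.inv_mem (ih hg))) (Hh.inv_mem hb)

private lemma parryEigE_lcs {G : Type*} [Group G] (E Hh : Subgroup G) :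
    ∀ j, parryEigE E Hh j ≤ (⊤ : Subgroup G).lowerCentralSeries j := by
  intro j
  induction j with
  | zero => simp
  | succ j ih =>
    rw [parryEigE]
    exact Subgroup.commutator_mono ih le_top

private lemma parryEig_joined {G : Type*} [Group G] [TopologicalSpace G] [IsTopologicalGroup G]
    (E Hh : Subgroup G) (hEpath : ∀ h ∈ E, JoinedIn (E : Set G) 1 h) :
    ∀ j, ∀ h ∈ parryEigE E Hh j, JoinedIn (parryEigE E Hh j : Set G) 1 h := by
  intro j
  induction j with
  | zero => exact hEpath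
  | succ j ih =>
    intro h hh
    rw [parryEigE, Subgroup.commutator_def] at hh
    refine Subgroup.closure_induction (p := fun x _ => JoinedIn (parryEigE E Hh (j+1) : Set G) 1 x)
      ?_ ?_ ?_ ?_ hh
    · rintro x ⟨g, hg, b, hb, rfl⟩
      obtain ⟨γ, hγ⟩ := ih g hg
      refine ⟨⟨⟨fun t => ⁅γ t, b⁆, ?_⟩, ?_, ?_⟩, ?_⟩
      · simp only [commutatorElement_def]
        fun_prop
      · simp
      · simp
      · intro t
        exact Subgroup.commutator_mem_commutator (hγ t) hb
    · exact JoinedIn.refl (Subgroup.one_mem _)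
    · rintro x y _ _ ⟨γ, hγ⟩ ⟨δ, hδ⟩
      refine ⟨⟨⟨fun t => γ t * δ t, by fun_prop⟩, by simp, by simp⟩, ?_⟩
      intro t
      exact Subgroup.mul_mem _ (hγ t) (hδ t)
    · rintro x _ ⟨γ, hγ⟩
      refine ⟨⟨⟨fun t => (γ t)⁻¹, by fun_prop⟩, by simp, by simp⟩, ?_⟩
      intro t
      exact Subgroup.inv_mem _ (hγ t)

theorem parry_eig {G : Type*} [Group G] [TopologicalSpace G] [IsTopologicalGroup G]
    (n : ℕ) (hnil : (⊤ : Subgroup G).lowerCentralSeries n = ⊥)
    (M : Subgroup G) (K : Set G) (hK : IsCompact K) (Z : Set G) (hZ : IsClosed Z) (h1 : (1 : G) ∈ Z)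
    (hZM : ∀ z ∈ Z, ∀ m ∈ M, z * m ∈ Z)
    (hKM : ∀ z ∈ Z, ∃ k ∈ K, ∃ m ∈ M, z = k * m)
    (E N Hh : Subgroup G) (hEH : E ≤ Hh) (hNH : N ≤ Hh) (hH : Hh ≤ E ⊔ N)
    (hNcomm : ∀ a ∈ N, ∀ b ∈ N, a * b = b * a)
    (hEnorm : ∀ b ∈ Hh, ∀ h ∈ E, b * h * b⁻¹ ∈ E)
    (hEpath : ∀ h ∈ E, JoinedIn (E : Set G) 1 h)
    (hHZ : ∀ b ∈ Hh, ∀ z ∈ Z, b * z ∈ Z)
    (S : Set G) (hSN : S ⊆ (N : Set G))
    (hmin : ∀ z ∈ Z, (1 : G) ∈ closure {x | ∃ s ∈ S, ∃ m ∈ M, x = s * z * m})
    (f : G → Circle) (hf : ContinuousOn f Z) (χ : G → Circle)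
    (hfM : ∀ z ∈ Z, ∀ m ∈ M, f (z * m) = f z * χ m)
    (hfS : ∀ s ∈ S, ∀ z ∈ Z, f (s * z) = f z) :
    ∃ lam : Hh →* Circle, ∀ (b : G) (hb : b ∈ Hh), ∀ z ∈ Z, f (b * z) = lam ⟨b, hb⟩ * f z := by
  classical
  have hSH : ∀ s ∈ S, s ∈ Hh := fun s hs => hNH (hSN hs)
  -- (C): S-invariant quotients are constant
  have hC : ∀ b ∈ Hh, (∀ s ∈ S, ∀ z ∈ Z, f (b * (s * z)) = f (b * z)) →
      ∀ z ∈ Z, f (b * z) * f 1 = f b * f z := by
    intro b hb hinv z hz
    -- the function φ z = f (b z) / f z
    have hφc : ContinuousOn (fun z => f (b * z) / f z) Z := by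
      refine ContinuousOn.div' ?_ hf
      exact hf.comp (by fun_prop) (fun z hz => hHZ b hb z hz)
    set T : Set G := {x | ∃ s ∈ S, ∃ m ∈ M, x = s * z * m} with hT
    have hTZ : T ⊆ Z := by
      rintro x ⟨s, hs, m, hm, rfl⟩
      exact hZM _ (hHZ s (hSH s hs) z hz) m hm
    have hTc : ∀ x ∈ T, f (b * x) / f x = f (b * z) / f z := by
      rintro x ⟨s, hs, m, hm, rfl⟩
      have e1 : f (b * (s * z * m)) = f (b * z) * χ m := by
        rw [← mul_assoc, hfM _ (hHZ b hb _ (hHZ s (hSH s hs) z hz)) m hm, hinv s hs z hz]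
      have e2 : f (s * z * m) = f z * χ m := by
        rw [hfM _ (hHZ s (hSH s hs) z hz) m hm, hfS s hs z hz]
      rw [e1, e2, mul_div_mul_right_eq_div]
    have hcl : (fun z => f (b * z) / f z) 1 ∈ closure ((fun z => f (b * z) / f z) '' T) := by
      have hw : ContinuousWithinAt (fun z => f (b * z) / f z) T 1 := (hφc 1 h1).mono hTZ
      exact hw.mem_closure_image (hmin z hz)
    have himg : (fun z => f (b * z) / f z) '' T ⊆ {f (b * z) / f z} := by
      rintro _ ⟨x, hx, rfl⟩
      exact hTc x hx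
    have hfin := closure_mono himg hcl
    rw [closure_singleton, Set.mem_singleton_iff] at hfin
    simp only [mul_one] at hfin
    rw [div_eq_div_iff_mul_eq_mul] at hfin
    rw [hfin]
  -- P j
  have hP : ∀ d j, d + j = n → ∀ h ∈ parryEigE E Hh j, ∀ z ∈ Z, f (h * z) * f 1 = f h * f z := by
    intro d
    induction d with
    | zero =>
      intro j hj h hh z hz
      have : h = 1 := by
        have h2 := parryEigE_lcs E Hh j hh
        rw [zero_add] at hj
        rw [hj, hnil] at h2
        exact Subgroup.mem_bot.mp h2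
      subst this
      rw [one_mul, mul_comm]
    | succ d ih =>
      intro j hj
      have ih' := ih (j + 1) (by omega)
      set F := parryEigE E Hh j with hF
      set F' := parryEigE E Hh (j + 1) with hF'
      have hFH : F ≤ Hh := parryEigE_le E Hh hEH j
      have hFH' : F' ≤ Hh := parryEigE_le E Hh hEH (j + 1)
      -- lam
      set lam : G → Circle := fun u => f u / f 1 with hlam
      have hlamF : ∀ u ∈ F', ∀ z ∈ Z, f (u * z) = lam u * f z := by
        intro u hu z hz
        have := ih' u hu z hz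
        rw [hlam]
        simp only
        rw [div_mul_eq_mul_div, ← this]
        simp
      have hcomm1 : ∀ h ∈ F, ∀ b ∈ Hh, h * b * h⁻¹ * b⁻¹ ∈ F' := by
        intro h hh b hb
        have := Subgroup.commutator_mem_commutator (H₁ := F) (H₂ := Hh) hh hb
        rw [commutatorElement_def] at this
        exact this
      have hcomm2 : ∀ h ∈ F, ∀ b ∈ Hh, b⁻¹ * h * b * h⁻¹ ∈ F' := by
        intro h hh b hb
        have := F'.inv_mem (hcomm1 h hh b⁻¹ (Hh.inv_mem hb))
        have e : (h * b⁻¹ * h⁻¹ * b⁻¹⁻¹)⁻¹ = b⁻¹ * h * b * h⁻¹ := by group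
        rwa [e] at this
      -- c_a(h)
      set c : G → G → Circle := fun a h => lam (a⁻¹ * h * a * h⁻¹) with hcdef
      have hca : ∀ a ∈ S, ∀ h ∈ F, ∀ z ∈ Z, f (h * (a * z)) = c a h * f (h * z) := by
        intro a ha h hh z hz
        have e : h * (a * z) = a * ((a⁻¹ * h * a * h⁻¹) * (h * z)) := by group
        have hu := hcomm2 h hh a (hSH a ha)
        rw [e, hfS a ha _ (hHZ _ (hFH' hu) _ (hHZ h (hFH hh) z hz)),
          hlamF _ hu _ (hHZ h (hFH hh) z hz)]
      have hZpow : ∀ a ∈ Hh, ∀ k : ℕ, ∀ z ∈ Z, a ^ k * z ∈ Z := by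
        intro a ha k z hz
        exact hHZ _ (Hh.pow_mem ha k) z hz
      have hfSpow : ∀ a ∈ S, ∀ k : ℕ, ∀ z ∈ Z, f (a ^ k * z) = f z := by
        intro a ha k
        induction k with
        | zero => intro z _; simp
        | succ k ihk =>
          intro z hz
          have e : a ^ (k + 1) * z = a * (a ^ k * z) := by rw [pow_succ', mul_assoc]
          rw [e, hfS a ha _ (hZpow a (hSH a ha) k z hz), ihk z hz]
      have hcapow : ∀ a ∈ S, ∀ h ∈ F, ∀ k : ℕ, ∀ z ∈ Z,
          f (h * (a ^ k * z)) = c a h ^ k * f (h * z) := by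
        intro a ha h hh k
        induction k with
        | zero => intro z _; simp
        | succ k ihk =>
          intro z hz
          have e : a ^ (k + 1) * z = a * (a ^ k * z) := by rw [pow_succ', mul_assoc]
          rw [e, hca a ha h hh _ (hZpow a (hSH a ha) k z hz), ihk z hz, ← mul_assoc, pow_succ']
      -- φ_h (u z)
      have hlu : ∀ h ∈ F, ∀ u ∈ F', ∀ z ∈ Z,
          f (h * (u * z)) / f (u * z) = lam (h * u * h⁻¹ * u⁻¹) * (f (h * z) / f z) := by
        intro h hh u hu z hz
        have e : h * (u * z) = (h * u * h⁻¹ * u⁻¹) * (u * (h * z)) := by group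
        have hk := hcomm1 h hh u (hFH' hu)
        have hz1 := hHZ h (hFH hh) z hz
        rw [e, hlamF _ hk _ (hHZ u (hFH' hu) _ hz1), hlamF u hu _ hz1, hlamF u hu _ hz]
        rw [mul_div_assoc, mul_div_mul_left_eq_div]
      have hlupow : ∀ h ∈ F, ∀ u ∈ F', ∀ k : ℕ, ∀ z ∈ Z,
          f (h * (u ^ k * z)) / f (u ^ k * z) = lam (h * u * h⁻¹ * u⁻¹) ^ k * (f (h * z) / f z) := by
        intro h hh u hu k
        induction k with
        | zero => intro z _; simp
        | succ k ihk =>
          intro z hz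
          have e : u ^ (k + 1) * z = u * (u ^ k * z) := by rw [pow_succ', mul_assoc]
          rw [e, hlu h hh u hu _ (hZpow u (hFH' hu) k z hz), ihk z hz, ← mul_assoc, pow_succ']
      -- neighborhood
      have hU : ∀ᶠ h in 𝓝 (1 : G), h ∈ Hh → ∀ z ∈ Z, dist (f (h * z) / f z) 1 ≤ 1 / 4 := by
        have hKZ : IsCompact (K ∩ Z) := hK.inter_right hZ
        have key : ∀ᶠ h in 𝓝 (1 : G), ∀ z ∈ K ∩ Z, (h ∈ Hh → z ∈ Z →
            dist (f (h * z) / f z) 1 ≤ 1 / 4) := by
          refine hKZ.eventually_forall_of_forall_eventually ?_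
          rintro y ⟨_, hyZ⟩
          have hcw : ContinuousWithinAt (fun p : G × G => f (p.1 * p.2) / f p.2)
              ((Hh : Set G) ×ˢ Z) (1, y) := by
            refine ContinuousWithinAt.div' ?_ ?_
            · have hfy : ContinuousWithinAt f Z ((1 : G) * y) := by
                rw [one_mul]; exact hf y hyZ
              exact ContinuousWithinAt.comp (t := Z) (f := fun p : G × G => p.1 * p.2)
                (x := ((1 : G), y)) hfy (by fun_prop)
                (fun p hp => hHZ _ hp.1 _ hp.2)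
            · exact ContinuousWithinAt.comp (t := Z) (f := fun p : G × G => p.2)
                (x := ((1 : G), y)) (hf y hyZ) (by fun_prop) (fun p hp => hp.2)
          have hnb : Metric.closedBall (1 : Circle) (1 / 4) ∈
              𝓝 ((fun p : G × G => f (p.1 * p.2) / f p.2) (1, y)) := by
            simp only [one_mul, div_self']
            exact Metric.closedBall_mem_nhds _ (by norm_num)
          have hev := hcw hnb
          rw [Filter.mem_map, mem_nhdsWithin_iff_eventually] at hev
          filter_upwards [hev] with p hp h1' h2'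
          exact hp ⟨h1', h2'⟩
        filter_upwards [key] with h hh hhH z hz
        obtain ⟨k, hk, m, hm, hkm⟩ := hKM z hz
        have hkZ : k ∈ Z := by
          have : k = z * m⁻¹ := by rw [hkm]; group
          rw [this]
          exact hZM z hz _ (M.inv_mem hm)
        have e : f (h * z) / f z = f (h * k) / f k := by
          rw [hkm, ← mul_assoc, hfM _ (hHZ h hhH k hkZ) m hm, hfM k hkZ m hm,
            mul_div_mul_right_eq_div]
        rw [e]
        exact hh k ⟨hk, hkZ⟩ hhH hkZ
      -- constants vanish near 1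
      have hU1 : ∀ᶠ h in 𝓝 (1 : G), h ∈ F → (∀ a ∈ S, c a h = 1) ∧
          (∀ u ∈ F', lam (h * u * h⁻¹ * u⁻¹) = 1) := by
        filter_upwards [hU] with h hh hhF
        have hb := hh (hFH hhF)
        constructor
        · intro a ha
          apply parryEig_small
          intro k
          have e : c a h ^ k = (f (h * (a ^ k * 1)) / f (a ^ k * 1)) / (f (h * 1) / f 1) := by
            rw [hcapow a ha h hhF k 1 h1, hfSpow a ha k 1 h1, mul_div_assoc, mul_div_cancel_right]
          rw [e]
          have := parryEig_dist_div _ _ (1 / 4) (hb _ (hZpow a (hSH a ha) k 1 h1)) (hb 1 h1)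
          linarith
        · intro u hu
          apply parryEig_small
          intro k
          have e : lam (h * u * h⁻¹ * u⁻¹) ^ k =
              (f (h * (u ^ k * 1)) / f (u ^ k * 1)) / (f (h * 1) / f 1) := by
            rw [hlupow h hhF u hu k 1 h1, mul_div_cancel_right]
          rw [e]
          have := parryEig_dist_div _ _ (1 / 4) (hb _ (hZpow u (hFH' hu) k 1 h1)) (hb 1 h1)
          linarith
      -- c_a is locally constant
      have hloc : ∀ a ∈ S, ∀ᶠ h' in 𝓝 (1 : G), h' ∈ F → ∀ h ∈ F, c a (h' * h) = c a h := by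
        intro a ha
        filter_upwards [hU1] with h' hh' hF1 h hh
        obtain ⟨hA, hB⟩ := hh' hF1
        have hz1 : h * 1 ∈ Z := hHZ h (hFH hh) 1 h1
        -- first expression
        have e1 : f (h' * h * (a * 1)) = c a (h' * h) * f (h' * h * 1) :=
          hca a ha (h' * h) (F.mul_mem hF1 hh) 1 h1
        -- second expression
        have hu := hcomm2 h hh a (hSH a ha)
        set u := a⁻¹ * h * a * h⁻¹ with hudef
        have e2 : h' * h * (a * 1) = h' * (a * (u * (h * 1))) := by
          rw [hudef]; group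
        have huz : u * (h * 1) ∈ Z := hHZ u (hFH' hu) _ hz1
        have e3 : f (h' * (a * (u * (h * 1)))) = f (h' * (u * (h * 1))) := by
          rw [hca a ha h' hF1 _ huz, hA a ha, one_mul]
        have e4 : f (h' * (u * (h * 1))) / f (u * (h * 1)) = f (h' * (h * 1)) / f (h * 1) := by
          rw [hlu h' hF1 u hu _ hz1, hB u hu, one_mul]
        have e5 : f (u * (h * 1)) = c a h * f (h * 1) := hlamF u hu _ hz1
        rw [e2, e3] at e1
        rw [e5, div_eq_div_iff_mul_eq_mul] at e4
        -- e4 : f (h' * (u * (h * 1))) * f (h * 1) = f (h' * (h * 1)) * (c a h * f (h * 1))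
        rw [e1, mul_assoc h' h 1] at e4
        have e6 : c a (h' * h) * (f (h' * (h * 1)) * f (h * 1)) =
            c a h * (f (h' * (h * 1)) * f (h * 1)) := by
          rw [← mul_assoc, e4]
          exact mul_left_comm _ _ _
        exact mul_right_cancel e6
      -- c_a h = 1 by connectedness
      have hc1 : ∀ a ∈ S, ∀ h ∈ F, c a h = 1 := by
        intro a ha h hh
        obtain ⟨γ, hγ⟩ := parryEig_joined E Hh hEpath j h hh
        have hlc : IsLocallyConstant (fun t : unitInterval => c a (γ t)) := by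
          rw [IsLocallyConstant.iff_eventually_eq]
          intro t0
          have hcont : Tendsto (fun t : unitInterval => γ t * (γ t0)⁻¹) (𝓝 t0) (𝓝 1) := by
            have : Continuous (fun t : unitInterval => γ t * (γ t0)⁻¹) := by fun_prop
            have h2 := this.tendsto t0
            simpa using h2
          filter_upwards [hcont.eventually (hloc a ha)] with t ht
          have h3 := ht (F.mul_mem (hγ t) (F.inv_mem (hγ t0))) (γ t0) (hγ t0)
          rw [inv_mul_cancel_right] at h3
          exact h3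
        have h4 := hlc.apply_eq_of_isPreconnected isPreconnected_univ
          (Set.mem_univ (1 : unitInterval)) (Set.mem_univ (0 : unitInterval))
        simp only [Path.target, Path.source] at h4
        rw [h4]
        simp [hcdef, hlam]
      intro h hh z hz
      refine hC h (hFH hh) ?_ z hz
      intro s hs z hz
      rw [hca s hs h hh z hz, hc1 s hs h hh, one_mul]
  -- N part
  have hNP : ∀ b ∈ N, ∀ z ∈ Z, f (b * z) * f 1 = f b * f z := by
    intro b hb z hz
    refine hC b (hNH hb) ?_ z hz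
    intro s hs z hz
    have e : b * (s * z) = s * (b * z) := by
      rw [← mul_assoc, ← mul_assoc, hNcomm b hb s (hSN hs)]
    rw [e, hfS s hs _ (hHZ b (hNH hb) z hz)]
  have hEP : ∀ b ∈ E, ∀ z ∈ Z, f (b * z) * f 1 = f b * f z := by
    exact hP n 0 (by omega)
  -- the subgroup W
  let W : Subgroup G :=
    { carrier := {b | b ∈ Hh ∧ ∀ z ∈ Z, f (b * z) * f 1 = f b * f z}
      one_mem' := ⟨Hh.one_mem, fun z _ => by rw [one_mul, mul_comm]⟩
      mul_mem' := by
        rintro a b ⟨ha, ha'⟩ ⟨hb, hb'⟩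
        refine ⟨Hh.mul_mem ha hb, fun z hz => ?_⟩
        have e1 := ha' (b * z) (hHZ b hb z hz)
        have e2 := hb' z hz
        have e3 := ha' (b * 1) (hHZ b hb 1 h1)
        rw [mul_one] at e3
        rw [← mul_assoc] at e1
        -- e1 : f (a * b * z) * f 1 = f a * f (b * z)
        -- e3 : f (a * b) * f 1 = f a * f b
        have e4 : f (a * b * z) * f 1 * f 1 = f (a * b) * f z * f 1 := by
          rw [e1, mul_assoc, e2, mul_right_comm, e3, mul_assoc]
        exact mul_right_cancel e4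
      inv_mem' := by
        rintro a ⟨ha, ha'⟩
        refine ⟨Hh.inv_mem ha, fun z hz => ?_⟩
        have e1 := ha' (a⁻¹ * z) (hHZ _ (Hh.inv_mem ha) z hz)
        have e2 := ha' (a⁻¹ * 1) (hHZ _ (Hh.inv_mem ha) 1 h1)
        rw [mul_inv_cancel_left] at e1 e2
        rw [mul_one] at e2
        -- e1 : f z * f 1 = f a * f (a⁻¹ * z);  e2 : f 1 * f 1 = f a * f a⁻¹
        have e3 : f a * (f (a⁻¹ * z) * f 1) = f a * (f a⁻¹ * f z) := by
          rw [← mul_assoc, ← mul_assoc, ← e1, ← e2]
          rw [mul_comm (f z), mul_assoc, mul_assoc, mul_comm (f z)]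
        exact mul_left_cancel e3 }
  have hHW : Hh ≤ W := hH.trans (sup_le (fun b hb => ⟨hEH hb, hEP b hb⟩)
    (fun b hb => ⟨hNH hb, hNP b hb⟩))
  refine ⟨{ toFun := fun b => f b / f 1, map_one' := by simp, map_mul' := ?_ }, ?_⟩
  · rintro ⟨a, ha⟩ ⟨b, hb⟩
    have e3 := (hHW ha).2 (b * 1) (hHZ b hb 1 h1)
    rw [mul_one] at e3
    simp only [Subgroup.coe_mul]
    rw [div_mul_div_comm, ← e3, mul_div_mul_right_eq_div]
  · intro b hb z hz
    have := (hHW hb).2 z hz
    simp only [MonoidHom.coe_mk, OneHom.coe_mk]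
    rw [div_mul_eq_mul_div, ← this]
    simp

end Pool.Agent.Lib.MP_35c333_an
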