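import Mathlib
import Pool.Agent.Lib.MP_35c333_an.Chars
import Pool.Agent.Lib.MP_35c333_an.ParryEig

set_option autoImplicit false

/-! Topological Parry / eigenfunction lemma. -/

namespace Pool.Agent.Lib.MP_35c333_an

open Topology Filter
open scoped Pointwise

section parry_aux

variable {G : Type*} [Group G] [TopologicalSpace G] [IsTopologicalGroup G]

private theorem parry_cl_right {A B : Set G} {c d : G} (hc : c ∈ closure A)
    (h : ∀ a ∈ A, a * d ∈ B) : c * d ∈ closure B :=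
  map_mem_closure (f := fun x => x * d) (continuous_id.mul continuous_const) hc h

private theorem parry_cl_left {A B : Set G} {c d : G} (hc : c ∈ closure A)
    (h : ∀ a ∈ A, d * a ∈ B) : d * c ∈ closure B :=
  map_mem_closure (f := fun x => d * x) (continuous_const.mul continuous_id) hc h

private theorem parry_closed_mul {K : Set G} (hK : IsCompact K) {D' M : Subgroup G}
    (hDM : D' ≤ M) (hnorm : ∀ m ∈ M, ∀ d ∈ D', m * d * m⁻¹ ∈ D')
    (hKD : ∀ x : G, ∃ k ∈ K, ∃ d ∈ D', x = k * d) {A B : Set G} (hA : IsClosed A)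
    (hAD : ∀ a ∈ A, ∀ d ∈ D', a * d ∈ A) (hB : IsClosed B) (hBM : ∀ b ∈ B, b ∈ M)
    (hBD : ∀ b ∈ B, ∀ d ∈ D', b * d ∈ B) : IsClosed (A * B) := by
  have h1 : A * B = A * (K ∩ B) := by
    apply Set.Subset.antisymm
    · rintro _ ⟨a, ha, b, hb, rfl⟩
      obtain ⟨k, hk, d, hd, rfl⟩ := hKD b
      have hkB : k ∈ B := by
        have := hBD _ hb d⁻¹ (D'.inv_mem hd)
        rwa [mul_inv_cancel_right] at this
      have hkM := hBM k hkB
      refine ⟨a * (k * d * k⁻¹), hAD a ha _ (hnorm k hkM d hd), k, ⟨hk, hkB⟩, ?_⟩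
      show a * (k * d * k⁻¹) * k = a * (k * d)
      group
    · exact Set.mul_subset_mul_left Set.inter_subset_right
  rw [h1]
  exact hA.mul_right_of_isCompact (hK.inter_right hB)

/-- the claim proved by induction -/
private def ParryClaim (S : Set G) (E D' : Subgroup G) : Prop :=
  (∀ z ∈ closure (S * (D' : Set G)),
    (1 : G) ∈ closure {x | ∃ s ∈ S, ∃ m ∈ D', x = s * z * m}) ∧
  (1 : G) ∈ closure (S * (D' : Set G)) ∧ ∀ h ∈ E, h ∈ closure (S * (D' : Set G))

private theorem parry_step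
    (n : ℕ) (hnil : (⊤ : Subgroup G).lowerCentralSeries n = ⊥)
    (D : Subgroup G) (K : Set G) (hK : IsCompact K)
    (hKD : ∀ x : G, ∃ k ∈ K, ∃ d ∈ D, x = k * d)
    (E N Hh : Subgroup G) (hEH : E ≤ Hh) (hNH : N ≤ Hh) (hH : Hh ≤ E ⊔ N)
    (hNcomm : ∀ a ∈ N, ∀ b ∈ N, a * b = b * a)
    (hEnorm : ∀ b ∈ Hh, ∀ h ∈ E, b * h * b⁻¹ ∈ E)
    (hEpath : ∀ h ∈ E, JoinedIn (E : Set G) 1 h)
    (hNE : ∀ b ∈ N, ∃ h ∈ E, ∃ d ∈ D, b = h * d)
    (S : Set G) (hSne : S.Nonempty) (hSN : S ⊆ (N : Set G)) (hSS : ∀ a ∈ S, ∀ b ∈ S, a * b ∈ S)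
    (hFS : ∀ lam : Hh →* Circle, Continuous (fun h : E => lam ⟨h, hEH h.2⟩) →
      (∀ s (hs : s ∈ S), lam ⟨s, hNH (hSN hs)⟩ = 1) →
      (∀ d ∈ D, ∀ hd' : d ∈ Hh, lam ⟨d, hd'⟩ = 1) → ∀ h (hh : h ∈ E), lam ⟨h, hEH hh⟩ = 1)
    (D' M : Subgroup G) (hD' : IsClosed (D' : Set G)) (hDD' : D ≤ D')
    (hM : IsClosed (M : Set G)) (hDM : D' ≤ M)
    (hnorm : ∀ m ∈ M, ∀ d ∈ D', m * d * m⁻¹ ∈ D')
    (hcomm : ∀ m ∈ M, ∀ m' ∈ M, m * m' * m⁻¹ * m'⁻¹ ∈ D')
    (hclaim : ParryClaim S E M) : ParryClaim S E D' := by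
  classical
  obtain ⟨hα1, hα2, hβ⟩ := hclaim
  set C := closure (S * (D' : Set G)) with hC
  have hKD' : ∀ x : G, ∃ k ∈ K, ∃ d ∈ D', x = k * d := by
    intro x
    obtain ⟨k, hk, d, hd, rfl⟩ := hKD x
    exact ⟨k, hk, d, hDD' hd, rfl⟩
  have hnorm' : ∀ m ∈ M, ∀ d ∈ D', m⁻¹ * d * m ∈ D' := by
    intro m hm d hd
    have := hnorm m⁻¹ (M.inv_mem hm) d hd
    rwa [inv_inv] at this
  have hSsub : ∀ s ∈ S, s ∈ C := fun s hs =>
    subset_closure ⟨s, hs, 1, D'.one_mem, mul_one s⟩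
  have hCcl : IsClosed C := isClosed_closure
  have hSC : ∀ s ∈ S, ∀ c ∈ C, s * c ∈ C := by
    intro s hs c hc
    refine parry_cl_left hc ?_
    rintro _ ⟨s', hs', d, hd, rfl⟩
    exact ⟨s * s', hSS s hs s' hs', d, hd, mul_assoc _ _ _⟩
  have hCD : ∀ c ∈ C, ∀ d ∈ D', c * d ∈ C := by
    intro c hc d hd
    refine parry_cl_right hc ?_
    rintro _ ⟨s', hs', d', hd', rfl⟩
    exact ⟨s', hs', d' * d, D'.mul_mem hd' hd, (mul_assoc _ _ _).symm⟩
  have hCM : ∀ m ∈ M, m ∈ C → ∀ c ∈ C, c * m ∈ C := by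
    intro m hm hmC c hc
    have h1 : c * m ∈ closure C := by
      refine parry_cl_right hc ?_
      rintro _ ⟨s, hs, d, hd, rfl⟩
      have h2 := hCD _ (hSC s hs m hmC) _ (hnorm' m hm d hd)
      have h3 : s * m * (m⁻¹ * d * m) = s * d * m := by group
      rwa [h3] at h2
    rwa [hCcl.closure_eq] at h1
  have hCMcl : IsClosed (C * (M : Set G)) :=
    parry_closed_mul hK hDM hnorm hKD' hCcl hCD hM (fun b hb => hb)
      (fun b hb d hd => M.mul_mem hb (hDM hd))
  have hZ : closure (S * (M : Set G)) = C * (M : Set G) := by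
    apply Set.Subset.antisymm
    · refine closure_minimal ?_ hCMcl
      rintro _ ⟨s, hs, m, hm, rfl⟩
      exact ⟨s, hSsub s hs, m, hm, rfl⟩
    · rintro _ ⟨c, hc, m, hm, rfl⟩
      refine parry_cl_right hc ?_
      rintro _ ⟨s, hs, d, hd, rfl⟩
      exact ⟨s, hs, d * m, M.mul_mem (hDM hd) hm, (mul_assoc _ _ _).symm⟩
  have hpow : ∀ m ∈ M, m ∈ C → ∀ j : ℕ, m ^ (j + 1) ∈ C := by
    intro m hm hmC j
    induction j with
    | zero => simpa using hmC
    | succ j ih => rw [pow_succ]; exact hCM m hm hmC _ ih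
  have hinv : ∀ m ∈ M, m ∈ C → m⁻¹ ∈ C := by
    intro m hm hmC
    choose k hk d hd hkd using fun j : ℕ => hKD' (m ^ j)
    obtain ⟨x, -, hx⟩ := hK.exists_mapClusterPt (f := atTop) (u := k)
      (by rw [le_principal_iff, mem_map]; exact univ_mem' hk)
    rw [mapClusterPt_iff_frequently] at hx
    rw [← hCcl.closure_eq, mem_closure_iff_nhds]
    intro V hV
    -- a neighbourhood `W` of `x` with `m⁻¹ W⁻¹ W ⊆ V`
    have ht : Tendsto (fun p : G × G => m⁻¹ * (p.1⁻¹ * p.2)) (𝓝 (x, x)) (𝓝 m⁻¹) := by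
      have h : Continuous (fun p : G × G => m⁻¹ * (p.1⁻¹ * p.2)) := by fun_prop
      have h2 := h.tendsto (x, x)
      simpa using h2
    have h3 := ht hV
    rw [nhds_prod_eq, mem_map, mem_prod_same_iff] at h3
    obtain ⟨W, hW, hWV⟩ := h3
    obtain ⟨a, ha⟩ := (hx W hW).exists
    obtain ⟨b, hb1, hb2⟩ := ((frequently_atTop.1 (hx W hW)) (a + 2))
    have h4 : m⁻¹ * ((k a)⁻¹ * k b) ∈ V := hWV (show (k a, k b) ∈ W ×ˢ W from ⟨ha, hb2⟩)
    refine ⟨_, h4, ?_⟩
    have hkaM : k a ∈ M := by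
      have : k a = m ^ a * (d a)⁻¹ := by rw [hkd a, mul_inv_cancel_right]
      rw [this]
      exact M.mul_mem (M.pow_mem hm a) (M.inv_mem (hDM (hd a)))
    have hkbM : k b ∈ M := by
      have : k b = m ^ b * (d b)⁻¹ := by rw [hkd b, mul_inv_cancel_right]
      rw [this]
      exact M.mul_mem (M.pow_mem hm b) (M.inv_mem (hDM (hd b)))
    set v := (k a)⁻¹ * k b with hv
    have hvM : v ∈ M := M.mul_mem (M.inv_mem hkaM) hkbM
    have hm2 : m ^ (b - a) = v * ((v⁻¹ * (d a)⁻¹ * v) * d b) := by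
      have e1 : m ^ b = m ^ a * m ^ (b - a) := by rw [← pow_add]; congr 1; omega
      have e2 : m ^ (b - a) = (m ^ a)⁻¹ * m ^ b := by rw [e1]; group
      rw [e2, hkd a, hkd b, hv]
      group
    have hd2 : (v⁻¹ * (d a)⁻¹ * v) * d b ∈ D' :=
      D'.mul_mem (hnorm' v hvM _ (D'.inv_mem (hd a))) (hd b)
    have e3 : m⁻¹ * v = m ^ (b - a - 2 + 1) * ((v⁻¹ * (d a)⁻¹ * v) * d b)⁻¹ := by
      have e4 : m ^ (b - a) = m * m ^ (b - a - 2 + 1) := by
        rw [← pow_succ']; congr 1; omega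
      rw [e4] at hm2
      have e5 : m ^ (b - a - 2 + 1) = m⁻¹ * (v * ((v⁻¹ * (d a)⁻¹ * v) * d b)) := by
        rw [← hm2]; group
      rw [e5]; group
    rw [e3]
    exact hCD _ (hpow m hm hmC _) _ (D'.inv_mem hd2)
  have hone : (1 : G) ∈ C := by
    rw [hZ] at hα2
    obtain ⟨w, hw, m, hm, hwm⟩ := hα2
    have hwm' : w * m = 1 := hwm
    have h1 : w ∈ M := by
      have : w = m⁻¹ := eq_inv_of_mul_eq_one_left hwm'
      rw [this]; exact M.inv_mem hm
    have h2 := hCM w h1 hw _ (hinv w h1 hw)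
    rwa [inv_mul_cancel] at h2
  have hD'C : ∀ d ∈ D', d ∈ C := by
    intro d hd
    have := hCD 1 hone d hd
    rwa [one_mul] at this
  -- (alpha) for D'
  have hα : ∀ z ∈ C, (1 : G) ∈ closure {x | ∃ s ∈ S, ∃ m ∈ D', x = s * z * m} := by
    intro z hz
    set A := closure {x : G | ∃ s ∈ S, ∃ m ∈ D', x = s * z * m} with hA
    have hAcl : IsClosed A := isClosed_closure
    have hAD : ∀ a ∈ A, ∀ d ∈ D', a * d ∈ A := by
      intro a ha d hd
      refine parry_cl_right ha ?_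
      rintro _ ⟨s, hs, m, hm, rfl⟩
      exact ⟨s, hs, m * d, D'.mul_mem hm hd, by group⟩
    have hSA : ∀ s ∈ S, ∀ a ∈ A, s * a ∈ A := by
      intro s hs a ha
      refine parry_cl_left ha ?_
      rintro _ ⟨s', hs', m, hm, rfl⟩
      exact ⟨s * s', hSS s hs s' hs', m, hm, by group⟩
    have hAC : A ⊆ C := by
      refine closure_minimal ?_ hCcl
      rintro _ ⟨s, hs, m, hm, rfl⟩
      exact hCD _ (hSC s hs z hz) m hm
    have hAMcl : IsClosed (A * (M : Set G)) :=
      parry_closed_mul hK hDM hnorm hKD' hAcl hAD hM (fun b hb => hb)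
        (fun b hb d hd => M.mul_mem hb (hDM hd))
    have hzM : z ∈ closure (S * (M : Set G)) := by
      rw [hZ]; exact ⟨z, hz, 1, M.one_mem, mul_one z⟩
    have h1 : (1 : G) ∈ A * (M : Set G) := by
      have h2 := hα1 z hzM
      have h3 : {x : G | ∃ s ∈ S, ∃ m ∈ M, x = s * z * m} ⊆ A * (M : Set G) := by
        rintro _ ⟨s, hs, m, hm, rfl⟩
        exact ⟨s * z, subset_closure ⟨s, hs, 1, D'.one_mem, (mul_one _).symm⟩, m, hm, rfl⟩
      have h4 := closure_mono h3 h2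
      rwa [hAMcl.closure_eq] at h4
    obtain ⟨w, hw, m, hm, hwm⟩ := h1
    have hwm' : w * m = 1 := hwm
    have hwinv : w = m⁻¹ := eq_inv_of_mul_eq_one_left hwm'
    have hwM : w ∈ M := by rw [hwinv]; exact M.inv_mem hm
    have hmC : m ∈ C := by
      have := hinv w hwM (hAC hw)
      rwa [hwinv, inv_inv] at this
    have h5 : m * w ∈ closure A := by
      refine parry_cl_right (hmC : m ∈ closure (S * (D' : Set G))) ?_
      rintro _ ⟨s, hs, d, hd, rfl⟩
      have h6 := hAD _ (hSA s hs w hw) _ (hnorm' w hwM d hd)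
      have h7 : s * w * (w⁻¹ * d * w) = s * d * w := by group
      rwa [h7] at h6
    rw [hAcl.closure_eq] at h5
    have h8 : m * w = 1 := by rw [hwinv, mul_inv_cancel]
    rwa [h8] at h5
  refine ⟨hα, hone, ?_⟩
  -- (d)
  have hwell : ∀ c ∈ C, ∀ m ∈ M, c * m ∈ C → m ∈ C := by
    intro c hc m hm hcm
    have h1 := hα c hc
    have h2 : 1 * m ∈ closure C := by
      refine parry_cl_right h1 ?_
      rintro _ ⟨s, hs, d, hd, rfl⟩
      have h3 := hCD _ (hSC s hs _ hcm) _ (hnorm' m hm d hd)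
      have h4 : s * (c * m) * (m⁻¹ * d * m) = s * c * d * m := by group
      rwa [h4] at h3
    rwa [one_mul, hCcl.closure_eq] at h2
  -- the subgroup `L` of `M`
  let L : Subgroup M :=
    { carrier := {m | (m : G) ∈ C}
      mul_mem' := fun {a b} ha hb => hCM b b.2 hb _ ha
      one_mem' := hone
      inv_mem' := fun {a} ha => hinv a a.2 ha }
  have hLmem : ∀ m : M, m ∈ L ↔ (m : G) ∈ C := fun m => Iff.rfl
  have hLnormal : L.Normal := by
    refine ⟨fun l hl m => ?_⟩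
    rw [hLmem] at hl ⊢
    have h1 := hCM l l.2 hl _ (hD'C _ (hcomm m m.2 l l.2))
    have h2 : (m : G) * l * (m : G)⁻¹ * (l : G)⁻¹ * l = m * l * (m : G)⁻¹ := by group
    rwa [h2] at h1
  have hLcl : IsClosed (L : Set M) := hCcl.preimage continuous_subtype_val
  have hQcomm : ∀ a b : M ⧸ L, a * b = b * a := by
    intro a b
    induction a using QuotientGroup.induction_on with
    | H a =>
      induction b using QuotientGroup.induction_on with
      | H b =>
        rw [← QuotientGroup.mk_mul, ← QuotientGroup.mk_mul, QuotientGroup.eq, hLmem]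
        have h1 := hD'C _ (hcomm (b⁻¹ : M) (b⁻¹ : M).2 (a⁻¹ : M) (a⁻¹ : M).2)
        have h2 : (((a * b)⁻¹ * (b * a) : M) : G) =
          ((b⁻¹ : M) : G) * ((a⁻¹ : M) : G) * ((b⁻¹ : M) : G)⁻¹ * ((a⁻¹ : M) : G)⁻¹ := by
          push_cast; group
        rw [h2]; exact h1
  have hMe : IsClosedEmbedding (Subtype.val : M → G) := hM.isClosedEmbedding_subtypeVal
  have hQcompact : CompactSpace (M ⧸ L) := by
    have h1 : IsCompact ((Subtype.val : M → G) ⁻¹' K) := hMe.isCompact_preimage hK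
    refine ⟨?_⟩
    have h2 : (Set.univ : Set (M ⧸ L)) =
        (QuotientGroup.mk : M → M ⧸ L) '' ((Subtype.val : M → G) ⁻¹' K) := by
      symm
      rw [Set.eq_univ_iff_forall]
      intro q
      induction q using QuotientGroup.induction_on with
      | H m =>
        obtain ⟨k, hk, d, hd, hmkd⟩ := hKD' (m : G)
        have hkM : k ∈ M := by
          have : k = m * d⁻¹ := by rw [hmkd, mul_inv_cancel_right]
          rw [this]; exact M.mul_mem m.2 (M.inv_mem (hDM hd))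
        refine ⟨⟨k, hkM⟩, hk, ?_⟩
        rw [QuotientGroup.eq, hLmem]
        show k⁻¹ * (m : G) ∈ C
        rw [hmkd, inv_mul_cancel_left]
        exact hD'C d hd
    rw [h2]
    exact h1.image QuotientGroup.continuous_mk
  have hLcl' : IsClosed (L : Set M) := hLcl
  intro hs hhs
  by_contra hnot
  have hEZ : ∀ h ∈ E, h ∈ C * (M : Set G) := fun h hh => by rw [← hZ]; exact hβ h hh
  obtain ⟨c₀, hc₀, m₀, hm₀, hcm₀⟩ := hEZ hs hhs
  have hcm₀' : c₀ * m₀ = hs := hcm₀
  have hm₀C : m₀ ∉ C := by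
    intro h
    apply hnot
    rw [← hcm₀']
    exact hCM m₀ hm₀ h c₀ hc₀
  have hq : ((⟨m₀, hm₀⟩ : M) : M ⧸ L) ≠ 1 := by
    intro h
    rw [QuotientGroup.eq_one_iff] at h
    exact hm₀C h
  obtain ⟨χQ, hχQc, hχQ⟩ := exists_character hQcomm _ hq
  let χ : M →* Circle := χQ.comp (QuotientGroup.mk' L)
  have hχc : Continuous χ := hχQc.comp QuotientGroup.continuous_mk
  have hχL : ∀ m : M, (m : G) ∈ C → χ m = 1 := by
    intro m hm
    have h1 : (m : M ⧸ L) = 1 := (QuotientGroup.eq_one_iff m).2 hm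
    show χQ (m : M ⧸ L) = 1
    rw [h1, map_one]
  have hχm₀ : χ ⟨m₀, hm₀⟩ ≠ 1 := hχQ
  let f : G → Circle := fun z =>
    if h : ∃ m : M, ∃ c ∈ C, z = c * m then χ h.choose else 1
  have hf : ∀ c ∈ C, ∀ m : M, f (c * m) = χ m := by
    intro c hc m
    have h : ∃ m' : M, ∃ c' ∈ C, c * (m : G) = c' * m' := ⟨m, c, hc, rfl⟩
    have h1 : f (c * m) = χ h.choose := dif_pos h
    rw [h1]
    obtain ⟨c', hc', hcc⟩ := h.choose_spec
    set m' := h.choose with hm'
    -- c * m = c' * m'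
    have h2 : ((m * m'⁻¹ : M) : G) ∈ C := by
      refine hwell c hc _ (m * m'⁻¹ : M).2 ?_
      have : c * ((m * m'⁻¹ : M) : G) = c' := by
        push_cast
        rw [← mul_assoc, hcc, mul_inv_cancel_right]
      rw [this]; exact hc'
    have h3 := hχL _ h2
    rw [map_mul, map_inv, mul_inv_eq_one] at h3
    exact h3.symm
  have hfC : ∀ c ∈ C, f c = 1 := by
    intro c hc
    have := hf c hc 1
    rwa [OneMemClass.coe_one, mul_one, map_one] at this
  have hfcont : ContinuousOn f (closure (S * (M : Set G))) := by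
    rw [hZ, continuousOn_iff_isClosed]
    intro t ht
    refine ⟨C * ((Subtype.val : M → G) '' (χ ⁻¹' t)), ?_, ?_⟩
    · refine parry_closed_mul hK hDM hnorm hKD' hCcl hCD
        (hMe.isClosedMap _ (ht.preimage hχc)) ?_ ?_
      · rintro _ ⟨m, -, rfl⟩; exact m.2
      · rintro _ ⟨m, hm, rfl⟩ d hd
        refine ⟨m * ⟨d, hDM hd⟩, ?_, rfl⟩
        show χ (m * ⟨d, hDM hd⟩) ∈ t
        rw [map_mul, hχL ⟨d, hDM hd⟩ (hD'C d hd), mul_one]
        exact hm
    · ext z
      constructor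
      · rintro ⟨hz, ⟨c, hc, m, hm, rfl⟩⟩
        refine ⟨⟨c, hc, m, ⟨⟨m, hm⟩, ?_, rfl⟩, rfl⟩, ⟨c, hc, m, hm, rfl⟩⟩
        show χ ⟨m, hm⟩ ∈ t
        rw [← hf c hc ⟨m, hm⟩]
        exact hz
      · rintro ⟨⟨c, hc, _, ⟨m, hm, rfl⟩, rfl⟩, hz⟩
        refine ⟨?_, hz⟩
        show f (c * m) ∈ t
        rw [hf c hc m]
        exact hm
  -- the set `Z` is invariant under `Hh`
  have hZM : ∀ z ∈ closure (S * (M : Set G)), ∀ m ∈ M, z * m ∈ closure (S * (M : Set G)) := by
    rw [hZ]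
    rintro _ ⟨c, hc, m, hm, rfl⟩ m' hm'
    exact ⟨c, hc, m * m', M.mul_mem hm hm', (mul_assoc _ _ _).symm⟩
  have hSZ : ∀ s ∈ S, ∀ z ∈ closure (S * (M : Set G)), s * z ∈ closure (S * (M : Set G)) := by
    rw [hZ]
    rintro s hs _ ⟨c, hc, m, hm, rfl⟩
    exact ⟨s * c, hSC s hs c hc, m, hm, mul_assoc _ _ _⟩
  have hEinv : ∀ b ∈ E, ∀ z ∈ closure (S * (M : Set G)), b * z ∈ closure (S * (M : Set G)) := by
    intro b hb z hz
    have h1 : b * z ∈ closure (closure (S * (M : Set G))) := by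
      refine parry_cl_left hz ?_
      rintro _ ⟨s, hs, m, hm, rfl⟩
      have hsH : s⁻¹ ∈ Hh := Hh.inv_mem (hNH (hSN hs))
      have h2 := hEnorm _ hsH b hb
      rw [inv_inv] at h2
      have h3 := hSZ s hs _ (hZM _ (hβ _ h2) m hm)
      have h4 : s * (s⁻¹ * b * s * m) = b * (s * m) := by group
      rwa [h4] at h3
    rwa [closure_closure] at h1
  have hNinv : ∀ b ∈ N, ∀ z ∈ closure (S * (M : Set G)), b * z ∈ closure (S * (M : Set G)) := by
    intro b hb z hz
    have h1 : b * z ∈ closure (closure (S * (M : Set G))) := by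
      refine parry_cl_left hz ?_
      rintro _ ⟨s, hs, m, hm, rfl⟩
      obtain ⟨h, hh, d, hd, hbd⟩ := hNE b hb
      have h3 := hSZ s hs _ (hZM _ (hβ _ hh) (d * m) (M.mul_mem (hDM (hDD' hd)) hm))
      have h4 : s * (h * (d * m)) = b * (s * m) := by
        rw [← mul_assoc h, ← hbd, ← mul_assoc, hNcomm s (hSN hs) b hb, mul_assoc]
      rwa [h4] at h3
    rwa [closure_closure] at h1
  have hHinv : ∀ b ∈ Hh, ∀ z ∈ closure (S * (M : Set G)), b * z ∈ closure (S * (M : Set G)) := by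
    let T : Subgroup G :=
      { carrier := {b | (∀ z ∈ closure (S * (M : Set G)), b * z ∈ closure (S * (M : Set G))) ∧
          ∀ z ∈ closure (S * (M : Set G)), b⁻¹ * z ∈ closure (S * (M : Set G))}
        mul_mem' := by
          rintro a b ⟨ha1, ha2⟩ ⟨hb1, hb2⟩
          refine ⟨fun z hz => ?_, fun z hz => ?_⟩
          · rw [mul_assoc]; exact ha1 _ (hb1 z hz)
          · rw [mul_inv_rev, mul_assoc]; exact hb2 _ (ha2 z hz)
        one_mem' := ⟨fun z hz => by rwa [one_mul], fun z hz => by rwa [inv_one, one_mul]⟩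
        inv_mem' := by
          rintro a ⟨ha1, ha2⟩
          exact ⟨ha2, fun z hz => by rw [inv_inv]; exact ha1 z hz⟩ }
    have hET : E ≤ T := fun b hb => ⟨hEinv b hb, hEinv _ (E.inv_mem hb)⟩
    have hNT : N ≤ T := fun b hb => ⟨hNinv b hb, hNinv _ (N.inv_mem hb)⟩
    intro b hb
    exact ((sup_le hET hNT) (hH hb)).1
  obtain ⟨lam, hlam⟩ := parry_eig n hnil M K hK (closure (S * (M : Set G))) isClosed_closure hα2
    hZM (fun z _ => by
      obtain ⟨k, hk, d, hd, hzd⟩ := hKD z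
      exact ⟨k, hk, d, hDM (hDD' hd), hzd⟩)
    E N Hh hEH hNH hH hNcomm hEnorm hEpath hHinv S hSN hα1 f hfcont
    (fun m => if h : m ∈ M then χ ⟨m, h⟩ else 1)
    (by
      rw [hZ]
      rintro _ ⟨c, hc, m, hm, rfl⟩ m' hm'
      show f (c * m * m') = f (c * m) * (if h : m' ∈ M then χ ⟨m', h⟩ else 1)
      rw [dif_pos hm']
      have h1 := hf c hc (⟨m, hm⟩ * ⟨m', hm'⟩)
      have h2 := hf c hc ⟨m, hm⟩
      rw [map_mul] at h1
      rw [show c * m * m' = c * ((⟨m, hm⟩ * ⟨m', hm'⟩ : M) : G) by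
        rw [mul_assoc]; rfl, h1, ← h2])
    (by
      rw [hZ]
      rintro s hs _ ⟨c, hc, m, hm, rfl⟩
      show f (s * (c * m)) = f (c * m)
      rw [← mul_assoc]
      rw [hf (s * c) (hSC s hs c hc) ⟨m, hm⟩, hf c hc ⟨m, hm⟩])
  have hf1 : f 1 = 1 := hfC 1 hone
  have hlam1 : ∀ (b : G) (hb : b ∈ Hh), lam ⟨b, hb⟩ = f b := by
    intro b hb
    have := hlam b hb 1 hα2
    rw [mul_one, hf1, mul_one] at this
    exact this.symm
  have hlamE := hFS lam (by
      have h1 : (fun h : E => lam ⟨h, hEH h.2⟩) = fun h : E => f h := by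
        funext h; exact hlam1 _ _
      rw [h1, continuous_iff_continuousAt]
      intro h
      have h2 := hfcont.comp_continuous (f := fun h : E => (h : G)) continuous_subtype_val
        (fun h => hβ h h.2)
      exact h2.continuousAt)
    (fun s hs => by rw [hlam1]; exact hfC s (hSsub s hs))
    (fun d hd hd' => by rw [hlam1]; exact hfC d (hD'C d (hDD' hd)))
  have hfin := hlamE hs hhs
  rw [hlam1] at hfin
  apply hχm₀
  have h1 := hf c₀ hc₀ ⟨m₀, hm₀⟩
  rw [← h1]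
  show f (c₀ * m₀) = 1
  rw [hcm₀']
  exact hfin

end parry_aux

theorem parry {G : Type*} [Group G] [TopologicalSpace G] [IsTopologicalGroup G]
    (n : ℕ) (hnil : (⊤ : Subgroup G).lowerCentralSeries n = ⊥)
    (D : Subgroup G) (hD : IsClosed (D : Set G)) (K : Set G) (hK : IsCompact K)
    (hKD : ∀ x : G, ∃ k ∈ K, ∃ d ∈ D, x = k * d)
    (E N Hh : Subgroup G) (hEH : E ≤ Hh) (hNH : N ≤ Hh) (hH : Hh ≤ E ⊔ N)
    (hNcomm : ∀ a ∈ N, ∀ b ∈ N, a * b = b * a)
    (hEnorm : ∀ b ∈ Hh, ∀ h ∈ E, b * h * b⁻¹ ∈ E)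
    (hEpath : ∀ h ∈ E, JoinedIn (E : Set G) 1 h)
    (hNE : ∀ b ∈ N, ∃ h ∈ E, ∃ d ∈ D, b = h * d)
    (S : Set G) (hSne : S.Nonempty) (hSN : S ⊆ (N : Set G)) (hSS : ∀ a ∈ S, ∀ b ∈ S, a * b ∈ S)
    (hFS : ∀ lam : Hh →* Circle, Continuous (fun h : E => lam ⟨h, hEH h.2⟩) →
      (∀ s (hs : s ∈ S), lam ⟨s, hNH (hSN hs)⟩ = 1) →
      (∀ d ∈ D, ∀ hd' : d ∈ Hh, lam ⟨d, hd'⟩ = 1) → ∀ h (hh : h ∈ E), lam ⟨h, hEH hh⟩ = 1) :
    ∀ h ∈ E, h ∈ closure (S * (D : Set G)) := by
  have key : ∀ i : ℕ, ∀ D' : Subgroup G, IsClosed (D' : Set G) → D ≤ D' →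
      (⊤ : Subgroup G).lowerCentralSeries i ≤ D' → ParryClaim S E D' := by
    intro i
    induction i with
    | zero =>
      intro D' _ _ hF
      have h1 : D' = ⊤ := top_le_iff.1 hF
      subst h1
      obtain ⟨s, hs⟩ := hSne
      refine ⟨fun z _ => subset_closure ⟨s, hs, (s * z)⁻¹, Subgroup.mem_top _, by group⟩,
        subset_closure ⟨s, hs, s⁻¹, Subgroup.mem_top _, mul_inv_cancel s⟩,
        fun h _ => subset_closure ⟨s, hs, s⁻¹ * h, Subgroup.mem_top _, mul_inv_cancel_left s h⟩⟩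
    | succ i ih =>
      intro D' hD' hDD' hF
      set F := (⊤ : Subgroup G).lowerCentralSeries i with hFdef
      have hFc : ∀ x ∈ F, ∀ y : G, x * y * x⁻¹ * y⁻¹ ∈ D' := by
        intro x hx y
        apply hF
        rw [Subgroup.lowerCentralSeries_succ]
        exact Subgroup.commutator_mem_commutator hx (Subgroup.mem_top y)
      have hFn : ∀ x ∈ F, ∀ d ∈ D', x * d * x⁻¹ ∈ D' := by
        intro x hx d hd
        have := D'.mul_mem (hFc x hx d) hd
        rwa [inv_mul_cancel_right] at this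
      -- normality of D' in the join
      have hn0 : ∀ m ∈ F ⊔ D', ∀ d ∈ D', m * d * m⁻¹ ∈ D' := by
        let T : Subgroup G :=
          { carrier := {m | (∀ d ∈ D', m * d * m⁻¹ ∈ D') ∧ ∀ d ∈ D', m⁻¹ * d * m ∈ D'}
            mul_mem' := by
              rintro a b ⟨ha1, ha2⟩ ⟨hb1, hb2⟩
              refine ⟨fun d hd => ?_, fun d hd => ?_⟩
              · have := ha1 _ (hb1 d hd)
                have e : a * (b * d * b⁻¹) * a⁻¹ = a * b * d * (a * b)⁻¹ := by group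
                rwa [e] at this
              · have := hb2 _ (ha2 d hd)
                have e : b⁻¹ * (a⁻¹ * d * a) * b = (a * b)⁻¹ * d * (a * b) := by group
                rwa [e] at this
            one_mem' := ⟨fun d hd => by simpa using hd, fun d hd => by simpa using hd⟩
            inv_mem' := by
              rintro a ⟨ha1, ha2⟩
              refine ⟨fun d hd => ?_, fun d hd => ?_⟩
              · rw [inv_inv]; exact ha2 d hd
              · rw [inv_inv]; exact ha1 d hd }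
        have hFT : F ≤ T := by
          intro x hx
          refine ⟨hFn x hx, fun d hd => ?_⟩
          have := hFn x⁻¹ (F.inv_mem hx) d hd
          rwa [inv_inv] at this
        have hDT : D' ≤ T := fun x hx => ⟨fun d hd => D'.mul_mem (D'.mul_mem hx hd) (D'.inv_mem hx),
          fun d hd => D'.mul_mem (D'.mul_mem (D'.inv_mem hx) hd) hx⟩
        intro m hm
        exact ((sup_le hFT hDT) hm).1
      have hc0 : ∀ m ∈ F ⊔ D', ∀ m' ∈ F ⊔ D', m * m' * m⁻¹ * m'⁻¹ ∈ D' := by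
        intro m hm m' hm'
        have hm'inv : m'⁻¹ ∈ F ⊔ D' := (F ⊔ D').inv_mem hm'
        -- induction on m
        have hcl : F ⊔ D' = Subgroup.closure ((F : Set G) ∪ D') := by
          rw [Subgroup.closure_union, Subgroup.closure_eq, Subgroup.closure_eq]
        have hmc : m ∈ Subgroup.closure ((F : Set G) ∪ D') := by rwa [← hcl]
        induction hmc using Subgroup.closure_induction with
        | mem x hx =>
          rcases hx with hx | hx
          · exact hFc x hx m'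
          · have h1 := hn0 m' hm' x⁻¹ (D'.inv_mem hx)
            have h2 := D'.mul_mem hx h1
            have e : x * (m' * x⁻¹ * m'⁻¹) = x * m' * x⁻¹ * m'⁻¹ := by group
            rwa [e] at h2
        | one => simp
        | mul x y hx hy ihx ihy =>
          have hx' : x ∈ F ⊔ D' := by rw [hcl]; exact hx
          have hy' : y ∈ F ⊔ D' := by rw [hcl]; exact hy
          have h1 := D'.mul_mem (hn0 x hx' _ (ihy hy')) (ihx hx')
          have e : x * (y * m' * y⁻¹ * m'⁻¹) * x⁻¹ * (x * m' * x⁻¹ * m'⁻¹) =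
              x * y * m' * (x * y)⁻¹ * m'⁻¹ := by group
          rwa [e] at h1
        | inv x hx ihx =>
          have hx' : x ∈ F ⊔ D' := by rw [hcl]; exact hx
          have h1 := hn0 x⁻¹ ((F ⊔ D').inv_mem hx') _ (D'.inv_mem (ihx hx'))
          have e : x⁻¹ * (x * m' * x⁻¹ * m'⁻¹)⁻¹ * x⁻¹⁻¹ = x⁻¹ * m' * x⁻¹⁻¹ * m'⁻¹ := by group
          rwa [e] at h1
      set M := (F ⊔ D').topologicalClosure with hM
      have hMcl : IsClosed (M : Set G) := (F ⊔ D').isClosed_topologicalClosure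
      have hle : F ⊔ D' ≤ M := (F ⊔ D').le_topologicalClosure
      have hMclosure : (M : Set G) = closure ((F ⊔ D' : Subgroup G) : Set G) := rfl
      have hnorm : ∀ m ∈ M, ∀ d ∈ D', m * d * m⁻¹ ∈ D' := by
        intro m hm d hd
        have hm' : m ∈ closure ((F ⊔ D' : Subgroup G) : Set G) := hm
        have h1 : m * d * m⁻¹ ∈ closure (D' : Set G) :=
          map_mem_closure (f := fun m => m * d * m⁻¹) (by fun_prop) hm'
            (fun x hx => hn0 x hx d hd)
        rwa [hD'.closure_eq] at h1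
      have hcomm : ∀ m ∈ M, ∀ m' ∈ M, m * m' * m⁻¹ * m'⁻¹ ∈ D' := by
        intro m hm m' hm'
        have hm1 : m ∈ closure ((F ⊔ D' : Subgroup G) : Set G) := hm
        have hm2 : m' ∈ closure ((F ⊔ D' : Subgroup G) : Set G) := hm'
        have h1 : m * m' * m⁻¹ * m'⁻¹ ∈ closure (D' : Set G) :=
          map_mem_closure₂ (f := fun m m' => m * m' * m⁻¹ * m'⁻¹) (by fun_prop) hm1 hm2
            (fun x hx y hy => hc0 x hx y hy)
        rwa [hD'.closure_eq] at h1
      have hclaim := ih M hMcl (hDD'.trans (le_sup_right.trans hle)) (le_sup_left.trans hle)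
      exact parry_step n hnil D K hK hKD E N Hh hEH hNH hH hNcomm hEnorm hEpath hNE S hSne hSN
        hSS hFS D' M hD' hDD' hMcl (le_sup_right.trans hle) hnorm hcomm hclaim
  exact (key n D hD le_rfl (by rw [hnil]; exact bot_le)).2.2

end Pool.Agent.Lib.MP_35c333_an
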