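import Mathlib
import Pool.Agent.Lib.MP_35c333_an.PG
import Pool.Agent.Lib.MP_35c333_an.Taylor

set_option autoImplicit false

/-! Cocompactness of the `Γ`-valued polynomial maps. -/

namespace Pool.Agent.Lib.MP_35c333_an

open Topology Filter
open scoped Pointwise

/-- ordered product of powers with binomial exponents -/
noncomputable def polyCompactP {H : Type*} [Group H] {D c : ℕ} (Λ : List (Fin D → Fin (c + 1)))
    (b : (Fin D → Fin (c + 1)) → H) : (Fin D → ℤ) → H :=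
  fun v => (Λ.map (fun α => b α ^ Cb (fun i => (α i : ℕ)) v)).prod

theorem polyCompactP_mem {H : Type*} [Group H] {D c : ℕ} :
    ∀ (Λ : List (Fin D → Fin (c + 1))), (∀ α ∈ Λ, ∑ i, (α i : ℕ) ≤ c) →
    ∀ (b : (Fin D → Fin (c + 1)) → H), (∀ α, b α ∈ lcsF H c) →
      polyCompactP Λ b ∈ PolyGroup (Fin D → ℤ) (lcsF H) isFilt_lcsF
  | [], _, b, _ => by
      have : polyCompactP [] b = (1 : (Fin D → ℤ) → H) := by
        funext v; simp [polyCompactP]
      rw [this]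
      exact Subgroup.one_mem _
  | α :: Λ, hΛ, b, hb => by
      have e : polyCompactP (α :: Λ) b =
          (fun v => b α ^ Cb (fun i => (α i : ℕ)) v) * polyCompactP Λ b := by
        funext v; simp [polyCompactP]
      rw [e]
      refine Subgroup.mul_mem _ (fun n => ?_)
        (polyCompactP_mem Λ (fun β hβ => hΛ β (List.mem_cons_of_mem _ hβ)) b hb)
      have h1 := isPoly_zpow_of_vanish (isFilt_lcsF (H := H)) (hb α) n
        (∑ i, (α i : ℕ)) (Cb (fun i => (α i : ℕ)) : (Fin D → ℤ) → ℤ)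
        (vanish_Cb (fun i => (α i : ℕ))) (hΛ α List.mem_cons_self)
      exact h1.le isFilt_lcsF (Nat.zero_le _)

theorem polyCompactP_sub {H : Type*} [Group H] {D c : ℕ} (Λ : List (Fin D → Fin (c + 1)))
    (G : Subgroup H) (b : (Fin D → Fin (c + 1)) → H) (hb : ∀ α, b α ∈ G) (v : Fin D → ℤ) :
    polyCompactP Λ b v ∈ G := by
  refine Subgroup.list_prod_mem _ (fun x hx => ?_)
  obtain ⟨α, _, rfl⟩ := List.mem_map.1 hx
  exact G.zpow_mem (hb α) _

theorem polyCompactP_coe {H : Type*} [Group H] {D c : ℕ} (Λ : List (Fin D → Fin (c + 1)))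
    (K : Subgroup H) (b : (Fin D → Fin (c + 1)) → K) (v : Fin D → ℤ) :
    polyCompactP Λ (fun α => (b α : H)) v = ((polyCompactP Λ b v : K) : H) := by
  unfold polyCompactP
  rw [Subgroup.val_list_prod, List.map_map]
  rfl

theorem polyCompactP_map {H Q : Type*} [Group H] [CommGroup Q] {D c : ℕ}
    (Λ : List (Fin D → Fin (c + 1))) (π : H →* Q) (b : (Fin D → Fin (c + 1)) → H)
    (v : Fin D → ℤ) : π (polyCompactP Λ b v) =
      (Λ.map (fun α => π (b α) ^ Cb (fun i => (α i : ℕ)) v)).prod := by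
  unfold polyCompactP
  rw [map_list_prod, List.map_map]
  congr 1
  refine List.map_congr_left (fun α _ => ?_)
  simp

theorem polyCompactP_continuous {H : Type*} [Group H] [TopologicalSpace H] [IsTopologicalGroup H]
    {D c : ℕ} (Λ : List (Fin D → Fin (c + 1))) :
    Continuous (fun b : (Fin D → Fin (c + 1)) → H => polyCompactP Λ b) := by
  refine continuous_pi (fun v => ?_)
  unfold polyCompactP
  exact continuous_list_prod Λ (fun α _ => (continuous_zpow _).comp (continuous_apply α))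

theorem polyCompact_step {H : Type*} [Group H] [TopologicalSpace H] [IsTopologicalGroup H]
    (D : ℕ) (Γ : Subgroup H) (c : ℕ) (hc : 1 ≤ c)
    (hM : ∃ K : Set H, IsCompact K ∧ K ⊆ (lcsF H c : Set H) ∧
      ∀ x ∈ lcsF H c, ∃ k ∈ K, ∃ δ ∈ Γ, x = k * δ)
    (ih : ∃ C : Set ((Fin D → ℤ) → H), IsCompact C ∧
      (∀ g ∈ C, g ∈ PolyGroup (Fin D → ℤ) (lcsF H) isFilt_lcsF) ∧
      ∀ f ∈ PolyGroup (Fin D → ℤ) (lcsF H) isFilt_lcsF, (∀ v, f v ∈ lcsF H (c + 1)) →
        ∃ g ∈ C, ∃ γ : (Fin D → ℤ) → H, (∀ v, γ v ∈ Γ) ∧ f = g * γ) :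
    ∃ C : Set ((Fin D → ℤ) → H), IsCompact C ∧
      (∀ g ∈ C, g ∈ PolyGroup (Fin D → ℤ) (lcsF H) isFilt_lcsF) ∧
      ∀ f ∈ PolyGroup (Fin D → ℤ) (lcsF H) isFilt_lcsF, (∀ v, f v ∈ lcsF H c) →
        ∃ g ∈ C, ∃ γ : (Fin D → ℤ) → H, (∀ v, γ v ∈ Γ) ∧ f = g * γ := by
  obtain ⟨K, hK, hKsub, hKcov⟩ := hM
  obtain ⟨C, hC, hCpoly, hCcov⟩ := ih
  set Λ : List (Fin D → Fin (c + 1)) :=
    (Finset.univ.filter (fun α : Fin D → Fin (c + 1) => ∑ i, (α i : ℕ) ≤ c)).toList with hΛdef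
  have hΛ : ∀ α ∈ Λ, ∑ i, (α i : ℕ) ≤ c := by
    intro α hα
    rw [hΛdef, Finset.mem_toList, Finset.mem_filter] at hα
    exact hα.2
  set B : Set ((Fin D → Fin (c + 1)) → H) := Set.univ.pi (fun _ => K) with hBdef
  have hBcomp : IsCompact B := isCompact_univ_pi (fun _ => hK)
  have hP : IsCompact ((fun b : (Fin D → Fin (c + 1)) → H => polyCompactP Λ b) '' B) :=
    hBcomp.image (polyCompactP_continuous Λ)
  refine ⟨((fun b : (Fin D → Fin (c + 1)) → H => polyCompactP Λ b) '' B) * C, hP.mul hC, ?_, ?_⟩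
  · rintro _ ⟨_, ⟨b, hb, rfl⟩, g, hg, rfl⟩
    exact Subgroup.mul_mem _ (polyCompactP_mem Λ hΛ b
      (fun α => hKsub (hb α (Set.mem_univ α)))) (hCpoly g hg)
  · intro f hf hfc
    obtain ⟨Q, _, π, hπs, hπk⟩ := exists_comm_quot (lcsF H c) (lcsF H (c + 1))
      (isFilt_lcsF.anti c) (fun x hx y hy =>
        (isFilt_lcsF (H := H)).le (by omega : c + 1 ≤ c + c) (isFilt_lcsF.comm c c x hx y hy))
    have hder : DerIn (lcsF H (c + 1)) (c + 1) f := by
      have := IsPoly.derIn (hf (c + 1))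
      rwa [Nat.zero_add] at this
    obtain ⟨a, ha1, ha⟩ := taylor_group (lcsF H c) (lcsF H (c + 1)) π hπk D c f hfc hder
    choose ã hã using fun α => hπs (a α)
    choose b hbK δ hδΓ hbδ using fun α => hKcov (ã α : H) (ã α).2
    have hbF : ∀ α, b α ∈ lcsF H c := fun α => hKsub (hbK α)
    have hδF : ∀ α, δ α ∈ lcsF H c := fun α => by
      have h1 : δ α = (b α)⁻¹ * (ã α : H) := by rw [hbδ α]; group
      rw [h1]
      exact Subgroup.mul_mem _ (Subgroup.inv_mem _ (hbF α)) (ã α).2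
    set b' : (Fin D → Fin (c + 1)) → lcsF H c := fun α => ⟨b α, hbF α⟩ with hb'
    set δ' : (Fin D → Fin (c + 1)) → lcsF H c := fun α => ⟨δ α, hδF α⟩ with hδ'
    have hPb : polyCompactP Λ b ∈ PolyGroup (Fin D → ℤ) (lcsF H) isFilt_lcsF :=
      polyCompactP_mem Λ hΛ b hbF
    have hPδ : polyCompactP Λ δ ∈ PolyGroup (Fin D → ℤ) (lcsF H) isFilt_lcsF :=
      polyCompactP_mem Λ hΛ δ hδF
    have hval : ∀ v, ((polyCompactP Λ b)⁻¹ * f * (polyCompactP Λ δ)⁻¹) v ∈ lcsF H (c + 1) := by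
      intro v
      have e1 : ((polyCompactP Λ b)⁻¹ * f * (polyCompactP Λ δ)⁻¹) v =
          (((polyCompactP Λ b' v)⁻¹ * ⟨f v, hfc v⟩ * (polyCompactP Λ δ' v)⁻¹ : lcsF H c) : H) := by
        simp only [Pi.mul_apply, Pi.inv_apply, Subgroup.coe_mul, InvMemClass.coe_inv]
        rw [← polyCompactP_coe, ← polyCompactP_coe]
      rw [e1, ← hπk]
      rw [map_mul, map_mul, map_inv, map_inv, polyCompactP_map, polyCompactP_map, ha v]
      have h2 : ∏ α, a α ^ Cb (fun i => (α i : ℕ)) v =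
          (Λ.map (fun α => π (b' α) ^ Cb (fun i => (α i : ℕ)) v)).prod *
          (Λ.map (fun α => π (δ' α) ^ Cb (fun i => (α i : ℕ)) v)).prod := by
        rw [← List.prod_map_mul]
        have h3 : ∀ α, π (b' α) ^ Cb (fun i => (α i : ℕ)) v * π (δ' α) ^ Cb (fun i => (α i : ℕ)) v =
            a α ^ Cb (fun i => (α i : ℕ)) v := by
          intro α
          rw [← mul_zpow, ← map_mul]
          congr 1
          rw [← hã α]
          congr 1
          exact Subtype.ext (hbδ α).symm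
        simp only [h3]
        rw [hΛdef, Finset.prod_map_toList]
        symm
        refine Finset.prod_subset (Finset.filter_subset _ _) (fun α _ hα => ?_)
        rw [ha1 α, one_zpow]
        by_contra h
        exact hα (Finset.mem_filter.2 ⟨Finset.mem_univ _, not_lt.1 h⟩)
      rw [h2]
      group
    have hpoly : (polyCompactP Λ b)⁻¹ * f * (polyCompactP Λ δ)⁻¹ ∈
        PolyGroup (Fin D → ℤ) (lcsF H) isFilt_lcsF :=
      Subgroup.mul_mem _ (Subgroup.mul_mem _ (Subgroup.inv_mem _ hPb) hf)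
        (Subgroup.inv_mem _ hPδ)
    obtain ⟨g, hg, γ, hγ, hgγ⟩ := hCcov _ hpoly hval
    refine ⟨polyCompactP Λ b * g, ⟨_, ⟨b, fun α _ => hbK α, rfl⟩, g, hg, rfl⟩,
      γ * polyCompactP Λ δ, fun v => ?_, ?_⟩
    · exact Γ.mul_mem (hγ v) (polyCompactP_sub Λ Γ δ hδΓ v)
    · have h1 : f = polyCompactP Λ b * ((polyCompactP Λ b)⁻¹ * f * (polyCompactP Λ δ)⁻¹) *
          polyCompactP Λ δ := by group
      rw [h1, hgγ]
      group

theorem poly_cocompact {H : Type*} [Group H] [TopologicalSpace H] [IsTopologicalGroup H] (D : ℕ)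
    (s : ℕ) (hnil : (⊤ : Subgroup H).lowerCentralSeries s = ⊥) (Γ : Subgroup H)
    (hM : ∀ c : ℕ, ∃ K : Set H, IsCompact K ∧ K ⊆ ((⊤ : Subgroup H).lowerCentralSeries c : Set H) ∧
      ∀ x ∈ (⊤ : Subgroup H).lowerCentralSeries c, ∃ k ∈ K, ∃ δ ∈ Γ, x = k * δ) :
    ∃ C : Set (PG D H), IsCompact C ∧ ∀ x : PG D H, ∃ c ∈ C, ∃ d ∈ PG.DG D Γ, x = c * d := by
  have key : ∀ m : ℕ, m ≤ s → ∃ C : Set ((Fin D → ℤ) → H), IsCompact C ∧
      (∀ g ∈ C, g ∈ PolyGroup (Fin D → ℤ) (lcsF H) isFilt_lcsF) ∧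
      ∀ f ∈ PolyGroup (Fin D → ℤ) (lcsF H) isFilt_lcsF, (∀ v, f v ∈ lcsF H (s + 1 - m)) →
        ∃ g ∈ C, ∃ γ : (Fin D → ℤ) → H, (∀ v, γ v ∈ Γ) ∧ f = g * γ := by
    intro m
    induction m with
    | zero =>
      intro _
      refine ⟨{1}, isCompact_singleton, ?_, ?_⟩
      · rintro g hg
        rw [Set.mem_singleton_iff] at hg
        rw [hg]
        exact Subgroup.one_mem _
      · intro f _ hfv
        refine ⟨1, rfl, f, fun v => ?_, (one_mul f).symm⟩
        have h1 := hfv v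
        have h2 : lcsF H (s + 1 - 0) = ⊥ := hnil
        rw [h2, Subgroup.mem_bot] at h1
        rw [h1]
        exact Γ.one_mem
    | succ m ih =>
      intro hm
      have e : s + 1 - m = (s + 1 - (m + 1)) + 1 := by omega
      have ih' := ih (by omega)
      rw [e] at ih'
      exact polyCompact_step D Γ (s + 1 - (m + 1)) (by omega) (hM _) ih'
  obtain ⟨C, hC, hCpoly, hCcov⟩ := key s le_rfl
  have e : s + 1 - s = 1 := by omega
  rw [e] at hCcov
  refine ⟨{x : PG D H | x.f ∈ C ∧ x.n = 0}, ?_, ?_⟩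
  · have hind : IsInducing (fun x : PG D H => (x.f, x.n)) := ⟨rfl⟩
    rw [hind.isCompact_iff]
    have h1 : (fun x : PG D H => (x.f, x.n)) '' {x : PG D H | x.f ∈ C ∧ x.n = 0} =
        C ×ˢ ({0} : Set ℤ) := by
      ext ⟨g, n⟩
      constructor
      · rintro ⟨x, ⟨hx1, hx2⟩, hx⟩
        rw [Prod.mk.injEq] at hx
        obtain ⟨rfl, rfl⟩ := hx
        exact ⟨hx1, hx2⟩
      · rintro ⟨hg, hn⟩
        have hn' : n = 0 := hn
        subst hn'
        exact ⟨⟨g, 0, hCpoly g hg⟩, ⟨hg, rfl⟩, rfl⟩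
    rw [h1]
    exact hC.prod isCompact_singleton
  · intro x
    obtain ⟨g, hg, γ, hγ, hx⟩ := hCcov x.f x.poly (fun v => by rw [lcsF_one]; trivial)
    have hγp : γ ∈ PolyGroup (Fin D → ℤ) (lcsF H) isFilt_lcsF := by
      have h1 : γ = g⁻¹ * x.f := by rw [hx]; group
      rw [h1]
      exact Subgroup.mul_mem _ (Subgroup.inv_mem _ (hCpoly g hg)) x.poly
    refine ⟨⟨g, 0, hCpoly g hg⟩, ⟨hg, rfl⟩, ⟨γ, x.n, hγp⟩, hγ, ?_⟩
    apply PG.ext'
    · intro v
      simp only [PG.mul_f]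
      rw [hx, sig_zero]
      rfl
    · simp

end Pool.Agent.Lib.MP_35c333_an
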