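import Mathlib
import Pool.Agent.Lib.MP_35c333_an.FinalStep
import Pool.Agent.Lib.MP_35c333_an.Parry
import Pool.Agent.Lib.MP_35c333_an.PolyCompact
import Pool.Agent.Lib.MP_35c333_an.Nilp

set_option autoImplicit false

/-! The acting group on the polynomial nilmanifold, and the main recurrence statement in `H`. -/

namespace Pool.Agent.Lib.MP_35c333_an

open Topology Filter
open scoped Pointwise

section Act

variable {H : Type*} [Group H] (D : ℕ) (P : Subgroup H) (γ : H)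

/-- generators of the path connected part, before conjugation -/
def AG.base : Set (PG D H) :=
  {z | (∃ c ∈ P, z = PG.T D c) ∨ ∃ b, b * γ⁻¹ ∈ P ∧ z = PG.R D b * (PG.R D γ)⁻¹}

/-- generators of the path connected part -/
def AG.gen : Set (PG D H) := {x | ∃ y ∈ HhS D P γ, ∃ z ∈ AG.base D P γ, x = y * z * y⁻¹}

/-- the path connected part -/
def AG.EE : Subgroup (PG D H) := Subgroup.closure (AG.gen D P γ)

/-- the commutative part -/
def AG.NN (g : H) : Subgroup (PG D H) := Subgroup.closure {PG.T D g, PG.R D g}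

/-- the semigroup of translations used -/
def AG.SS (g : H) (k : ℕ) : Set (PG D H) :=
  {x | ∃ n : ℕ, 0 < n ∧ ∃ m : ℤ, x = PG.R D g ^ ((k : ℤ) * n) * PG.T D g ^ m}

variable {D P γ}

theorem AG.base_mem {z : PG D H} (hz : z ∈ AG.base D P γ) : z ∈ HhS D P γ := by
  rcases hz with (⟨c, hc, rfl⟩ | ⟨b, hb, rfl⟩)
  · exact FS.Tc_mem hc
  · exact Subgroup.mul_mem _ (FS.R_mem hb) (Subgroup.inv_mem _ FS.Rγ_mem)

theorem AG.base_EE {z : PG D H} (hz : z ∈ AG.base D P γ) : z ∈ AG.EE D P γ :=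
  Subgroup.subset_closure ⟨1, Subgroup.one_mem _, z, hz, by simp⟩

theorem AG.EE_le : AG.EE D P γ ≤ HhS D P γ := by
  refine (Subgroup.closure_le _).2 ?_
  rintro x ⟨y, hy, z, hz, rfl⟩
  exact Subgroup.mul_mem _ (Subgroup.mul_mem _ hy (AG.base_mem hz)) (Subgroup.inv_mem _ hy)

theorem AG.EE_norm {b : PG D H} (hb : b ∈ HhS D P γ) {h : PG D H} (hh : h ∈ AG.EE D P γ) :
    b * h * b⁻¹ ∈ AG.EE D P γ := by
  have h1 : AG.EE D P γ ≤ (AG.EE D P γ).comap (MulAut.conj b).toMonoidHom := by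
    refine (Subgroup.closure_le _).2 ?_
    rintro x ⟨y, hy, z, hz, rfl⟩
    rw [SetLike.mem_coe, Subgroup.mem_comap]
    refine Subgroup.subset_closure ⟨b * y, Subgroup.mul_mem _ hb hy, z, hz, ?_⟩
    simp [MulAut.conj_apply, mul_assoc]
  exact h1 hh

theorem AG.NN_le {g : H} (hPγ : P ⊔ Subgroup.zpowers γ = ⊤) (hg : g * γ⁻¹ ∈ P) :
    AG.NN D g ≤ HhS D P γ := by
  refine (Subgroup.closure_le _).2 ?_
  rintro x (rfl | rfl)
  · exact FS.T_mem hPγ g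
  · exact FS.R_mem hg

theorem AG.TR_comm (g : H) : PG.T D g * PG.R D g = PG.R D g * PG.T D g := by
  apply PG.ext'
  · intro v
    simp only [PG.mul_f, PG.T_f, PG.R_f, PG.T_n]
    rw [sig_zero, ← zpow_one_add, ← zpow_add_one, add_comm]
  · simp

theorem AG.NN_comm (g : H) : ∀ a ∈ AG.NN D g, ∀ b ∈ AG.NN D g, a * b = b * a := by
  have h1 : ∀ a ∈ ({PG.T D g, PG.R D g} : Set (PG D H)), ∀ b ∈ ({PG.T D g, PG.R D g} : Set (PG D H)),
      a * b = b * a := by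
    rintro a (rfl | rfl) b (rfl | rfl)
    · rfl
    · exact AG.TR_comm g
    · exact (AG.TR_comm g).symm
    · rfl
  intro a ha b hb
  induction ha, hb using Subgroup.closure_induction₂ with
  | mem x y hx hy => exact h1 x hx y hy
  | one_left y hy => simp
  | one_right x hx => simp
  | mul_left x y z hx hy hz h1 h2 => exact (Commute.mul_left (show Commute x z from h1) h2)
  | mul_right x y z hx hy hz h1 h2 => exact (Commute.mul_right (show Commute z x from h1) h2)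
  | inv_left x y hx hy h => exact (show Commute x y from h).inv_left
  | inv_right x y hx hy h => exact (show Commute x y from h).inv_right

theorem AG.T_base {c : H} (hc : c ∈ P) : PG.T D c ∈ AG.base D P γ := Or.inl ⟨c, hc, rfl⟩

theorem AG.R_base {b : H} (hb : b * γ⁻¹ ∈ P) : PG.R D b * (PG.R D γ)⁻¹ ∈ AG.base D P γ :=
  Or.inr ⟨b, hb, rfl⟩

theorem AG.Hh_le {g : H} (hg : g * γ⁻¹ ∈ P) :
    HhS D P γ ≤ AG.EE D P γ ⊔ AG.NN D g := by
  have hE : AG.EE D P γ ≤ AG.EE D P γ ⊔ AG.NN D g := le_sup_left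
  have hTg : PG.T D g ∈ AG.EE D P γ ⊔ AG.NN D g :=
    (le_sup_right : AG.NN D g ≤ _) (Subgroup.subset_closure (Or.inl rfl))
  have hRg : PG.R D g ∈ AG.EE D P γ ⊔ AG.NN D g :=
    (le_sup_right : AG.NN D g ≤ _) (Subgroup.subset_closure (Or.inr rfl))
  have hRγ : PG.R D γ ∈ AG.EE D P γ ⊔ AG.NN D g := by
    have h1 : (PG.R D g * (PG.R D γ)⁻¹)⁻¹ * PG.R D g ∈ AG.EE D P γ ⊔ AG.NN D g :=
      Subgroup.mul_mem _ (Subgroup.inv_mem _ (hE (AG.base_EE (AG.R_base hg)))) hRg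
    simpa using h1
  refine (Subgroup.closure_le _).2 ?_
  rintro x (⟨c, hc, rfl⟩ | rfl | ⟨b, hb, rfl⟩)
  · exact hE (AG.base_EE (AG.T_base hc))
  · have h2 : (PG.T D (g * γ⁻¹))⁻¹ * PG.T D g ∈ AG.EE D P γ ⊔ AG.NN D g :=
      Subgroup.mul_mem _ (Subgroup.inv_mem _ (hE (AG.base_EE (AG.T_base hg)))) hTg
    have e : (PG.T D (g * γ⁻¹))⁻¹ * PG.T D g = PG.T D γ := by
      rw [← PG.T_inv, ← PG.T_mul]; congr 1; group
    rwa [e] at h2
  · have h2 : PG.R D b * (PG.R D γ)⁻¹ * PG.R D γ ∈ AG.EE D P γ ⊔ AG.NN D g :=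
      Subgroup.mul_mem _ (hE (AG.base_EE (AG.R_base hb))) hRγ
    simpa using h2

theorem AG.NN_dec {Γ : Subgroup H} {g : H} (hγ : γ ∈ Γ) (hg : g * γ⁻¹ ∈ P) :
    ∀ b ∈ AG.NN D g, ∃ h ∈ AG.EE D P γ, ∃ d ∈ PG.DG D Γ, b = h * d := by
  -- the subgroup of such products
  let A : Subgroup (PG D H) :=
    { carrier := {b | ∃ h ∈ AG.EE D P γ, ∃ d ∈ PG.DG D Γ ⊓ HhS D P γ, b = h * d}
      mul_mem' := by
        rintro _ _ ⟨h, hh, d, hd, rfl⟩ ⟨h', hh', d', hd', rfl⟩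
        refine ⟨h * (d * h' * d⁻¹), Subgroup.mul_mem _ hh (AG.EE_norm hd.2 hh'), d * d',
          Subgroup.mul_mem _ hd hd', ?_⟩
        group
      one_mem' := ⟨1, Subgroup.one_mem _, 1, Subgroup.one_mem _, by simp⟩
      inv_mem' := by
        rintro _ ⟨h, hh, d, hd, rfl⟩
        refine ⟨d⁻¹ * h⁻¹ * (d⁻¹)⁻¹, AG.EE_norm (Subgroup.inv_mem _ hd.2) (Subgroup.inv_mem _ hh), d⁻¹,
          Subgroup.inv_mem _ hd, ?_⟩
        group }
  have h1 : AG.NN D g ≤ A := by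
    refine (Subgroup.closure_le _).2 ?_
    rintro x (rfl | rfl)
    · refine ⟨PG.T D (g * γ⁻¹), AG.base_EE (AG.T_base hg), PG.T D γ, ⟨fun v => hγ, FS.Tγ_mem⟩, ?_⟩
      rw [← PG.T_mul, inv_mul_cancel_right]
    · refine ⟨PG.R D g * (PG.R D γ)⁻¹, AG.base_EE (AG.R_base hg), PG.R D γ, ⟨fun v => ?_, FS.Rγ_mem⟩, ?_⟩
      · rw [PG.R_f]; exact Γ.zpow_mem hγ _
      · rw [inv_mul_cancel_right]
  intro b hb
  obtain ⟨h, hh, d, hd, rfl⟩ := h1 hb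
  exact ⟨h, hh, d, hd.1, rfl⟩

theorem AG.SS_sub (g : H) (k : ℕ) : AG.SS D g k ⊆ (AG.NN D g : Set (PG D H)) := by
  rintro x ⟨n, _, m, rfl⟩
  have hR : PG.R D g ∈ AG.NN D g := Subgroup.subset_closure (Or.inr rfl)
  have hT : PG.T D g ∈ AG.NN D g := Subgroup.subset_closure (Or.inl rfl)
  exact Subgroup.mul_mem _ (Subgroup.zpow_mem _ hR _) (Subgroup.zpow_mem _ hT _)

theorem AG.SS_mul (g : H) (k : ℕ) : ∀ a ∈ AG.SS D g k, ∀ b ∈ AG.SS D g k, a * b ∈ AG.SS D g k := by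
  rintro _ ⟨n, hn, m, rfl⟩ _ ⟨n', hn', m', rfl⟩
  refine ⟨n + n', by omega, m + m', ?_⟩
  have hc : Commute (PG.T D g) (PG.R D g) := AG.TR_comm g
  have h1 := (hc.zpow_zpow m ((k : ℤ) * n')).eq
  push_cast
  rw [mul_add, zpow_add, zpow_add]
  calc PG.R D g ^ ((k : ℤ) * n) * PG.T D g ^ m * (PG.R D g ^ ((k : ℤ) * n') * PG.T D g ^ m')
      = PG.R D g ^ ((k : ℤ) * n) * (PG.T D g ^ m * PG.R D g ^ ((k : ℤ) * n')) * PG.T D g ^ m' := by
        group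
    _ = _ := by rw [h1]; group

end Act

section ActTop

variable {H : Type*} [Group H] [TopologicalSpace H] [IsTopologicalGroup H] {D : ℕ} {P : Subgroup H} {γ : H}

theorem AG.base_path (hPpath : ∀ c ∈ P, JoinedIn (P : Set H) 1 c) {z : PG D H}
    (hz : z ∈ AG.base D P γ) : JoinedIn (AG.base D P γ) 1 z := by
  rcases hz with (⟨c, hc, rfl⟩ | ⟨b, hb, rfl⟩)
  · obtain ⟨p, hp⟩ := hPpath c hc
    refine ⟨⟨⟨fun t => PG.T D (p t), PG.continuous_T.comp p.continuous⟩, ?_, ?_⟩, fun t => ?_⟩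
    · show PG.T D (p 0) = 1
      rw [p.source]; rfl
    · show PG.T D (p 1) = PG.T D c
      rw [p.target]
    · exact AG.T_base (hp t)
  · obtain ⟨p, hp⟩ := hPpath _ hb
    refine ⟨⟨⟨fun t => PG.R D (p t * γ) * (PG.R D γ)⁻¹,
      (PG.continuous_R.comp (p.continuous.mul continuous_const)).mul continuous_const⟩, ?_, ?_⟩,
      fun t => ?_⟩
    · show PG.R D (p 0 * γ) * (PG.R D γ)⁻¹ = 1
      rw [p.source, one_mul, mul_inv_cancel]
    · show PG.R D (p 1 * γ) * (PG.R D γ)⁻¹ = PG.R D b * (PG.R D γ)⁻¹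
      rw [p.target, inv_mul_cancel_right]
    · refine AG.R_base ?_
      show p t * γ * γ⁻¹ ∈ P
      rw [mul_inv_cancel_right]; exact hp t

theorem AG.gen_path (hPpath : ∀ c ∈ P, JoinedIn (P : Set H) 1 c) {x : PG D H}
    (hx : x ∈ AG.gen D P γ) : JoinedIn (AG.EE D P γ : Set (PG D H)) 1 x := by
  obtain ⟨y, hy, z, hz, rfl⟩ := hx
  obtain ⟨p, hp⟩ := AG.base_path hPpath hz
  refine ⟨⟨⟨fun t => y * p t * y⁻¹, (continuous_const.mul p.continuous).mul continuous_const⟩, ?_, ?_⟩,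
    fun t => ?_⟩
  · show y * p 0 * y⁻¹ = 1
    rw [p.source]; simp
  · show y * p 1 * y⁻¹ = _
    rw [p.target]
  · exact Subgroup.subset_closure ⟨y, hy, p t, hp t, rfl⟩

theorem AG.EE_path (hPpath : ∀ c ∈ P, JoinedIn (P : Set H) 1 c) :
    ∀ h ∈ AG.EE D P γ, JoinedIn (AG.EE D P γ : Set (PG D H)) 1 h := by
  intro h hh
  unfold AG.EE at hh
  induction hh using Subgroup.closure_induction with
  | mem x hx => exact AG.gen_path hPpath hx
  | one => exact JoinedIn.refl (Subgroup.one_mem _)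
  | mul x y hx hy ihx ihy =>
    have h1 := ihx.mul ihy
    rw [one_mul] at h1
    refine h1.mono ?_
    rintro _ ⟨a, ha, b, hb, rfl⟩
    exact Subgroup.mul_mem _ ha hb
  | inv x hx ihx =>
    have h1 := ihx.inv
    rw [inv_one] at h1
    refine h1.mono ?_
    intro a ha
    have := Subgroup.inv_mem _ (Set.mem_inv.1 ha)
    simpa using this

/-- The closure statement on the polynomial nilmanifold. -/
theorem AG.closure_main [T2Space H] (D s : ℕ)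
    (hnil : (⊤ : Subgroup H).lowerCentralSeries s = ⊥)
    (P Γ : Subgroup H) [DiscreteTopology Γ] (hPn : P.Normal) (hPopen : IsOpen (P : Set H))
    (hPpath : ∀ c ∈ P, JoinedIn (P : Set H) 1 c) (γ g : H) (hγ : γ ∈ Γ)
    (hPγ : P ⊔ Subgroup.zpowers γ = ⊤) (hg : g * γ⁻¹ ∈ P)
    (hdense : ∀ m : ℕ, 0 < m → Dense {x : H | ∃ n : ℤ, ∃ δ ∈ Γ, x = (g ^ m) ^ n * δ})
    (hM : ∀ c : ℕ, ∃ K : Set H, IsCompact K ∧ K ⊆ ((⊤ : Subgroup H).lowerCentralSeries c : Set H) ∧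
      ∀ x ∈ (⊤ : Subgroup H).lowerCentralSeries c, ∃ k ∈ K, ∃ δ ∈ Γ, x = k * δ)
    (k : ℕ) (hk : 0 < k) :
    ∀ a ∈ AG.EE (D + 1) P γ, a ∈ closure (AG.SS (D + 1) g k * (PG.DG (D + 1) Γ : Set (PG (D + 1) H))) := by
  obtain ⟨n, hn⟩ := pg_nilpotent (H := H) (D + 1) s hnil
  obtain ⟨C, hC, hCD⟩ := poly_cocompact (D + 1) s hnil Γ hM
  have hΓc : IsClosed (Γ : Set H) := Subgroup.isClosed_of_discrete
  refine parry n hn (PG.DG (D + 1) Γ) (PG.isClosed_DG hΓc) C hC hCD (AG.EE (D + 1) P γ)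
    (AG.NN (D + 1) g) (HhS (D + 1) P γ) AG.EE_le (AG.NN_le hPγ hg) (AG.Hh_le hg) (AG.NN_comm g)
    (fun b hb h hh => AG.EE_norm hb hh) (AG.EE_path hPpath) (AG.NN_dec hγ hg) (AG.SS (D + 1) g k)
    ⟨_, ⟨1, one_pos, 0, rfl⟩⟩ (AG.SS_sub g k) (AG.SS_mul g k) ?_
  intro lam hc hS hDG
  have key := final_step D s hnil P Γ hPn hPopen hPpath γ g hγ hPγ hg hdense k hk lam ?_ ?_ ?_ ?_ ?_
  · intro h hh
    exact key _
  · -- T
    have h1 := hS _ (show PG.R (D + 1) g ^ ((k : ℤ) * (1 : ℕ)) * PG.T (D + 1) g ^ (1 : ℤ) ∈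
      AG.SS (D + 1) g k from ⟨1, one_pos, 1, rfl⟩)
    have h2 := hS _ (show PG.R (D + 1) g ^ ((k : ℤ) * (1 : ℕ)) * PG.T (D + 1) g ^ (0 : ℤ) ∈
      AG.SS (D + 1) g k from ⟨1, one_pos, 0, rfl⟩)
    have h3 : lam ((⟨PG.R (D + 1) g, FS.R_mem hg⟩ : HhS (D + 1) P γ) ^ ((k : ℤ) * (1 : ℕ)) *
      (⟨PG.T (D + 1) g, FS.T_mem hPγ g⟩ : HhS (D + 1) P γ) ^ (1 : ℤ)) = 1 := h1
    have h4 : lam ((⟨PG.R (D + 1) g, FS.R_mem hg⟩ : HhS (D + 1) P γ) ^ ((k : ℤ) * (1 : ℕ)) *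
      (⟨PG.T (D + 1) g, FS.T_mem hPγ g⟩ : HhS (D + 1) P γ) ^ (0 : ℤ)) = 1 := h2
    rw [zpow_zero, mul_one] at h4
    rw [map_mul, h4, one_mul, zpow_one] at h3
    exact h3
  · -- R
    have h2 := hS _ (show PG.R (D + 1) g ^ ((k : ℤ) * (1 : ℕ)) * PG.T (D + 1) g ^ (0 : ℤ) ∈
      AG.SS (D + 1) g k from ⟨1, one_pos, 0, rfl⟩)
    have h4 : lam ((⟨PG.R (D + 1) g, FS.R_mem hg⟩ : HhS (D + 1) P γ) ^ ((k : ℤ) * (1 : ℕ)) *
      (⟨PG.T (D + 1) g, FS.T_mem hPγ g⟩ : HhS (D + 1) P γ) ^ (0 : ℤ)) = 1 := h2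
    rw [zpow_zero, mul_one, map_zpow, Nat.cast_one, mul_one, zpow_natCast] at h4
    exact h4
  · intro x hx
    exact hDG _ hx x.2
  · -- continuity on T
    have h1 : Continuous fun c : P => (⟨PG.T (D + 1) (c : H), AG.base_EE (AG.T_base c.2)⟩ : AG.EE (D + 1) P γ) :=
      (PG.continuous_T.comp continuous_subtype_val).subtype_mk _
    exact hc.comp h1
  · -- continuity on R
    have h1 : Continuous fun h : P => (⟨PG.R (D + 1) ((h : H) * γ) * (PG.R (D + 1) γ)⁻¹,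
        AG.base_EE (AG.R_base (by rw [mul_inv_cancel_right]; exact h.2))⟩ : AG.EE (D + 1) P γ) :=
      ((PG.continuous_R.comp (continuous_subtype_val.mul continuous_const)).mul
        continuous_const).subtype_mk _
    have h2 := hc.comp h1
    have hγ1 : lam ⟨PG.R (D + 1) γ, FS.Rγ_mem⟩ = 1 := by
      refine hDG _ (fun v => ?_) FS.Rγ_mem
      rw [PG.R_f]; exact Γ.zpow_mem hγ _
    refine h2.congr ?_
    intro h
    show lam (⟨PG.R (D + 1) ((h : H) * γ), FS.R_mem' h⟩ * (⟨PG.R (D + 1) γ, FS.Rγ_mem⟩)⁻¹) = _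
    rw [map_mul, map_inv, hγ1, inv_one, mul_one]

/-- The main statement in `H`. -/
theorem main_H [T2Space H] (D s : ℕ)
    (hnil : (⊤ : Subgroup H).lowerCentralSeries s = ⊥)
    (P Γ : Subgroup H) [DiscreteTopology Γ] (hPn : P.Normal) (hPopen : IsOpen (P : Set H))
    (hPpath : ∀ c ∈ P, JoinedIn (P : Set H) 1 c) (γ g : H) (hγ : γ ∈ Γ)
    (hPγ : P ⊔ Subgroup.zpowers γ = ⊤) (hg : g * γ⁻¹ ∈ P)
    (hdense : ∀ m : ℕ, 0 < m → Dense {x : H | ∃ n : ℤ, ∃ δ ∈ Γ, x = (g ^ m) ^ n * δ})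
    (hM : ∀ c : ℕ, ∃ K : Set H, IsCompact K ∧ K ⊆ ((⊤ : Subgroup H).lowerCentralSeries c : Set H) ∧
      ∀ x ∈ (⊤ : Subgroup H).lowerCentralSeries c, ∃ k ∈ K, ∃ δ ∈ Γ, x = k * δ)
    (k : ℕ) (hk : 0 < k) (j : ℤ) (V : Set H) (hV : V ∈ 𝓝 (1 : H)) (W : Finset (Fin (D + 1) → ℤ)) :
    ∃ n : ℕ, 0 < n ∧ ∃ m : ℤ, ∀ w ∈ W, ∃ δ ∈ Γ, g ^ (rho ((k : ℤ) * n + j) w + m) * δ ∈ V := by
  have hmain := AG.closure_main D s hnil P Γ hPn hPopen hPpath γ g hγ hPγ hg hdense hM k hk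
  -- the element `R_g^{-j} R_γ^j`
  set a : PG (D + 1) H := PG.R (D + 1) g ^ (-j) * (PG.R (D + 1) γ ^ (-j))⁻¹ with ha
  have haE : a ∈ AG.EE (D + 1) P γ := by
    have h1 : ∀ i : ℤ, PG.R (D + 1) g ^ i * (PG.R (D + 1) γ ^ i)⁻¹ ∈ AG.EE (D + 1) P γ := by
      intro i
      induction i using Int.induction_on with
      | zero => simp
      | succ i ih =>
        have e : PG.R (D + 1) g ^ ((i : ℤ) + 1) * (PG.R (D + 1) γ ^ ((i : ℤ) + 1))⁻¹ =
            (PG.R (D + 1) g ^ (i : ℤ) * (PG.R (D + 1) g * (PG.R (D + 1) γ)⁻¹) *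
              (PG.R (D + 1) g ^ (i : ℤ))⁻¹) *
            (PG.R (D + 1) g ^ (i : ℤ) * (PG.R (D + 1) γ ^ (i : ℤ))⁻¹) := by
          rw [zpow_add_one]
          rw [zpow_add_one]; group
        rw [e]
        exact Subgroup.mul_mem _ (AG.EE_norm (Subgroup.zpow_mem _ (FS.R_mem hg) _)
          (AG.base_EE (AG.R_base hg))) ih
      | pred i ih =>
        have e : PG.R (D + 1) g ^ (-(i : ℤ) - 1) * (PG.R (D + 1) γ ^ (-(i : ℤ) - 1))⁻¹ =
            (PG.R (D + 1) g ^ (-(i : ℤ) - 1) * (PG.R (D + 1) g * (PG.R (D + 1) γ)⁻¹)⁻¹ *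
              (PG.R (D + 1) g ^ (-(i : ℤ) - 1))⁻¹) *
            (PG.R (D + 1) g ^ (-(i : ℤ)) * (PG.R (D + 1) γ ^ (-(i : ℤ)))⁻¹) := by
          rw [zpow_sub_one]
          rw [zpow_sub_one]; group
        rw [e]
        exact Subgroup.mul_mem _ (AG.EE_norm (Subgroup.zpow_mem _ (FS.R_mem hg) _)
          (Subgroup.inv_mem _ (AG.base_EE (AG.R_base hg)))) ih
    exact h1 (-j)
  have haf : ∀ v, a.f v = g ^ rho (-j) v * (γ ^ rho (-j) v)⁻¹ := by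
    intro v
    rw [ha, PG.mul_f, PG.inv_f, (PG.R_zpow _ _).1, (PG.R_zpow _ _).1, (PG.R_zpow _ _).2,
      (PG.R_zpow _ _).2, sig_sig]
    simp [sig_zero]
  have hacl := hmain a haE
  -- open neighbourhood of `a`
  let O : Set (PG (D + 1) H) := {x | ∀ w ∈ W, (g ^ rho (-j) (sig j w))⁻¹ * x.f (sig j w) *
    γ ^ rho (-j) (sig j w) ∈ V}
  have hO : O ∈ 𝓝 a := by
    have h1 : ∀ w ∈ W, {x : PG (D + 1) H | (g ^ rho (-j) (sig j w))⁻¹ * x.f (sig j w) *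
        γ ^ rho (-j) (sig j w) ∈ V} ∈ 𝓝 a := by
      intro w _
      have hc : Continuous fun x : PG (D + 1) H => (g ^ rho (-j) (sig j w))⁻¹ * x.f (sig j w) *
          γ ^ rho (-j) (sig j w) :=
        (continuous_const.mul (PG.continuous_f_apply _)).mul continuous_const
      have h2 : (g ^ rho (-j) (sig j w))⁻¹ * a.f (sig j w) * γ ^ rho (-j) (sig j w) = 1 := by
        rw [haf]; group
      have h3 : V ∈ 𝓝 ((g ^ rho (-j) (sig j w))⁻¹ * a.f (sig j w) * γ ^ rho (-j) (sig j w)) := by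
        rw [h2]; exact hV
      exact hc.continuousAt h3
    have h2 : O = ⋂ w ∈ W, {x : PG (D + 1) H | (g ^ rho (-j) (sig j w))⁻¹ * x.f (sig j w) *
        γ ^ rho (-j) (sig j w) ∈ V} := by
      ext x; simp [O]
    rw [h2]
    exact (Filter.biInter_finset_mem W).2 h1
  obtain ⟨x, hxO, hxS⟩ := mem_closure_iff_nhds.1 hacl O hO
  obtain ⟨b, ⟨n, hn, m, rfl⟩, d, hd, rfl⟩ := hxS
  refine ⟨n, hn, m, fun w hw => ?_⟩
  have h1 : (g ^ rho (-j) (sig j w))⁻¹ *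
      (PG.R (D + 1) g ^ ((k : ℤ) * n) * PG.T (D + 1) g ^ m * d).f (sig j w) *
      γ ^ rho (-j) (sig j w) ∈ V := hxO w hw
  have hTm : (PG.T (D + 1) g ^ m).n = 0 ∧ ∀ v, (PG.T (D + 1) g ^ m).f v = g ^ m := by
    rw [← PG.T_zpow]; exact ⟨rfl, fun v => rfl⟩
  have h2 : (PG.R (D + 1) g ^ ((k : ℤ) * n) * PG.T (D + 1) g ^ m * d).f (sig j w) =
      g ^ (rho ((k : ℤ) * n) (sig j w) + m) * d.f (sig ((k : ℤ) * n) (sig j w)) := by
    rw [PG.mul_f, PG.mul_f, (PG.R_zpow _ _).2, hTm.2, PG.mul_n, (PG.R_zpow _ _).1, hTm.1, add_zero,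
      zpow_add]
  rw [h2] at h1
  have h4 : rho ((k : ℤ) * n) (sig j w) = rho ((k : ℤ) * n + j) w - rho j w := rho_sig _ _ _
  have h5 : rho (-j) (sig j w) = - rho j w := by
    rw [rho_sig]; simp [rho_zero]
  refine ⟨d.f (sig ((k : ℤ) * n) (sig j w)) * γ ^ rho (-j) (sig j w),
    Γ.mul_mem (hd _) (Γ.zpow_mem hγ _), ?_⟩
  have e : g ^ (rho ((k : ℤ) * n + j) w + m) * (d.f (sig ((k : ℤ) * n) (sig j w)) *
      γ ^ rho (-j) (sig j w)) = (g ^ rho (-j) (sig j w))⁻¹ *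
      (g ^ (rho ((k : ℤ) * n) (sig j w) + m) * d.f (sig ((k : ℤ) * n) (sig j w))) *
      γ ^ rho (-j) (sig j w) := by
    rw [h4, h5, ← zpow_neg, ← mul_assoc (g ^ (- -rho j w)), ← zpow_add, mul_assoc]
    congr 2; ring
  rw [e]
  exact h1

end ActTop

end Pool.Agent.Lib.MP_35c333_an
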