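import Mathlib

set_option autoImplicit false

/-! A discrete cocompact subgroup of a compactly generated group is finitely generated. -/

namespace Pool.Agent.Lib.MP_35c333_an

open Topology Filter
open scoped Pointwise

theorem fg_of_cocompact {H : Type*} [Group H] [TopologicalSpace H] [IsTopologicalGroup H] [T2Space H]
    (Γ : Subgroup H) [DiscreteTopology Γ] (C : Set H) (hC : IsCompact C)
    (hCΓ : ∀ x : H, ∃ c ∈ C, ∃ δ ∈ Γ, x = c * δ) (S : Set H) (hS : IsCompact S)
    (hgen : Subgroup.closure S = ⊤) : Γ.FG := by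
  set C' : Set H := insert 1 C with hC'
  set S' : Set H := S ∪ S⁻¹ with hS'
  have hC'c : IsCompact C' := hC.insert 1
  have hS'c : IsCompact S' := hS.union hS.inv
  set T : Set H := insert 1 (C'⁻¹ * S' * C') ∪ C'⁻¹ with hT
  have hTc : IsCompact T := (((hC'c.inv.mul hS'c).mul hC'c).insert 1).union hC'c.inv
  set F : Set H := (Γ : Set H) ∩ T with hF
  have hΓc : IsClosed (Γ : Set H) := Subgroup.isClosed_of_discrete
  have hFfin : F.Finite := by
    have h1 : IsCompact F := by
      rw [hF, Set.inter_comm]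
      exact hTc.inter_right hΓc
    exact h1.finite (IsDiscrete.mono (⟨inferInstance⟩ : IsDiscrete (Γ : Set H))
      Set.inter_subset_left)
  have hmain : ∀ l : List H, (∀ y ∈ l, y ∈ S ∨ y⁻¹ ∈ S) → ∀ c ∈ C', ∀ δ ∈ Γ, l.prod = c * δ →
      δ ∈ Subgroup.closure F := by
    intro l
    induction l with
    | nil =>
      intro _ c hc δ hδ h
      rw [List.prod_nil] at h
      have h1 : δ = c⁻¹ := (eq_inv_of_mul_eq_one_right h.symm)
      exact Subgroup.subset_closure ⟨hδ, Or.inr (by rw [h1]; exact Set.inv_mem_inv.2 hc)⟩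
    | cons s l ih =>
      intro hl c hc δ hδ h
      rw [List.prod_cons] at h
      obtain ⟨c', hc', δ', hδ', h'⟩ := hCΓ l.prod
      have h1 := ih (fun y hy => hl y (List.mem_cons_of_mem _ hy)) c' (Set.mem_insert_of_mem _ hc')
        δ' hδ' h'
      have h2 : δ * δ'⁻¹ = c⁻¹ * s * c' := by
        rw [h'] at h
        have : δ = c⁻¹ * (s * (c' * δ')) := by rw [h]; group
        rw [this]; group
      have h3 : δ * δ'⁻¹ ∈ Subgroup.closure F := by
        refine Subgroup.subset_closure ⟨Γ.mul_mem hδ (Γ.inv_mem hδ'), Or.inl (Or.inr ?_)⟩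
        rw [h2]
        refine Set.mul_mem_mul (Set.mul_mem_mul (Set.inv_mem_inv.2 hc) ?_)
          (Set.mem_insert_of_mem _ hc')
        rcases hl s List.mem_cons_self with h4 | h4
        · exact Or.inl h4
        · exact Or.inr h4
      have h4 := (Subgroup.closure F).mul_mem h3 h1
      rwa [inv_mul_cancel_right] at h4
  rw [Subgroup.fg_iff]
  refine ⟨F, le_antisymm ?_ ?_, hFfin⟩
  · rw [Subgroup.closure_le]
    exact Set.inter_subset_left
  · intro δ hδ
    have h1 : δ ∈ Subgroup.closure S := by rw [hgen]; exact Subgroup.mem_top _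
    rw [← Subgroup.mem_toSubmonoid, Subgroup.closure_toSubmonoid] at h1
    obtain ⟨l, hl, hlp⟩ := Submonoid.exists_list_of_mem_closure h1
    exact hmain l (fun y hy => (hl y hy).imp id Set.mem_inv.1) 1 (Set.mem_insert _ _) δ hδ
      (by rw [hlp, one_mul])

end Pool.Agent.Lib.MP_35c333_an
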