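import Mathlib
import Pool.Agent.Lib.MP_35c333_an.Basic

set_option autoImplicit false

/-! Cocompactness of a discrete subgroup in the lower central series. -/

namespace Pool.Agent.Lib.MP_35c333_an

open Topology Filter
open scoped commutatorElement Pointwise

section MalBAlg

variable {Q : Type*} [Group Q]

private theorem malB_comm_mul_left {x y h : Q} (hc : ∀ g : Q, ⁅y, h⁆ * g = g * ⁅y, h⁆) :
    ⁅x * y, h⁆ = ⁅x, h⁆ * ⁅y, h⁆ := by
  have h1 : ⁅x * y, h⁆ = x * ⁅y, h⁆ * x⁻¹ * ⁅x, h⁆ := by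
    simp only [commutatorElement_def]; group
  rw [h1, ← hc x, mul_assoc (⁅y, h⁆), mul_inv_cancel, mul_one, hc]

private theorem malB_comm_mul_right {x h h' : Q} (hc : ∀ g : Q, ⁅x, h'⁆ * g = g * ⁅x, h'⁆) :
    ⁅x, h * h'⁆ = ⁅x, h⁆ * ⁅x, h'⁆ := by
  have h1 : ⁅x, h * h'⁆ = ⁅x, h⁆ * (h * ⁅x, h'⁆ * h⁻¹) := by
    simp only [commutatorElement_def]; group
  rw [h1, ← hc h, mul_assoc (⁅x, h'⁆), mul_inv_cancel, mul_one]

private theorem malB_comm_pow_left {x h : Q} (hc : ∀ g : Q, ⁅x, h⁆ * g = g * ⁅x, h⁆) (n : ℕ) :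
    ⁅x ^ n, h⁆ = ⁅x, h⁆ ^ n := by
  induction n with
  | zero => simp
  | succ n ih => rw [pow_succ, malB_comm_mul_left hc, ih, pow_succ]

private theorem malB_comm_pow_right {x h : Q} (hc : ∀ g : Q, ⁅x, h⁆ * g = g * ⁅x, h⁆) (n : ℕ) :
    ⁅x, h ^ n⁆ = ⁅x, h⁆ ^ n := by
  induction n with
  | zero => simp
  | succ n ih => rw [pow_succ, malB_comm_mul_right hc, ih, pow_succ]

variable {H : Type*} [Group H]

/-- Terms of the lower central series. -/
private abbrev malBL (H : Type*) [Group H] (c : ℕ) : Subgroup H :=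
  (⊤ : Subgroup H).lowerCentralSeries c

private theorem malB_L_anti {i j : ℕ} (h : i ≤ j) : malBL H j ≤ malBL H i :=
  Subgroup.lowerCentralSeries_antitone _ h

private theorem malB_comm_mem {i : ℕ} {x : H} (hx : x ∈ malBL H i) (h : H) :
    ⁅x, h⁆ ∈ malBL H (i + 1) :=
  Subgroup.commutator_mem_commutator hx (Subgroup.mem_top h)

/-- Elements of `L_i` are central modulo `L_{i+1}`. -/
private theorem malB_central {i : ℕ} {z : H} (hz : z ∈ malBL H i) (q : H ⧸ malBL H (i + 1)) :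
    QuotientGroup.mk' (malBL H (i + 1)) z * q = q * QuotientGroup.mk' (malBL H (i + 1)) z := by
  obtain ⟨h, rfl⟩ := QuotientGroup.mk'_surjective _ q
  rw [← commutatorElement_eq_one_iff_mul_comm, ← map_commutatorElement]
  exact (QuotientGroup.eq_one_iff _).2 (malB_comm_mem hz h)

/-- `x = y` modulo `N`. -/
private theorem malB_eq_iff {N : Subgroup H} [N.Normal] {x y : H} :
    QuotientGroup.mk' N x = QuotientGroup.mk' N y ↔ y⁻¹ * x ∈ N := by
  rw [eq_comm]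
  exact QuotientGroup.eq

private theorem malB_left {i : ℕ} {x y : H} (hy : y ∈ malBL H i) (h : H) :
    QuotientGroup.mk' (malBL H (i + 2)) ⁅x * y, h⁆ =
      QuotientGroup.mk' (malBL H (i + 2)) ⁅x, h⁆ * QuotientGroup.mk' (malBL H (i + 2)) ⁅y, h⁆ := by
  simp only [map_commutatorElement, map_mul]
  apply malB_comm_mul_left
  intro g
  rw [← map_commutatorElement]
  exact malB_central (malB_comm_mem hy h) g

private theorem malB_right {i : ℕ} {x : H} (hx : x ∈ malBL H i) (h h' : H) :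
    QuotientGroup.mk' (malBL H (i + 2)) ⁅x, h * h'⁆ =
      QuotientGroup.mk' (malBL H (i + 2)) ⁅x, h⁆ * QuotientGroup.mk' (malBL H (i + 2)) ⁅x, h'⁆ := by
  simp only [map_commutatorElement, map_mul]
  apply malB_comm_mul_right
  intro g
  rw [← map_commutatorElement]
  exact malB_central (malB_comm_mem hx h') g

private theorem malB_pow {i : ℕ} {x : H} (hx : x ∈ malBL H i) (h : H) (n : ℕ) :
    QuotientGroup.mk' (malBL H (i + 2)) ⁅x, h ^ n⁆ =
      QuotientGroup.mk' (malBL H (i + 2)) ⁅x ^ n, h⁆ := by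
  simp only [map_commutatorElement, map_pow]
  have hc : ∀ g, ⁅QuotientGroup.mk' (malBL H (i + 2)) x, QuotientGroup.mk' (malBL H (i + 2)) h⁆ * g =
      g * ⁅QuotientGroup.mk' (malBL H (i + 2)) x, QuotientGroup.mk' (malBL H (i + 2)) h⁆ := by
    intro g
    rw [← map_commutatorElement]
    exact malB_central (malB_comm_mem hx h) g
  rw [malB_comm_pow_left hc, malB_comm_pow_right hc]

/-- The subgroups `U_i`. -/
private def malBU (Γ : Subgroup H) : ℕ → Subgroup H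
  | 0 => ⊤
  | i + 1 => ⁅malBU Γ i, Γ⁆ ⊔ malBL H (i + 2)

variable (Γ : Subgroup H)

private theorem malB_U_le (i : ℕ) : malBU Γ i ≤ malBL H i := by
  induction i with
  | zero => exact le_top
  | succ i ih =>
    exact sup_le (Subgroup.commutator_mono ih le_top) (malB_L_anti (by omega))

private theorem malB_L_le_U (i : ℕ) : malBL H (i + 1) ≤ malBU Γ i := by
  cases i with
  | zero => exact le_top
  | succ i => exact le_sup_right

private theorem malB_normal_of {i : ℕ} {M : Subgroup H} (h1 : malBL H (i + 1) ≤ M)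
    (h2 : M ≤ malBL H i) : M.Normal := by
  refine ⟨fun x hx g => ?_⟩
  have h3 : g * x * g⁻¹ = ⁅x, g⁆⁻¹ * x := by
    simp only [commutatorElement_def]; group
  rw [h3]
  exact M.mul_mem (M.inv_mem (h1 (malB_comm_mem (h2 hx) g))) hx

private theorem malB_U_normal (i : ℕ) : (malBU Γ i).Normal :=
  malB_normal_of (malB_L_le_U Γ i) (malB_U_le Γ i)

private theorem malB_comm_U {i : ℕ} {u δ : H} (hu : u ∈ malBU Γ i) (hδ : δ ∈ Γ) :
    ⁅u, δ⁆ ∈ malBU Γ (i + 1) :=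
  (le_sup_left : ⁅malBU Γ i, Γ⁆ ≤ malBU Γ (i + 1)) (Subgroup.commutator_mem_commutator hu hδ)

private theorem malB_Γ_le (i : ℕ) : Γ.lowerCentralSeries i ≤ malBU Γ i := by
  induction i with
  | zero => exact le_top
  | succ i ih =>
    exact (Subgroup.commutator_mono ih le_rfl).trans le_sup_left

/-- (U6) -/
private theorem malB_U6 (i j : ℕ) : ⁅Γ.lowerCentralSeries i, malBU Γ j⁆ ≤ malBU Γ (i + j + 1) := by
  induction i generalizing j with
  | zero =>
    rw [Subgroup.commutator_comm, Nat.zero_add]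
    exact le_sup_left
  | succ i ih =>
    have hn := malB_U_normal Γ (i + 1 + j + 1)
    rw [Subgroup.lowerCentralSeries_succ]
    refine three_subgroups ?_ ?_
    · refine (Subgroup.commutator_mono (?_ : _ ≤ malBU Γ (j + 1)) le_rfl).trans ?_
      · rw [Subgroup.commutator_comm]; exact le_sup_left
      · rw [Subgroup.commutator_comm]
        refine (ih (j + 1)).trans (le_of_eq ?_)
        congr 1; omega
    · rw [Subgroup.commutator_comm (malBU Γ j)]
      refine (Subgroup.commutator_mono (ih j) le_rfl).trans ?_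
      have h1 : i + 1 + j + 1 = (i + j + 1) + 1 := by omega
      rw [h1]
      exact le_sup_left

end MalBAlg

section MalBTop

variable {H : Type*} [Group H] [TopologicalSpace H] [IsTopologicalGroup H]

/-- The compactness statement of step (U4). -/
private def malBPre (Γ : Subgroup H) (i : ℕ) (M : Subgroup H) : Prop :=
  ∃ K : Set H, IsCompact K ∧ K ⊆ (M : Set H) ∧ ∀ x ∈ M, ∃ k ∈ K, ∃ δ ∈ Γ.lowerCentralSeries i,
    ∃ l ∈ malBL H (i + 1), x = k * δ * l

private theorem malB_pre_bot (Γ : Subgroup H) (i : ℕ) : malBPre Γ i (malBL H (i + 1)) :=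
  ⟨{1}, isCompact_singleton, by simp, fun x hx =>
    ⟨1, rfl, 1, Subgroup.one_mem _, x, hx, by simp⟩⟩

private theorem malB_pre_sup (Γ : Subgroup H) (i : ℕ) {M M' : Subgroup H}
    (h1 : malBL H (i + 1) ≤ M) (h2 : M ≤ malBL H i) (h2' : M' ≤ malBL H i)
    (hP : malBPre Γ i M) (hP' : malBPre Γ i M') : malBPre Γ i (M ⊔ M') := by
  obtain ⟨K, hK, hKM, hKx⟩ := hP
  obtain ⟨K', hK', hKM', hKx'⟩ := hP'
  have hn : M.Normal := malB_normal_of h1 h2
  refine ⟨K * K', hK.mul hK', ?_, ?_⟩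
  · rintro _ ⟨k, hk, k', hk', rfl⟩
    exact Subgroup.mul_mem_sup (hKM hk) (hKM' hk')
  · intro x hx
    obtain ⟨m, hm, m', hm', rfl⟩ := (Subgroup.mem_sup_of_normal_left (s := M) (t := M')).1 hx
    obtain ⟨k, hk, δ, hδ, l, hl, rfl⟩ := hKx m hm
    obtain ⟨k', hk', δ', hδ', l', hl', rfl⟩ := hKx' m' hm'
    refine ⟨k * k', Set.mul_mem_mul hk hk', δ * δ', Subgroup.mul_mem _ hδ hδ',
      (k * k' * (δ * δ'))⁻¹ * (k * δ * l * (k' * δ' * l')), ?_, by group⟩
    rw [← malB_eq_iff]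
    simp only [map_mul]
    have hkc := malB_central (h2' (hKM' hk'))
    have e1 : QuotientGroup.mk' (malBL H (i + 1)) l = 1 := (QuotientGroup.eq_one_iff _).2 hl
    have e2 : QuotientGroup.mk' (malBL H (i + 1)) l' = 1 := (QuotientGroup.eq_one_iff _).2 hl'
    rw [e1, e2, mul_one, mul_one]
    have e3 := hkc (QuotientGroup.mk' (malBL H (i + 1)) δ)
    calc _ = QuotientGroup.mk' (malBL H (i + 1)) k * (QuotientGroup.mk' (malBL H (i + 1)) δ *
          QuotientGroup.mk' (malBL H (i + 1)) k') * QuotientGroup.mk' (malBL H (i + 1)) δ' := by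
          simp only [mul_assoc]
      _ = _ := by rw [← e3]; simp only [mul_assoc]

/-- The subgroup of the elements congruent to `⁅u, f⁆` with `u ∈ U_i`. -/
private def malBM (Γ : Subgroup H) (i : ℕ) (f : H) : Subgroup H where
  carrier := {x | ∃ u ∈ malBU Γ i, QuotientGroup.mk' (malBL H (i + 2)) x =
    QuotientGroup.mk' (malBL H (i + 2)) ⁅u, f⁆}
  one_mem' := ⟨1, Subgroup.one_mem _, by simp⟩
  mul_mem' := by
    rintro a b ⟨u, hu, ha⟩ ⟨u', hu', hb⟩
    refine ⟨u * u', Subgroup.mul_mem _ hu hu', ?_⟩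
    rw [malB_left (malB_U_le Γ i hu'), map_mul, ha, hb]
  inv_mem' := by
    rintro a ⟨u, hu, ha⟩
    refine ⟨u⁻¹, Subgroup.inv_mem _ hu, ?_⟩
    have h1 := malB_left (x := u⁻¹) (malB_U_le Γ i hu) f
    rw [inv_mul_cancel, commutatorElement_one_left, map_one] at h1
    rw [map_inv, ha]
    exact (eq_inv_of_mul_eq_one_left h1.symm).symm

private theorem malB_L_le_M (Γ : Subgroup H) (i : ℕ) (f : H) : malBL H (i + 2) ≤ malBM Γ i f := by
  intro x hx
  refine ⟨1, Subgroup.one_mem _, ?_⟩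
  rw [commutatorElement_one_left, map_one]
  exact (QuotientGroup.eq_one_iff _).2 hx

private theorem malB_M_mem (Γ : Subgroup H) (i : ℕ) (f : H) {N : Subgroup H}
    (h1 : malBL H (i + 2) ≤ N) (h2 : ∀ u ∈ malBU Γ i, ⁅u, f⁆ ∈ N) : malBM Γ i f ≤ N := by
  rintro x ⟨u, hu, hx⟩
  rw [malB_eq_iff] at hx
  have h3 : x = ⁅u, f⁆ * (⁅u, f⁆⁻¹ * x) := by group
  rw [h3]
  exact N.mul_mem (h2 u hu) (h1 hx)

private theorem malB_pre_M (Γ : Subgroup H) (i : ℕ) {f : H} (hf : f ∈ Γ)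
    (hP : malBPre Γ i (malBU Γ i)) : malBPre Γ (i + 1) (malBM Γ i f) := by
  obtain ⟨K, hK, hKU, hKx⟩ := hP
  have hcont : Continuous fun k : H => ⁅k, f⁆ := by
    simp only [commutatorElement_def]
    fun_prop
  refine ⟨(fun k => ⁅k, f⁆) '' K, hK.image hcont, ?_, ?_⟩
  · rintro _ ⟨k, hk, rfl⟩
    exact ⟨k, hKU hk, rfl⟩
  · rintro x ⟨u, hu, hx⟩
    obtain ⟨k, hk, δ, hδ, l, hl, rfl⟩ := hKx u hu
    refine ⟨⁅k, f⁆, ⟨k, hk, rfl⟩, ⁅δ, f⁆, Subgroup.commutator_mem_commutator hδ hf,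
      (⁅k, f⁆ * ⁅δ, f⁆)⁻¹ * x, ?_, by group⟩
    rw [← malB_eq_iff, hx, map_mul,
      malB_left (malB_L_anti (by omega) hl), malB_left (malB_U_le Γ i (malB_Γ_le Γ i hδ))]
    have : QuotientGroup.mk' (malBL H (i + 2)) ⁅l, f⁆ = 1 :=
      (QuotientGroup.eq_one_iff _).2 (malB_comm_mem hl f)
    rw [this, mul_one]

private theorem malB_comm_set {U N : Subgroup H} [N.Normal] {s : Set H}
    (hs : ∀ f ∈ s, ∀ u ∈ U, ⁅u, f⁆ ∈ N) : ∀ f ∈ Subgroup.closure s, ∀ u ∈ U, ⁅u, f⁆ ∈ N := by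
  intro f hf
  induction hf using Subgroup.closure_induction with
  | mem x hx => exact hs x hx
  | one => intro u _; simp
  | mul x y _ _ hx hy =>
    intro u hu
    have h1 : ⁅u, x * y⁆ = ⁅u, x⁆ * (x * ⁅u, y⁆ * x⁻¹) := by
      simp only [commutatorElement_def]; group
    rw [h1]
    exact N.mul_mem (hx u hu) (Subgroup.Normal.conj_mem inferInstance _ (hy u hu) x)
  | inv x _ hx =>
    intro u hu
    have h1 : ⁅u, x⁻¹⁆ = x⁻¹ * ⁅u, x⁆⁻¹ * x⁻¹⁻¹ := by
      simp only [commutatorElement_def]; group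
    rw [h1]
    exact Subgroup.Normal.conj_mem inferInstance _ (N.inv_mem (hx u hu)) _

/-- (U4) -/
private theorem malB_pre_U (Γ : Subgroup H) (hfg : Γ.FG) (C : Set H) (hC : IsCompact C)
    (hCΓ : ∀ x : H, ∃ c ∈ C, ∃ δ ∈ Γ, x = c * δ) (i : ℕ) : malBPre Γ i (malBU Γ i) := by
  classical
  induction i with
  | zero =>
    refine ⟨C, hC, fun _ _ => Subgroup.mem_top _, fun x _ => ?_⟩
    obtain ⟨c, hc, δ, hδ, rfl⟩ := hCΓ x
    exact ⟨c, hc, δ, hδ, 1, Subgroup.one_mem _, by simp⟩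
  | succ i ih =>
    obtain ⟨F, hF⟩ := hfg
    -- the partial sups
    have main : ∀ F' : Finset H, F' ⊆ F →
        malBL H (i + 2) ⊔ F'.sup (malBM Γ i) ≤ malBU Γ (i + 1) ∧
        malBPre Γ (i + 1) (malBL H (i + 2) ⊔ F'.sup (malBM Γ i)) := by
      intro F'
      induction F' using Finset.induction_on with
      | empty =>
        intro _
        rw [Finset.sup_empty, sup_bot_eq]
        exact ⟨malB_L_le_U Γ (i + 1), malB_pre_bot Γ (i + 1)⟩
      | insert f F' hf ih' =>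
        intro hsub
        obtain ⟨h1, h2⟩ := ih' (fun x hx => hsub (Finset.mem_insert_of_mem hx))
        have hfΓ : f ∈ Γ := by
          rw [← hF]; exact Subgroup.subset_closure (hsub (Finset.mem_insert_self _ _))
        have hMU : malBM Γ i f ≤ malBU Γ (i + 1) :=
          malB_M_mem Γ i f (malB_L_le_U Γ (i + 1)) (fun u hu => malB_comm_U Γ hu hfΓ)
        have e : malBL H (i + 2) ⊔ (insert f F').sup (malBM Γ i) =
            malBM Γ i f ⊔ (malBL H (i + 2) ⊔ F'.sup (malBM Γ i)) := by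
          rw [Finset.sup_insert, ← sup_assoc, ← sup_assoc, sup_comm (malBL H (i + 2))]
        rw [e]
        refine ⟨sup_le hMU h1, ?_⟩
        exact malB_pre_sup Γ (i + 1) (malB_L_le_M Γ i f) (hMU.trans (malB_U_le Γ (i + 1)))
          (h1.trans (malB_U_le Γ (i + 1))) (malB_pre_M Γ i hfΓ ih) h2
    obtain ⟨h1, K, hK, hKM, hKx⟩ := main F (Finset.Subset.refl _)
    have hn : (malBL H (i + 2) ⊔ F.sup (malBM Γ i)).Normal :=
      malB_normal_of le_sup_left (h1.trans (malB_U_le Γ (i + 1)))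
    refine ⟨K, hK, fun x hx => h1 (hKM hx), fun x hx => hKx x ?_⟩
    revert x
    change malBU Γ (i + 1) ≤ _
    refine sup_le ?_ le_sup_left
    rw [Subgroup.commutator_le]
    intro u hu δ hδ
    rw [← hF] at hδ
    refine malB_comm_set (U := malBU Γ i) (s := (F : Set H)) ?_ δ hδ u hu
    intro f hf u hu
    refine (le_sup_of_le_right (Finset.le_sup (f := malBM Γ i) hf) :
      malBM Γ i f ≤ malBL H (i + 2) ⊔ F.sup (malBM Γ i)) ⟨u, hu, rfl⟩

/-- (U5) -/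
private theorem malB_U_eq [T2Space H] (Γ : Subgroup H) [DiscreteTopology Γ] (c : ℕ) {K Ks : Set H}
    (hKx : ∀ x ∈ malBU Γ c, ∃ k ∈ K, ∃ δ ∈ Γ.lowerCentralSeries c, ∃ l ∈ malBL H (c + 1), x = k * δ * l)
    (hKsL : Ks ⊆ (malBL H (c + 1) : Set H))
    (hKsx : ∀ x ∈ malBL H (c + 1), ∃ k ∈ Ks, ∃ δ ∈ Γ, x = k * δ) :
    ∀ x ∈ malBU Γ c, ∃ k ∈ K * Ks, ∃ δ ∈ Γ ⊓ malBU Γ c, x = k * δ := by
  intro x hx
  obtain ⟨k, hk, δ, hδ, l, hl, rfl⟩ := hKx x hx
  have hl' : δ * l * δ⁻¹ ∈ malBL H (c + 1) := Subgroup.Normal.conj_mem inferInstance _ hl _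
  obtain ⟨k', hk', δ', hδ', he⟩ := hKsx _ hl'
  have hδU := malB_Γ_le Γ c hδ
  have hδΓ : δ ∈ Γ := Subgroup.lowerCentralSeries_le_self Γ c hδ
  have hδ'U : δ' ∈ malBU Γ c := by
    have h1 : δ' = k'⁻¹ * (δ * l * δ⁻¹) := by rw [he]; group
    rw [h1]
    exact malB_L_le_U Γ c (Subgroup.mul_mem _ (Subgroup.inv_mem _ (hKsL hk')) hl')
  refine ⟨k * k', Set.mul_mem_mul hk hk', δ' * δ, Subgroup.mul_mem _ ⟨hδ', hδ'U⟩ ⟨hδΓ, hδU⟩, ?_⟩
  have h2 : k * k' * (δ' * δ) = k * (k' * δ') * δ := by group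
  rw [h2, ← he]; group

private theorem malB_closed [T2Space H] (Γ : Subgroup H) [DiscreteTopology Γ] {U : Subgroup H}
    {K : Set H} (hK : IsCompact K) (hKU : K ⊆ (U : Set H))
    (hKx : ∀ x ∈ U, ∃ k ∈ K, ∃ δ ∈ Γ ⊓ U, x = k * δ) : IsClosed (U : Set H) := by
  have h1 : (U : Set H) = K * ((Γ ⊓ U : Subgroup H) : Set H) := by
    ext x
    constructor
    · intro hx
      obtain ⟨k, hk, δ, hδ, rfl⟩ := hKx x hx
      exact Set.mul_mem_mul hk hδ
    · rintro ⟨k, hk, δ, hδ, rfl⟩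
      exact U.mul_mem (hKU hk) hδ.2
  have hd : DiscreteTopology (Γ ⊓ U : Subgroup H) :=
    DiscreteTopology.of_subset (s := (Γ : Set H)) inferInstance (fun x hx => hx.1)
  rw [h1]
  exact IsClosed.mul_left_of_isCompact Subgroup.isClosed_of_discrete hK

/-- The key step (U7). -/
private theorem malB_step (Γ : Subgroup H) (i : ℕ)
    (hP : malBPre Γ i (malBU Γ i))
    (R : Set H) (hR : Subgroup.closure (R ∪ (Γ : Set H)) = ⊤)
    (hroot : ∀ h ∈ R, ∀ W ∈ 𝓝 (1 : H), ∃ N : ℕ, ∃ r ∈ W, r ^ N = h)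
    (N : Subgroup H) [N.Normal] (hN : IsClosed (N : Set H)) (hUN : malBU Γ (i + 1) ≤ N) :
    malBU Γ i ≤ Subgroup.upperCentralSeriesStep N := by
  obtain ⟨K, hK, hKU, hKx⟩ := hP
  intro u hu
  rw [Subgroup.mem_upperCentralSeriesStep]
  intro y
  have hy : y ∈ Subgroup.closure (R ∪ (Γ : Set H)) := by rw [hR]; exact Subgroup.mem_top y
  refine malB_comm_set (U := malBU Γ i) ?_ y hy u hu
  clear hu u hy y
  rintro p (hp | hp) u hu
  swap
  · exact hUN (malB_comm_U Γ hu hp)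
  by_contra hcon
  -- a neighbourhood on which the commutators are controlled
  have hopen : IsOpen {z : H | z⁻¹ * ⁅u, p⁆ ∉ N} := by
    have : Continuous fun z : H => z⁻¹ * ⁅u, p⁆ := by fun_prop
    exact hN.isOpen_compl.preimage this
  have hev : ∀ᶠ r in 𝓝 (1 : H), ∀ k ∈ K, ⁅k, r⁆⁻¹ * ⁅u, p⁆ ∉ N := by
    apply hK.eventually_forall_of_forall_eventually
    intro k _
    have hcont : Continuous fun z : H × H => ⁅z.2, z.1⁆ := by
      simp only [commutatorElement_def]; fun_prop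
    have hmem : (fun z : H × H => ⁅z.2, z.1⁆) (1, k) ∈ {z : H | z⁻¹ * ⁅u, p⁆ ∉ N} := by
      simpa using hcon
    exact hcont.continuousAt.eventually (hopen.mem_nhds hmem)
  obtain ⟨n, r, hr, hrn⟩ := hroot p hp _ hev
  have huL := malB_U_le Γ i hu
  obtain ⟨k, hk, δ, hδ, l, hl, hun⟩ := hKx (u ^ n) (Subgroup.pow_mem _ hu n)
  refine hr k hk ?_
  have e1 : QuotientGroup.mk' (malBL H (i + 2)) ⁅u, p⁆ =
      QuotientGroup.mk' (malBL H (i + 2)) (⁅k, r⁆ * ⁅δ, r⁆) := by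
    rw [← hrn, malB_pow huL, hun, malB_left (malB_L_anti (by omega) hl),
      malB_left (malB_U_le Γ i (malB_Γ_le Γ i hδ)), map_mul]
    have : QuotientGroup.mk' (malBL H (i + 2)) ⁅l, r⁆ = 1 :=
      (QuotientGroup.eq_one_iff _).2 (malB_comm_mem hl r)
    rw [this, mul_one]
  rw [malB_eq_iff] at e1
  have h1 : ⁅δ, r⁆ ∈ N := by
    apply hUN
    have := malB_U6 Γ i 0 (Subgroup.commutator_mem_commutator hδ (Subgroup.mem_top r))
    simpa using this
  have h2 : ⁅k, r⁆⁻¹ * ⁅u, p⁆ = ⁅δ, r⁆ * ((⁅k, r⁆ * ⁅δ, r⁆)⁻¹ * ⁅u, p⁆) := by group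
  rw [h2]
  exact N.mul_mem h1 (hUN (malB_L_le_U Γ (i + 1) e1))

private theorem malB_step_closed {N : Subgroup H} [N.Normal] (hN : IsClosed (N : Set H)) :
    IsClosed (Subgroup.upperCentralSeriesStep N : Set H) := by
  have h1 : (Subgroup.upperCentralSeriesStep N : Set H) = ⋂ y : H, (fun x : H => ⁅x, y⁆) ⁻¹' (N : Set H) := by
    ext x; simp [Subgroup.mem_upperCentralSeriesStep]
  rw [h1]
  apply isClosed_iInter
  intro y
  have hcont : Continuous fun x : H => ⁅x, y⁆ := by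
    simp only [commutatorElement_def]; fun_prop
  exact hN.preimage hcont

/-- (U8) -/
private theorem malB_L_le (Γ : Subgroup H) (hP : ∀ i, malBPre Γ i (malBU Γ i))
    (R : Set H) (hR : Subgroup.closure (R ∪ (Γ : Set H)) = ⊤)
    (hroot : ∀ h ∈ R, ∀ W ∈ 𝓝 (1 : H), ∃ N : ℕ, ∃ r ∈ W, r ^ N = h) (i : ℕ) :
    ∀ (N : Subgroup H) [N.Normal], IsClosed (N : Set H) → malBU Γ i ≤ N → malBL H i ≤ N := by
  induction i with
  | zero => intro N _ _ h; exact h
  | succ i ih =>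
    intro N hNn hN hUN
    have h1 := malB_step Γ i (hP i) R hR hroot N hN hUN
    have h2 : (Subgroup.upperCentralSeriesStep N).Normal := by
      rw [Subgroup.upperCentralSeriesStep_eq_comap_center]; infer_instance
    have h3 := ih (Subgroup.upperCentralSeriesStep N) (malB_step_closed hN) h1
    change ⁅malBL H i, ⊤⁆ ≤ N
    rw [Subgroup.commutator_le]
    intro x hx y _
    exact h3 hx y

end MalBTop

theorem malcev {H : Type*} [Group H] [TopologicalSpace H] [IsTopologicalGroup H] [T2Space H]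
    (n : ℕ) (hnil : (⊤ : Subgroup H).lowerCentralSeries n = ⊥)
    (Γ : Subgroup H) [DiscreteTopology Γ] (hfg : Γ.FG) (C : Set H) (hC : IsCompact C)
    (hCΓ : ∀ x : H, ∃ c ∈ C, ∃ δ ∈ Γ, x = c * δ)
    (R : Set H) (hR : Subgroup.closure (R ∪ (Γ : Set H)) = ⊤)
    (hroot : ∀ h ∈ R, ∀ W ∈ 𝓝 (1 : H), ∃ N : ℕ, ∃ r ∈ W, r ^ N = h) :
    ∀ c : ℕ, ∃ K : Set H, IsCompact K ∧ K ⊆ ((⊤ : Subgroup H).lowerCentralSeries c : Set H) ∧
      ∀ x ∈ (⊤ : Subgroup H).lowerCentralSeries c, ∃ k ∈ K, ∃ δ ∈ Γ, x = k * δ := by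
  have hP := malB_pre_U Γ hfg C hC hCΓ
  have hbase : ∀ c, n ≤ c → ∃ K : Set H, IsCompact K ∧ K ⊆ (malBL H c : Set H) ∧
      ∀ x ∈ malBL H c, ∃ k ∈ K, ∃ δ ∈ Γ, x = k * δ := by
    intro c hc
    refine ⟨{1}, isCompact_singleton, by simp, fun x hx => ⟨1, rfl, 1, Γ.one_mem, ?_⟩⟩
    have h1 : x ∈ malBL H n := malB_L_anti hc hx
    have h2 : malBL H n = ⊥ := hnil
    rw [h2, Subgroup.mem_bot] at h1
    simp [h1]
  have hstep : ∀ c, (∃ K : Set H, IsCompact K ∧ K ⊆ (malBL H (c + 1) : Set H) ∧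
      ∀ x ∈ malBL H (c + 1), ∃ k ∈ K, ∃ δ ∈ Γ, x = k * δ) →
      ∃ K : Set H, IsCompact K ∧ K ⊆ (malBL H c : Set H) ∧
      ∀ x ∈ malBL H c, ∃ k ∈ K, ∃ δ ∈ Γ, x = k * δ := by
    rintro c ⟨Ks, hKs, hKsL, hKsx⟩
    obtain ⟨K, hK, hKU, hKx⟩ := hP c
    have h1 := malB_U_eq Γ c hKx hKsL hKsx
    have hsub : K * Ks ⊆ (malBU Γ c : Set H) := by
      rintro _ ⟨k, hk, k', hk', rfl⟩
      exact Subgroup.mul_mem _ (hKU hk) (malB_L_le_U Γ c (hKsL hk'))
    have hcl : IsClosed (malBU Γ c : Set H) := malB_closed Γ (hK.mul hKs) hsub h1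
    have hn := malB_U_normal Γ c
    have hle : malBL H c ≤ malBU Γ c := malB_L_le Γ hP R hR hroot c (malBU Γ c) hcl le_rfl
    refine ⟨K * Ks, hK.mul hKs, fun x hx => malB_U_le Γ c (hsub hx), fun x hx => ?_⟩
    obtain ⟨k, hk, δ, hδ, e⟩ := h1 x (hle hx)
    exact ⟨k, hk, δ, hδ.1, e⟩
  have key : ∀ d c, n ≤ c + d → ∃ K : Set H, IsCompact K ∧ K ⊆ (malBL H c : Set H) ∧
      ∀ x ∈ malBL H c, ∃ k ∈ K, ∃ δ ∈ Γ, x = k * δ := by
    intro d
    induction d with
    | zero => intro c hc; exact hbase c hc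
    | succ d ih => intro c hc; exact hstep c (ih (c + 1) (by omega))
  exact fun c => key n c (by omega)

end Pool.Agent.Lib.MP_35c333_an
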