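import Mathlib

set_option autoImplicit false

/-! Small (dyadic) roots near the identity of a Lie group. -/

namespace Pool.Agent.Lib.MP_35c333_an

open Topology Filter

/-- local analysis: a map with derivative `2 id` at a fixed point has a local right inverse which
contracts to the fixed point -/
lemma SmallRoots_contract {E : Type} [NormedAddCommGroup E] [NormedSpace ℝ E]
    [FiniteDimensional ℝ E] (s : E → E) (x₀ : E) (hs : HasStrictFDerivAt s
      (((ContinuousLinearEquiv.smulLeft (Units.mk0 (2 : ℝ) two_ne_zero) : E ≃L[ℝ] E)) :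
        E →L[ℝ] E) x₀)
    (hx : s x₀ = x₀) :
    ∃ q : E → E, ∀ᶠ y in 𝓝 x₀, s (q y) = y ∧ ‖q y - x₀‖ ≤ (2 / 3) * ‖y - x₀‖ := by
  have : CompleteSpace E := FiniteDimensional.complete ℝ E
  refine ⟨hs.localInverse, ?_⟩
  have h1 := hs.eventually_right_inverse
  have h2 := hs.to_localInverse.hasFDerivAt
  have h3 := hs.localInverse_apply_image
  rw [hx] at h1 h2 h3
  have h4 := h2.isLittleO.def (c := 1 / 6) (by norm_num)
  filter_upwards [h1, h4] with y hy1 hy2
  refine ⟨hy1, ?_⟩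
  rw [h3] at hy2
  have h5 : ((ContinuousLinearEquiv.smulLeft (Units.mk0 (2 : ℝ) two_ne_zero) :
      E ≃L[ℝ] E).symm : E →L[ℝ] E) (y - x₀) = (1 / 2 : ℝ) • (y - x₀) := by
    have h6 : (ContinuousLinearEquiv.smulLeft (Units.mk0 (2 : ℝ) two_ne_zero) :
      E ≃L[ℝ] E) ((1 / 2 : ℝ) • (y - x₀)) = y - x₀ := by
      change (2 : ℝ) • ((1 / 2 : ℝ) • (y - x₀)) = y - x₀
      rw [smul_smul]; norm_num
    have h7 := congrArg (ContinuousLinearEquiv.smulLeft (Units.mk0 (2 : ℝ) two_ne_zero) :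
      E ≃L[ℝ] E).symm h6
    rw [ContinuousLinearEquiv.symm_apply_apply] at h7
    exact h7.symm
  rw [h5] at hy2
  calc ‖hs.localInverse s _ x₀ y - x₀‖
      = ‖(hs.localInverse s _ x₀ y - x₀ - (1 / 2 : ℝ) • (y - x₀)) + (1 / 2 : ℝ) • (y - x₀)‖ := by
        rw [sub_add_cancel]
    _ ≤ ‖hs.localInverse s _ x₀ y - x₀ - (1 / 2 : ℝ) • (y - x₀)‖ + ‖(1 / 2 : ℝ) • (y - x₀)‖ :=
        norm_add_le _ _
    _ ≤ 1 / 6 * ‖y - x₀‖ + 1 / 2 * ‖y - x₀‖ := by
        refine add_le_add hy2 ?_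
        rw [norm_smul]
        norm_num
    _ = (2 / 3) * ‖y - x₀‖ := by ring

theorem exists_small_roots (E : Type) [NormedAddCommGroup E] [NormedSpace ℝ E] [FiniteDimensional ℝ E]
    (G : Type) [Group G] [TopologicalSpace G] [ChartedSpace E G]
    [LieGroup (modelWithCornersSelf ℝ E) ((⊤ : ℕ∞) : WithTop ℕ∞) G] :
    ∃ U ∈ 𝓝 (1 : G), ∀ h ∈ U, ∀ W ∈ 𝓝 (1 : G), ∃ N : ℕ, ∃ r ∈ W, r ^ N = h := by
  have : IsTopologicalGroup G :=
    topologicalGroup_of_lieGroup (modelWithCornersSelf ℝ E) ((⊤ : ℕ∞) : WithTop ℕ∞)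
  set φ := extChartAt (modelWithCornersSelf ℝ E) (1 : G) with hφdef
  set x₀ := φ 1 with hx₀
  have h1s : (1 : G) ∈ φ.source := mem_extChartAt_source (I := modelWithCornersSelf ℝ E) 1
  have hsymm : φ.symm x₀ = 1 := φ.left_inv h1s
  have htgt : φ.target ∈ 𝓝 x₀ := extChartAt_target_mem_nhds (I := modelWithCornersSelf ℝ E) 1
  have hφs : ContMDiffAt (modelWithCornersSelf ℝ E) (modelWithCornersSelf ℝ E)
      ((⊤ : ℕ∞) : WithTop ℕ∞) φ.symm x₀ :=
    (contMDiffOn_extChartAt_symm (I := modelWithCornersSelf ℝ E) (1 : G)).contMDiffAt htgt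
  have hφ : ContMDiffAt (modelWithCornersSelf ℝ E) (modelWithCornersSelf ℝ E)
      ((⊤ : ℕ∞) : WithTop ℕ∞) φ 1 := contMDiffAt_extChartAt
  have hcs : ContinuousAt φ.symm x₀ := hφs.continuousAt
  have hcφ : ContinuousAt φ 1 := hφ.continuousAt
  -- the multiplication in the chart
  set m : E × E → E := fun p => φ (φ.symm p.1 * φ.symm p.2) with hm
  have hmd : ContDiffAt ℝ ((⊤ : ℕ∞) : WithTop ℕ∞) m (x₀, x₀) := by
    rw [← contMDiffAt_iff_contDiffAt]
    have h1 : ContMDiffAt (modelWithCornersSelf ℝ (E × E)) (modelWithCornersSelf ℝ E)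
        ((⊤ : ℕ∞) : WithTop ℕ∞) (fun p : E × E => φ.symm p.1) (x₀, x₀) :=
      ContMDiffAt.comp (x₀, x₀) (g := φ.symm) (f := Prod.fst) hφs
        (contDiff_fst.contMDiff.contMDiffAt)
    have h2 : ContMDiffAt (modelWithCornersSelf ℝ (E × E)) (modelWithCornersSelf ℝ E)
        ((⊤ : ℕ∞) : WithTop ℕ∞) (fun p : E × E => φ.symm p.2) (x₀, x₀) :=
      ContMDiffAt.comp (x₀, x₀) (g := φ.symm) (f := Prod.snd) hφs
        (contDiff_snd.contMDiff.contMDiffAt)
    have h3 := h1.mul h2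
    refine ContMDiffAt.comp (x₀, x₀) (g := φ)
      (f := fun p : E × E => φ.symm p.1 * φ.symm p.2) ?_ h3
    change ContMDiffAt _ _ _ φ (φ.symm x₀ * φ.symm x₀)
    rw [hsymm, one_mul]
    exact hφ
  have hm1 : HasStrictFDerivAt m (fderiv ℝ m (x₀, x₀)) (x₀, x₀) :=
    hmd.hasStrictFDerivAt (by simp)
  -- the partial derivatives
  have hinv : ∀ᶠ y in 𝓝 x₀, φ (φ.symm y) = y := by
    filter_upwards [htgt] with y hy
    exact φ.right_inv hy
  have hd1 : ∀ a : E, fderiv ℝ m (x₀, x₀) (a, 0) = a := by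
    intro a
    have h1 : HasFDerivAt (fun y : E => m (y, x₀))
        ((fderiv ℝ m (x₀, x₀)).comp (ContinuousLinearMap.inl ℝ E E)) x₀ :=
      HasFDerivAt.comp (g := m) (f := fun y : E => (y, x₀)) x₀ hm1.hasFDerivAt
        (hasFDerivAt_prodMk_left x₀ x₀)
    have h2 : HasFDerivAt (fun y : E => m (y, x₀)) (ContinuousLinearMap.id ℝ E) x₀ := by
      refine (hasFDerivAt_id x₀).congr_of_eventuallyEq ?_
      filter_upwards [hinv] with y hy
      simp only [hm, hsymm, mul_one, id]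
      exact hy
    have h3 := h1.unique h2
    have h4 := congrArg (fun L : E →L[ℝ] E => L a) h3
    simpa using h4
  have hd2 : ∀ a : E, fderiv ℝ m (x₀, x₀) (0, a) = a := by
    intro a
    have h1 : HasFDerivAt (fun y : E => m (x₀, y))
        ((fderiv ℝ m (x₀, x₀)).comp (ContinuousLinearMap.inr ℝ E E)) x₀ :=
      HasFDerivAt.comp (g := m) (f := fun y : E => (x₀, y)) x₀ hm1.hasFDerivAt
        (hasFDerivAt_prodMk_right x₀ x₀)
    have h2 : HasFDerivAt (fun y : E => m (x₀, y)) (ContinuousLinearMap.id ℝ E) x₀ := by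
      refine (hasFDerivAt_id x₀).congr_of_eventuallyEq ?_
      filter_upwards [hinv] with y hy
      simp only [hm, hsymm, one_mul, id]
      exact hy
    have h3 := h1.unique h2
    have h4 := congrArg (fun L : E →L[ℝ] E => L a) h3
    simpa using h4
  set s : E → E := fun y => m (y, y) with hs
  have hsd : HasStrictFDerivAt s
      (((ContinuousLinearEquiv.smulLeft (Units.mk0 (2 : ℝ) two_ne_zero) : E ≃L[ℝ] E)) :
        E →L[ℝ] E) x₀ := by
    have h1 : HasStrictFDerivAt (fun y : E => (y, y))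
        ((ContinuousLinearMap.id ℝ E).prod (ContinuousLinearMap.id ℝ E)) x₀ :=
      (hasStrictFDerivAt_id x₀).prodMk (hasStrictFDerivAt_id x₀)
    have h2 := HasStrictFDerivAt.comp (g := m) (f := fun y : E => (y, y)) x₀ hm1 h1
    convert h2 using 1
    ext a
    change (2 : ℝ) • a = fderiv ℝ m (x₀, x₀) (a, a)
    have h3 : ((a, a) : E × E) = (a, 0) + (0, a) := by simp
    rw [h3, map_add, hd1, hd2, two_smul]
  have hsx : s x₀ = x₀ := by
    simp only [hs, hm, hsymm, mul_one]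
    rfl
  obtain ⟨q, hq⟩ := SmallRoots_contract s x₀ hsd hsx
  -- squares of points near `x₀` stay in the chart
  have hsq : ∀ᶠ y in 𝓝 x₀, φ.symm y * φ.symm y ∈ φ.source := by
    have h1 : ContinuousAt (fun y => φ.symm y * φ.symm y) x₀ := hcs.mul hcs
    apply h1
    simp only [hsymm, mul_one]
    exact extChartAt_source_mem_nhds (I := modelWithCornersSelf ℝ E) (1 : G)
  obtain ⟨ε, hε, hball⟩ := Metric.eventually_nhds_iff_ball.1 (hq.and hsq)
  refine ⟨φ.source ∩ φ ⁻¹' (Metric.ball x₀ ε), inter_mem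
    (extChartAt_source_mem_nhds (I := modelWithCornersSelf ℝ E) (1 : G))
    (hcφ (Metric.ball_mem_nhds _ hε)), ?_⟩
  rintro h ⟨hh1, hh2⟩ W hW
  have hh2' : ‖φ h - x₀‖ < ε := by
    have := hh2
    rwa [Set.mem_preimage, Metric.mem_ball, dist_eq_norm] at this
  set y : ℕ → E := fun n => q^[n] (φ h) with hy
  have hy0 : y 0 = φ h := rfl
  have hysucc : ∀ n, y (n + 1) = q (y n) := fun n => Function.iterate_succ_apply' q n (φ h)
  have hynorm : ∀ n, ‖y n - x₀‖ ≤ (2 / 3 : ℝ) ^ n * ‖φ h - x₀‖ ∧ y n ∈ Metric.ball x₀ ε := by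
    intro n
    have key : ∀ k, ‖y k - x₀‖ ≤ (2 / 3 : ℝ) ^ k * ‖φ h - x₀‖ → y k ∈ Metric.ball x₀ ε := by
      intro k hk
      rw [Metric.mem_ball, dist_eq_norm]
      have h1 : (2 / 3 : ℝ) ^ k ≤ 1 := pow_le_one₀ (by norm_num) (by norm_num)
      have h2 := mul_le_mul_of_nonneg_right h1 (norm_nonneg (φ h - x₀))
      linarith
    induction n with
    | zero =>
      have : ‖y 0 - x₀‖ ≤ (2 / 3 : ℝ) ^ 0 * ‖φ h - x₀‖ := by rw [hy0]; simp
      exact ⟨this, key 0 this⟩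
    | succ n ih =>
      have h1 := (hball (y n) ih.2).1.2
      have : ‖y (n + 1) - x₀‖ ≤ (2 / 3 : ℝ) ^ (n + 1) * ‖φ h - x₀‖ := by
        rw [hysucc, pow_succ]
        calc ‖q (y n) - x₀‖ ≤ 2 / 3 * ‖y n - x₀‖ := h1
          _ ≤ 2 / 3 * ((2 / 3 : ℝ) ^ n * ‖φ h - x₀‖) := by
            exact mul_le_mul_of_nonneg_left ih.1 (by norm_num)
          _ = (2 / 3 : ℝ) ^ n * (2 / 3) * ‖φ h - x₀‖ := by ring
      exact ⟨this, key (n + 1) this⟩
  have hroot : ∀ n, φ.symm (y (n + 1)) * φ.symm (y (n + 1)) = φ.symm (y n) := by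
    intro n
    have h1 := (hball (y n) (hynorm n).2).1.1
    have h2 := (hball (y (n + 1)) (hynorm (n + 1)).2).2
    rw [← hysucc] at h1
    have h3 : φ (φ.symm (y (n + 1)) * φ.symm (y (n + 1))) = y n := h1
    rw [← h3, φ.left_inv h2]
  have hpow : ∀ n, φ.symm (y n) ^ (2 ^ n) = h := by
    intro n
    induction n with
    | zero => rw [pow_zero, pow_one, hy0, φ.left_inv hh1]
    | succ n ih => rw [pow_succ, mul_comm, pow_mul, pow_two, hroot, ih]
  have hlim : Tendsto y atTop (𝓝 x₀) := by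
    rw [tendsto_iff_norm_sub_tendsto_zero]
    refine squeeze_zero (fun n => norm_nonneg _) (fun n => (hynorm n).1) ?_
    have := (tendsto_pow_atTop_nhds_zero_of_lt_one (by norm_num : (0 : ℝ) ≤ 2 / 3)
      (by norm_num)).mul_const ‖φ h - x₀‖
    rwa [zero_mul] at this
  have hlim2 : Tendsto (fun n => φ.symm (y n)) atTop (𝓝 1) := by
    have := hcs.tendsto.comp hlim
    rwa [hsymm] at this
  obtain ⟨n, hn⟩ := (hlim2.eventually hW).exists
  exact ⟨2 ^ n, φ.symm (y n), hn, hpow n⟩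

end Pool.Agent.Lib.MP_35c333_an
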