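import Mathlib
import Pool.Agent.Lib.MP_35c333_an.ActGrp
import Pool.Agent.Lib.MP_35c333_an.SmallRoots
import Pool.Agent.Lib.MP_35c333_an.MalA
import Pool.Agent.Lib.MP_35c333_an.MalB

set_option autoImplicit false

/-! Reduction of the problem to `main_H`. -/

namespace Pool.Agent.Lib.MP_35c333_an

open Topology Filter
open scoped Pointwise

section Red

variable {G : Type*} [Group G] [TopologicalSpace G] [IsTopologicalGroup G]

theorem LR.dense_lift (Γ : Subgroup G) (g : G)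
    (hg : ∀ m : ℕ, 0 < m → ∀ x : G ⧸ Γ, Dense (Set.range (fun n : ℤ => (g ^ m) ^ n • x)))
    (m : ℕ) (hm : 0 < m) : Dense {x : G | ∃ n : ℤ, ∃ δ ∈ Γ, x = (g ^ m) ^ n * δ} := by
  rw [dense_iff_inter_open]
  intro O hO hne
  have h1 : IsOpen ((QuotientGroup.mk : G → G ⧸ Γ) '' O) := QuotientGroup.isOpenMap_coe O hO
  have h2 := (hg m hm ((1 : G) : G ⧸ Γ)).inter_open_nonempty _ h1 (hne.image _)
  obtain ⟨y, ⟨o, ho, rfl⟩, ⟨n, hn⟩⟩ := h2
  refine ⟨o, ho, n, ((g ^ m) ^ n)⁻¹ * o, ?_, by group⟩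
  have h3 : (((g ^ m) ^ n * 1 : G) : G ⧸ Γ) = (o : G ⧸ Γ) := hn
  rw [mul_one] at h3
  exact QuotientGroup.eq.1 h3

theorem LR.pc_le_closure (A : Set G) (hA : A ∈ 𝓝 (1 : G)) :
    Subgroup.pathComponentOne G ≤ Subgroup.closure A := by
  have h1 : (Subgroup.closure A : Set G) ∈ 𝓝 (1 : G) :=
    Filter.mem_of_superset hA Subgroup.subset_closure
  have h2 : IsOpen (Subgroup.closure A : Set G) := Subgroup.isOpen_of_mem_nhds _ h1
  have h3 : IsClosed (Subgroup.closure A : Set G) := Subgroup.isClosed_of_isOpen _ h2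
  have h4 : IsPreconnected (pathComponent (1 : G)) := isPathConnected_pathComponent.isConnected.isPreconnected
  intro x hx
  exact h4.subset_isClopen ⟨h3, h2⟩ ⟨1, mem_pathComponent_self 1, Subgroup.one_mem _⟩ hx

theorem LR.sup_top (P Γ : Subgroup G) (hPopen : IsOpen (P : Set G)) (g : G)
    (hd : ∀ m : ℕ, 0 < m → Dense {x : G | ∃ n : ℤ, ∃ δ ∈ Γ, x = (g ^ m) ^ n * δ}) :
    P ⊔ Γ = ⊤ := by
  have hQ : IsOpen ((P ⊔ Γ : Subgroup G) : Set G) := Subgroup.isOpen_mono le_sup_left hPopen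
  have key : ∀ m : ℕ, 0 < m → ∀ x : G, ∃ n : ℤ, x⁻¹ * (g ^ m) ^ n ∈ P ⊔ Γ := by
    intro m hm x
    have h1 : IsOpen {y : G | x⁻¹ * y ∈ ((P ⊔ Γ : Subgroup G) : Set G)} :=
      hQ.preimage (continuous_const.mul continuous_id)
    obtain ⟨y, hy, n, δ, hδ, rfl⟩ := (hd m hm).inter_open_nonempty _ h1 ⟨x, by
      show x⁻¹ * x ∈ P ⊔ Γ
      rw [inv_mul_cancel]; exact Subgroup.one_mem _⟩
    refine ⟨n, ?_⟩
    have h2 : x⁻¹ * ((g ^ m) ^ n * δ) ∈ P ⊔ Γ := hy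
    have h3 := Subgroup.mul_mem _ h2 (Subgroup.inv_mem _ ((le_sup_right : Γ ≤ P ⊔ Γ) hδ))
    have e : x⁻¹ * ((g ^ m) ^ n * δ) * δ⁻¹ = x⁻¹ * (g ^ m) ^ n := by group
    rwa [e] at h3
  obtain ⟨n, hn⟩ := key 2 two_pos g
  have h1 : g ^ (2 * n - 1) ∈ P ⊔ Γ := by
    have e : g⁻¹ * (g ^ 2) ^ n = g ^ (2 * n - 1) := by
      rw [← zpow_natCast, ← zpow_mul, ← zpow_neg_one, ← zpow_add]
      congr 1; push_cast; ring
    rwa [e] at hn
  have h2 : g ^ (2 * n - 1).natAbs ∈ P ⊔ Γ := by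
    rcases Int.natAbs_eq (2 * n - 1) with h | h
    · rw [← zpow_natCast, ← h]; exact h1
    · rw [← zpow_natCast, show ((2 * n - 1).natAbs : ℤ) = -(2 * n - 1) by omega, zpow_neg]
      exact Subgroup.inv_mem _ h1
  rw [eq_top_iff]
  intro x _
  obtain ⟨n', hn'⟩ := key (2 * n - 1).natAbs (by omega) x
  have h3 := Subgroup.mul_mem _ hn' (Subgroup.inv_mem _ (Subgroup.zpow_mem _ h2 n'))
  rw [mul_inv_cancel_right] at h3
  simpa using Subgroup.inv_mem _ h3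

theorem LR.exists_compact (P Γ : Subgroup G) [LocallyCompactSpace G] [CompactSpace (G ⧸ Γ)]
    (hPopen : IsOpen (P : Set G)) (hPΓ : ∀ x : G, ∃ p ∈ P, ∃ δ ∈ Γ, x = p * δ) :
    ∃ C : Set G, IsCompact C ∧ C ⊆ (P : Set G) ∧ ∀ x : G, ∃ c ∈ C, ∃ δ ∈ Γ, x = c * δ := by
  have h1 : ∀ p : P, ∃ K : Set G, IsCompact K ∧ (p : G) ∈ interior K ∧ K ⊆ (P : Set G) :=
    fun p => exists_compact_subset hPopen p.2
  choose K hK hpK hKP using h1
  obtain ⟨t, ht⟩ := isCompact_univ.elim_finite_subcover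
    (fun p : P => (QuotientGroup.mk : G → G ⧸ Γ) '' interior (K p))
    (fun p => QuotientGroup.isOpenMap_coe _ isOpen_interior) (by
      intro x _
      obtain ⟨y, rfl⟩ := QuotientGroup.mk_surjective x
      obtain ⟨p, hp, δ, hδ, rfl⟩ := hPΓ y
      refine Set.mem_iUnion.2 ⟨⟨p, hp⟩, p, hpK ⟨p, hp⟩, ?_⟩
      rw [QuotientGroup.eq]
      simpa using hδ)
  refine ⟨⋃ p ∈ t, K p, t.isCompact_biUnion (fun p _ => hK p), ?_, ?_⟩
  · exact Set.iUnion₂_subset fun p _ => hKP p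
  · intro x
    have h2 := ht (Set.mem_univ (x : G ⧸ Γ))
    obtain ⟨p, hp, ⟨c, hc, hcx⟩⟩ := Set.mem_iUnion₂.1 h2
    refine ⟨c, Set.mem_iUnion₂.2 ⟨p, hp, interior_subset hc⟩, c⁻¹ * x, QuotientGroup.eq.1 hcx, by group⟩

omit [TopologicalSpace G] [IsTopologicalGroup G] in
/-- generation criterion inside the open subgroup. -/
theorem LR.gen_top (P H : Subgroup G) (γ : G) (hH : H = P ⊔ Subgroup.zpowers γ) (A : Set H)
    (hP : P ≤ (Subgroup.closure A).map H.subtype) (hγ : γ ∈ (Subgroup.closure A).map H.subtype) :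
    Subgroup.closure A = ⊤ := by
  have h1 : H ≤ (Subgroup.closure A).map H.subtype := by
    conv_lhs => rw [hH]
    refine sup_le hP ?_
    rw [Subgroup.zpowers_le]; exact hγ
  rw [eq_top_iff]
  intro x _
  obtain ⟨y, hy, hyx⟩ := h1 x.2
  have : y = x := Subtype.ext hyx
  rwa [← this]

theorem LR.reduction [T2Space G] [LocallyCompactSpace G] [LocallyPathConnectedSpace G]
    [Group.IsNilpotent G]
    (hroots : ∃ U ∈ 𝓝 (1 : G), ∀ h ∈ U, ∀ W ∈ 𝓝 (1 : G), ∃ N : ℕ, ∃ r ∈ W, r ^ N = h)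
    (Γ : Subgroup G) [DiscreteTopology Γ] [CompactSpace (G ⧸ Γ)] (g : G)
    (hg : ∀ m : ℕ, 0 < m → ∀ x : G ⧸ Γ, Dense (Set.range (fun n : ℤ => (g ^ m) ^ n • x)))
    (D k : ℕ) (hk : 0 < k) (j : ℤ) (V : Set G) (hV : V ∈ 𝓝 (1 : G)) (W : Finset (Fin (D + 1) → ℤ)) :
    ∃ n : ℕ, 0 < n ∧ ∃ m : ℤ, ∀ w ∈ W, ∃ δ ∈ Γ, g ^ (rho ((k : ℤ) * n + j) w + m) * δ ∈ V := by
  have hd := LR.dense_lift Γ g hg
  set P : Subgroup G := Subgroup.pathComponentOne G with hP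
  have hPn : P.Normal := inferInstance
  have hPopen : IsOpen (P : Set G) := IsOpen.pathComponent (1 : G)
  have hPtop : P ⊔ Γ = ⊤ := LR.sup_top P Γ hPopen g hd
  have hPΓ : ∀ x : G, ∃ p ∈ P, ∃ δ ∈ Γ, x = p * δ := by
    intro x
    have h1 : x ∈ ((P ⊔ Γ : Subgroup G) : Set G) := by rw [hPtop]; trivial
    rw [Subgroup.normal_mul] at h1
    obtain ⟨p, hp, δ, hδ, h⟩ := Set.mem_mul.1 h1
    exact ⟨p, hp, δ, hδ, h.symm⟩
  obtain ⟨h0, hh0, γ, hγ, hgγ⟩ := hPΓ g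
  obtain ⟨C, hC, hCP, hCΓ⟩ := LR.exists_compact P Γ hPopen hPΓ
  obtain ⟨H, hH⟩ : ∃ H : Subgroup G, H = P ⊔ Subgroup.zpowers γ := ⟨_, rfl⟩
  have hPH : P ≤ H := by rw [hH]; exact le_sup_left
  have hγH : γ ∈ H := by
    rw [hH]; exact (le_sup_right : Subgroup.zpowers γ ≤ _) (Subgroup.mem_zpowers γ)
  have hgH : g ∈ H := by rw [hgγ]; exact H.mul_mem (hPH hh0) hγH
  have hHopen : IsOpen (H : Set G) := Subgroup.isOpen_mono hPH hPopen
  obtain ⟨s, hs⟩ := Subgroup.nilpotent_iff_lowerCentralSeries.1 (inferInstance : Group.IsNilpotent H)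
  let P' : Subgroup H := P.subgroupOf H
  let Γ' : Subgroup H := Γ.subgroupOf H
  have hP'n : P'.Normal := inferInstanceAs (P.subgroupOf H).Normal
  have hP'open : IsOpen (P' : Set H) := hPopen.preimage continuous_subtype_val
  have hpathP : ∀ c ∈ P, JoinedIn (P : Set G) 1 c := fun c hc =>
    (isPathConnected_pathComponent (x := (1 : G))).joinedIn 1 (mem_pathComponent_self 1) c hc
  have hP'path : ∀ c ∈ P', JoinedIn (P' : Set H) 1 c := by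
    intro c hc
    obtain ⟨p, hp⟩ := hpathP (c : G) hc
    refine ⟨⟨⟨fun t => ⟨p t, hPH (hp t)⟩, p.continuous.subtype_mk _⟩, ?_, ?_⟩, fun t => ?_⟩
    · exact Subtype.ext p.source
    · exact Subtype.ext p.target
    · exact hp t
  have hΓ'disc : DiscreteTopology Γ' := by
    have h1 : Function.Injective (fun x : Γ' => (⟨((x : H) : G), x.2⟩ : Γ)) := by
      intro x y hxy
      exact Subtype.ext (Subtype.ext (congrArg (fun z : Γ => (z : G)) hxy))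
    have h2 : Continuous (fun x : Γ' => (⟨((x : H) : G), x.2⟩ : Γ)) :=
      (continuous_subtype_val.comp continuous_subtype_val).subtype_mk _
    exact DiscreteTopology.of_continuous_injective h2 h1
  have hPγ' : P' ⊔ Subgroup.zpowers (⟨γ, hγH⟩ : H) = ⊤ := by
    rw [eq_top_iff]
    intro x _
    have h1 : (x : G) ∈ ((P ⊔ Subgroup.zpowers γ : Subgroup G) : Set G) := by
      rw [← hH]; exact x.2
    rw [Subgroup.normal_mul] at h1
    obtain ⟨p, hp, q, ⟨i, hi⟩, h⟩ := Set.mem_mul.1 h1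
    have e : x = ⟨p, hPH hp⟩ * (⟨γ, hγH⟩ : H) ^ i := by
      apply Subtype.ext
      rw [Subgroup.coe_mul, Subgroup.coe_zpow]
      show (x : G) = p * γ ^ i
      rw [← h]
      congr 1
      exact hi.symm
    rw [e]
    exact Subgroup.mul_mem _ ((le_sup_left : P' ≤ _) hp)
      ((le_sup_right : Subgroup.zpowers (⟨γ, hγH⟩ : H) ≤ _) (Subgroup.zpow_mem _ (Subgroup.mem_zpowers _) i))
  have hg' : (⟨g, hgH⟩ : H) * (⟨γ, hγH⟩ : H)⁻¹ ∈ P' := by
    show g * γ⁻¹ ∈ P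
    rw [hgγ, mul_inv_cancel_right]; exact hh0
  have hd' : ∀ m : ℕ, 0 < m → Dense {x : H | ∃ n : ℤ, ∃ δ ∈ Γ', x = ((⟨g, hgH⟩ : H) ^ m) ^ n * δ} := by
    intro m hm
    have h1 := (hd m hm).preimage hHopen.isOpenMap_subtype_val
    refine h1.mono ?_
    rintro x ⟨n, δ, hδ, hx⟩
    have hδH : δ ∈ H := by
      have : δ = ((g ^ m) ^ n)⁻¹ * (x : G) := by rw [hx]; group
      rw [this]
      exact H.mul_mem (H.inv_mem (H.zpow_mem (H.pow_mem hgH m) n)) x.2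
    exact ⟨n, ⟨δ, hδH⟩, hδ, Subtype.ext hx⟩
  -- compact sets
  have hemb : Topology.IsEmbedding (Subtype.val : H → G) := Topology.IsEmbedding.subtypeVal
  have hpre : ∀ K : Set G, IsCompact K → K ⊆ (P : Set G) → IsCompact ((Subtype.val : H → G) ⁻¹' K) := by
    intro K hK hKP
    have e : (Subtype.val : H → G) '' ((Subtype.val : H → G) ⁻¹' K) = K := by
      ext x
      constructor
      · rintro ⟨y, hy, rfl⟩
        exact hy
      · intro hx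
        exact ⟨⟨x, hPH (hKP hx)⟩, hx, rfl⟩
    rw [hemb.isCompact_iff, e]
    exact hK
  have hC' : ∀ x : H, ∃ c ∈ (Subtype.val : H → G) ⁻¹' C, ∃ δ ∈ Γ', x = c * δ := by
    intro x
    obtain ⟨c, hc, δ, hδ, hx⟩ := hCΓ (x : G)
    have hcH : c ∈ H := hPH (hCP hc)
    have hδH : δ ∈ H := by
      have : δ = c⁻¹ * (x : G) := by rw [hx]; group
      rw [this]
      exact H.mul_mem (H.inv_mem hcH) x.2
    exact ⟨⟨c, hcH⟩, hc, ⟨δ, hδH⟩, hδ, Subtype.ext hx⟩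
  obtain ⟨U0, hU0, h1U0, hU0P⟩ := exists_compact_subset hPopen P.one_mem
  have hmapcl : ∀ A : Set G, A ⊆ (P : Set G) → ∀ B : Set H, (Subtype.val : H → G) ⁻¹' A ⊆ B →
      Subgroup.closure A ≤ (Subgroup.closure B).map H.subtype := by
    intro A hA B hB
    refine (Subgroup.closure_le _).2 ?_
    intro a ha
    exact ⟨⟨a, hPH (hA ha)⟩, Subgroup.subset_closure (hB ha), rfl⟩
  have hfg : Γ'.FG := by
    refine fg_of_cocompact Γ' _ (hpre C hC hCP) hC' ((Subtype.val : H → G) ⁻¹' U0 ∪ {⟨γ, hγH⟩})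
      ((hpre U0 hU0 hU0P).union isCompact_singleton) ?_
    refine LR.gen_top P H γ hH _ ?_ ?_
    · exact (LR.pc_le_closure U0 (mem_interior_iff_mem_nhds.1 h1U0)).trans
        (hmapcl U0 hU0P _ Set.subset_union_left)
    · exact ⟨⟨γ, hγH⟩, Subgroup.subset_closure (Or.inr rfl), rfl⟩
  obtain ⟨U, hU, hUr⟩ := hroots
  have hM := malcev s hs Γ' hfg _ (hpre C hC hCP) hC' ((Subtype.val : H → G) ⁻¹' (U ∩ P)) ?_ ?_
  rotate_left
  · refine LR.gen_top P H γ hH _ ?_ ?_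
    · exact (LR.pc_le_closure (U ∩ P) (Filter.inter_mem hU (hPopen.mem_nhds P.one_mem))).trans
        (hmapcl (U ∩ P) Set.inter_subset_right _ Set.subset_union_left)
    · exact ⟨⟨γ, hγH⟩, Subgroup.subset_closure (Or.inr hγ), rfl⟩
  · rintro h hh W' hW'
    obtain ⟨W1, hW1, hW1'⟩ := mem_nhds_subtype _ _ _ |>.1 hW'
    obtain ⟨N, r, hr, hrN⟩ := hUr (h : G) hh.1 (W1 ∩ P) (Filter.inter_mem hW1 (hPopen.mem_nhds P.one_mem))
    exact ⟨N, ⟨r, hPH hr.2⟩, hW1' hr.1, Subtype.ext hrN⟩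
  obtain ⟨n, hn, m, hnm⟩ := main_H D s hs P' Γ' hP'n hP'open hP'path ⟨γ, hγH⟩ ⟨g, hgH⟩ hγ hPγ' hg' hd' hM
    k hk j ((Subtype.val : H → G) ⁻¹' V) (continuous_subtype_val.continuousAt hV) W
  refine ⟨n, hn, m, fun w hw => ?_⟩
  obtain ⟨δ, hδ, hmem⟩ := hnm w hw
  exact ⟨(δ : G), hδ, hmem⟩

theorem LR.exists_vec {d : ℕ} (p : Fin d → Polynomial ℤ) (hp : ∀ i, (p i).eval 0 = 0) :
    ∃ D : ℕ, ∃ w : Fin d → (Fin (D + 1) → ℤ), ∀ i n, (p i).eval n = rho n (w i) := by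
  refine ⟨Finset.univ.sup fun i => (p i).natDegree, fun i l => (p i).coeff (l.val + 1), fun i n => ?_⟩
  set D := Finset.univ.sup fun i => (p i).natDegree with hD
  have hle : (p i).natDegree ≤ D := Finset.le_sup (f := fun i => (p i).natDegree) (Finset.mem_univ i)
  have h0 : (p i).coeff 0 = 0 := by rw [Polynomial.coeff_zero_eq_eval_zero]; exact hp i
  rw [Polynomial.eval_eq_sum_range' (n := D + 2) (by omega), Finset.sum_range_succ', h0]
  simp only [zero_mul, add_zero, rho]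
  rw [Finset.sum_range]

theorem LR.final [T2Space G] [LocallyCompactSpace G] [LocallyPathConnectedSpace G]
    [Group.IsNilpotent G]
    (hroots : ∃ U ∈ 𝓝 (1 : G), ∀ h ∈ U, ∀ W ∈ 𝓝 (1 : G), ∃ N : ℕ, ∃ r ∈ W, r ^ N = h)
    (Γ : Subgroup G) [DiscreteTopology Γ] [CompactSpace (G ⧸ Γ)] (g : G)
    (hg : ∀ m : ℕ, 0 < m → ∀ x : G ⧸ Γ, Dense (Set.range (fun n : ℤ => (g ^ m) ^ n • x)))
    (d : ℕ) (p : Fin d → Polynomial ℤ) (hp : ∀ i, (p i).eval 0 = 0) (k : ℕ) (hk : 0 < k) (j : ℕ)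
    (U : Set (G ⧸ Γ)) (hU : IsOpen U) (hne : U.Nonempty) :
    ∃ n : ℕ, 0 < n ∧ ∃ x ∈ U, ∀ i, g ^ ((p i).eval ((k : ℤ) * (n : ℤ) + (j : ℤ))) • x ∈ U := by
  obtain ⟨D, w, hw⟩ := LR.exists_vec p hp
  obtain ⟨_, hy, n1, rfl⟩ := (hg 1 one_pos ((1 : G) : G ⧸ Γ)).inter_open_nonempty U hU hne
  -- neighbourhood of 1
  let V : Set G := {x : G | (((g ^ 1) ^ n1 * x : G) : G ⧸ Γ) ∈ U}
  have hV : V ∈ 𝓝 (1 : G) := by
    have hc : Continuous fun x : G => (((g ^ 1) ^ n1 * x : G) : G ⧸ Γ) :=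
      continuous_quotient_mk'.comp (continuous_const.mul continuous_id)
    exact hc.continuousAt (hU.mem_nhds hy)
  obtain ⟨n, hn, m, hnm⟩ := LR.reduction hroots Γ g hg D k hk (j : ℤ) V hV
    (insert 0 (Finset.univ.image w))
  refine ⟨n, hn, ((g ^ (n1 + m) : G) : G ⧸ Γ), ?_, fun i => ?_⟩
  · obtain ⟨δ, hδ, h⟩ := hnm 0 (Finset.mem_insert_self _ _)
    have h1 : (((g ^ 1) ^ n1 * (g ^ (rho ((k : ℤ) * n + j) (0 : Fin (D + 1) → ℤ) + m) * δ) : G) : G ⧸ Γ) ∈ U := h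
    have e : (((g ^ 1) ^ n1 * (g ^ (rho ((k : ℤ) * n + j) (0 : Fin (D + 1) → ℤ) + m) * δ) : G) : G ⧸ Γ) =
        ((g ^ (n1 + m) : G) : G ⧸ Γ) := by
      rw [rho_zero_vec, zero_add, pow_one, ← mul_assoc, ← zpow_add, QuotientGroup.mk_mul_of_mem _ hδ]
    rwa [e] at h1
  · obtain ⟨δ, hδ, h⟩ := hnm (w i) (Finset.mem_insert_of_mem (Finset.mem_image_of_mem _ (Finset.mem_univ i)))
    have h1 : (((g ^ 1) ^ n1 * (g ^ (rho ((k : ℤ) * n + j) (w i) + m) * δ) : G) : G ⧸ Γ) ∈ U := h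
    have e : (((g ^ 1) ^ n1 * (g ^ (rho ((k : ℤ) * n + j) (w i) + m) * δ) : G) : G ⧸ Γ) =
        g ^ ((p i).eval ((k : ℤ) * (n : ℤ) + (j : ℤ))) • ((g ^ (n1 + m) : G) : G ⧸ Γ) := by
      rw [pow_one, ← mul_assoc, ← zpow_add, QuotientGroup.mk_mul_of_mem _ hδ, hw i]
      show _ = ((g ^ rho ((k : ℤ) * n + j) (w i) * g ^ (n1 + m) : G) : G ⧸ Γ)
      rw [← zpow_add]
      congr 2; ring
    rwa [e] at h1

end Red

end Pool.Agent.Lib.MP_35c333_an
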